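import Mathlib

/-!
Square function of divisor weighted averages (MP_d5c55f_an).  See notes.md in this folder.
-/

namespace Pool.Agent.R204.DSQ

open MeasureTheory Finset

universe u

/-- number of divisors, as a real number -/
noncomputable def dv (k : ℕ) : ℝ := ((Nat.divisors k).card : ℝ)

/-- `W n = d(1) + ... + d(n)` -/
noncomputable def W (n : ℕ) : ℝ := ∑ k ∈ Finset.Icc 1 n, dv k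

noncomputable def e (x : ℝ) : ℂ := Complex.exp (2 * Real.pi * x * Complex.I)

noncomputable def S (θ : ℝ) (n : ℕ) : ℂ := ∑ k ∈ Finset.Icc 1 n, (dv k : ℂ) * e (k * θ)

noncomputable def V (θ : ℝ) (n : ℕ) : ℂ := S θ n / (W n : ℂ)

/-- distance to the nearest integer -/
noncomputable def dist1 (x : ℝ) : ℝ := |x - round x|

/-! ### Piece W -/
def WSt : Prop :=
  (∀ n : ℕ, 1 ≤ n → 0 < W n) ∧ (∀ n : ℕ, W (2 * n) ≤ 4 * W n) ∧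
  (∀ n : ℕ, 1 ≤ n → (n : ℝ) / 3 * (1 + Real.log n) ≤ W n) ∧
  (∀ (θ : ℝ) (n : ℕ), ‖V θ n‖ ≤ 1)

/-! ### Piece TV (may use WSt) -/
def TVSt : Prop :=
  ∀ (θ : ℝ) (k : ℕ), ∑ n ∈ Finset.Ico (2 ^ k) (2 ^ (k + 1)), ‖V θ (n + 1) - V θ n‖ ≤ 8

/-! ### Piece GEO -/
def GeoSt : Prop :=
  (∀ (x : ℝ) (m : ℕ), ‖∑ v ∈ Finset.Icc 1 m, e (v * x)‖ ≤ m) ∧
  (∀ (x : ℝ) (m : ℕ), dist1 x ≠ 0 → ‖∑ v ∈ Finset.Icc 1 m, e (v * x)‖ ≤ 1 / (2 * dist1 x))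

/-! ### Piece HYP -/
def HypSt : Prop :=
  ∀ (θ : ℝ) (n : ℕ), S θ n =
    2 * ∑ u ∈ Finset.Icc 1 (Nat.sqrt n), ∑ v ∈ Finset.Icc 1 (n / u), e (v * (u * θ))
    - ∑ u ∈ Finset.Icc 1 (Nat.sqrt n), ∑ v ∈ Finset.Icc 1 (Nat.sqrt n), e (v * (u * θ))

/-- `min (n/u) (1/(2 dist(uθ)))`, equal to `n/u` when `uθ` is an integer -/
noncomputable def mn (n : ℕ) (θ : ℝ) (u : ℕ) : ℝ :=
  if dist1 (u * θ) = 0 then (n : ℝ) / u else min ((n : ℝ) / u) (1 / (2 * dist1 (u * θ)))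

/-! ### Piece VIN -/
def VinSt : Prop :=
  ∃ C : ℝ, 0 < C ∧ ∀ (θ : ℝ) (n q U : ℕ) (a : ℤ), 1 ≤ n → 1 ≤ q → U ≤ n → q ≤ n →
    Int.gcd a q = 1 → |θ - a / q| ≤ 1 / (q : ℝ) ^ 2 →
    ∑ u ∈ Finset.Icc 1 U, mn n θ u ≤ C * ((n : ℝ) / q + U + q) * (1 + Real.log n)

/-! ### Piece MIN (uses WSt GeoSt HypSt VinSt) -/
def MinSt : Prop :=
  ∃ C : ℝ, 0 < C ∧ ∀ (θ : ℝ) (n q : ℕ) (a : ℤ), 1 ≤ n → 1 ≤ q → q ≤ n →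
    Int.gcd a q = 1 → |θ - a / q| ≤ 1 / (q : ℝ) ^ 2 →
    ‖V θ n‖ ≤ C * (1 / (q : ℝ) + 1 / Real.sqrt n + q / n)

/-! ### Piece NQ: the `u` not divisible by `q` -/
def NQSt : Prop :=
  ∃ C : ℝ, 0 < C ∧ ∀ (θ : ℝ) (q U : ℕ) (a : ℤ), 1 ≤ q → Int.gcd a q = 1 →
    (U : ℝ) * |θ - a / q| ≤ 1 / (2 * q) →
    (∀ u ∈ Finset.Icc 1 U, ¬ (q ∣ u) → dist1 (u * θ) ≠ 0) ∧
    ∑ u ∈ (Finset.Icc 1 U).filter (fun u => ¬ (q ∣ u)), 1 / (2 * dist1 (u * θ))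
      ≤ C * (U + q) * (1 + Real.log q)

/-! ### Piece QQ: the `u = q w` (both sums), `β = θ - a/q` -/
def QQSt : Prop :=
  ∃ C : ℝ, 0 < C ∧ ∀ (β : ℝ) (n q : ℕ), 1 ≤ q → 16 * q ^ 2 ≤ n → (n : ℝ) * |β| ≤ 2 →
    ‖(2 * ∑ w ∈ Finset.Icc 1 (Nat.sqrt n / q), ∑ v ∈ Finset.Icc 1 (n / (q * w)), e (v * (q * w * β))
      - ∑ w ∈ Finset.Icc 1 (Nat.sqrt n / q), ∑ v ∈ Finset.Icc 1 (Nat.sqrt n), e (v * (q * w * β)))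
      - (((n : ℝ) / q * (Real.log n - 2 * Real.log q + 2 * Real.eulerMascheroniConstant - 1) : ℝ) : ℂ)‖
      ≤ C * (Real.sqrt n + (n : ℝ) / q * (n * |β|) * (1 + Real.log n))

/-! ### Piece ASY (uses GeoSt HypSt NQSt QQSt) -/
def AsySt : Prop :=
  ∃ C : ℝ, 0 < C ∧ ∀ (θ : ℝ) (n q : ℕ) (a : ℤ), 1 ≤ q → Int.gcd a q = 1 → 16 * q ^ 2 ≤ n →
    (n : ℝ) * |θ - a / q| ≤ 2 →
    ‖S θ n - (((n : ℝ) / q * (Real.log n - 2 * Real.log q + 2 * Real.eulerMascheroniConstant - 1) : ℝ) : ℂ)‖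
      ≤ C * (Real.sqrt n * (1 + Real.log q) + (n : ℝ) / q * (n * |θ - a / q|) * (1 + Real.log n))

/-! ### Piece MAJ (uses WSt AsySt; note `W n = S 0 n`) -/
def MajSt : Prop :=
  ∃ C : ℝ, 0 < C ∧ ∀ (θ : ℝ) (N n q : ℕ) (a : ℤ), 1 ≤ q → Int.gcd a q = 1 → 16 * q ^ 2 ≤ N →
    (N : ℝ) * |θ - a / q| ≤ 1 → N ≤ n → n ≤ 2 * N →
    ‖V θ n - V θ N‖ ≤ C * (1 / (q : ℝ) * ((1 + Real.log q) / (Real.log N) ^ 2 + N * |θ - a / q|)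
      + 1 / Real.sqrt N)

/-! ### Best approximations -/
/-- `q` is a (strict) best approximation denominator of `θ` -/
def Best (θ : ℝ) (q : ℕ) : Prop := 1 ≤ q ∧ ∀ r : ℕ, 1 ≤ r → r < q → dist1 (q * θ) < dist1 (r * θ)

/-! ### Piece BA1 -/
def BA1St : Prop :=
  ∀ (θ : ℝ) (Q : Finset ℕ), (∀ q ∈ Q, Best θ q) → ∑ q ∈ Q, 1 / (q : ℝ) ≤ 4

/-! ### Piece BA2: Dirichlet, minimal denominators -/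
def BA2St : Prop :=
  ∀ (θ : ℝ) (δ : ℝ), 0 < δ → δ ≤ 1 →
    ∃ q : ℕ, 1 ≤ q ∧ (q : ℝ) * δ ≤ 1 ∧ dist1 (q * θ) ≤ δ ∧ (∀ r : ℕ, 1 ≤ r → r < q → δ < dist1 (r * θ)) ∧
      Int.gcd (round (q * θ)) q = 1 ∧ |θ - (round (q * θ) : ℤ) / (q : ℝ)| = dist1 (q * θ) / q

/-! ### Piece BA3: next best approximation -/
def BA3St : Prop :=
  ∀ (θ : ℝ) (q : ℕ), Best θ q → 0 < dist1 (q * θ) →
    ∃ (q' : ℕ) (a' : ℤ), 1 ≤ q' ∧ Int.gcd a' q' = 1 ∧ (q' : ℝ) * dist1 (q * θ) ≤ 1 ∧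
      1 ≤ 2 * (q' : ℝ) * dist1 (q * θ) ∧ |θ - a' / q'| ≤ 1 / (q' : ℝ) ^ 2

/-! ### Piece SUM (uses BA1St BA2St BA3St) -/
def SumSt : Prop :=
  ∀ C : ℝ, 0 < C → ∃ C' : ℝ, 0 < C' ∧ ∀ (θ : ℝ) (M : ℕ → ℝ), (∀ k, 0 ≤ M k) → (∀ k, M k ≤ C) →
    (∀ (k q : ℕ) (a : ℤ), 1 ≤ q → q ≤ 2 ^ k → Int.gcd a q = 1 → |θ - a / q| ≤ 1 / (q : ℝ) ^ 2 →
      M k ≤ C * (1 / (q : ℝ) + 1 / Real.sqrt (2 ^ k) + q / 2 ^ k)) →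
    (∀ (k q : ℕ) (a : ℤ), 1 ≤ k → 1 ≤ q → Int.gcd a q = 1 → 16 * q ^ 2 ≤ 2 ^ k →
      2 ^ k * |θ - a / q| ≤ 1 →
      M k ≤ C * (1 / (q : ℝ) * ((1 + Real.log q) / (k : ℝ) ^ 2 + 2 ^ k * |θ - a / q|)
        + 1 / Real.sqrt (2 ^ k))) →
    ∀ K : ℕ, ∑ k ∈ Finset.range K, M k ≤ C'

/-! ### Piece COMB -/
def CombSt : Prop :=
  ∀ C D : ℝ, 0 < C → 0 < D → ∃ B : ℝ, 0 < B ∧ ∀ (g : ℕ → ℂ) (M : ℕ → ℝ), (∀ k, 0 ≤ M k) →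
    (∀ k n : ℕ, 2 ^ k ≤ n → n ≤ 2 ^ (k + 1) → ‖g n - g (2 ^ k)‖ ≤ M k) →
    (∀ k : ℕ, ∑ n ∈ Finset.Ico (2 ^ k) (2 ^ (k + 1)), ‖g (n + 1) - g n‖ ≤ D) →
    (∀ K : ℕ, ∑ k ∈ Finset.range K, M k ≤ C) →
    ∀ (N : ℕ → ℕ), StrictMono N → 1 ≤ N 0 → ∀ J : ℕ,
      ∑ j ∈ Finset.range J, ‖g (N (j + 1)) - g (N j)‖ ^ 2 ≤ B

/-! ### Piece TR1 (Parseval on the integers) -/
def TR1St : Prop :=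
  ∀ (J K M : ℕ) (c : ℕ → ℕ → ℂ) (C : ℝ),
    (∀ θ : ℝ, ∑ j ∈ Finset.range J, ‖∑ k ∈ Finset.range K, c j k * e (k * θ)‖ ^ 2 ≤ C) →
    ∀ g : ℕ → ℂ, ∑ j ∈ Finset.range J, ∑ m ∈ Finset.range M,
      ‖∑ k ∈ Finset.range K, c j k * g (m + k)‖ ^ 2 ≤ C * ∑ m ∈ Finset.range (M + K), ‖g m‖ ^ 2

/-! ### Piece TR2 (uses TR1St) -/
def TR2St : Prop :=
  ∀ (Ω : Type u) [MeasurableSpace Ω] (μ : Measure Ω) [IsProbabilityMeasure μ] (τ : Ω → Ω)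
    (_ : MeasurePreserving τ μ μ) (f : Ω → ℂ) (_ : MemLp f 2 μ) (J K : ℕ) (c : ℕ → ℕ → ℂ) (C : ℝ)
    (_ : ∀ θ : ℝ, ∑ j ∈ Finset.range J, ‖∑ k ∈ Finset.range K, c j k * e (k * θ)‖ ^ 2 ≤ C),
    ∑ j ∈ Finset.range J, ∫⁻ x, ‖∑ k ∈ Finset.range K, c j k * f (τ^[k] x)‖ₑ ^ 2 ∂μ
      ≤ ENNReal.ofReal C * ∫⁻ x, ‖f x‖ₑ ^ 2 ∂μ

end Pool.Agent.R204.DSQ
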