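import Mathlib
import Pool.Agent.R204.DSQ.Stm

/-! Assembly of the pieces for MP_d5c55f_an. -/

namespace Pool.Agent.R204.DSQ

open MeasureTheory Finset

universe u

theorem icc_ne (k : ℕ) : (Finset.Icc (2 ^ k) (2 ^ (k + 1))).Nonempty :=
  ⟨2 ^ k, by
    rw [Finset.mem_Icc]
    exact ⟨le_refl _, Nat.pow_le_pow_right (by norm_num) (by omega)⟩⟩

/-- dyadic oscillation -/
noncomputable def MM (θ : ℝ) (k : ℕ) : ℝ :=
  (Finset.Icc (2 ^ k) (2 ^ (k + 1))).sup' (icc_ne k) (fun n => ‖V θ n - V θ (2 ^ k)‖)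

theorem le_MM (θ : ℝ) (k n : ℕ) (h1 : 2 ^ k ≤ n) (h2 : n ≤ 2 ^ (k + 1)) :
    ‖V θ n - V θ (2 ^ k)‖ ≤ MM θ k :=
  Finset.le_sup' (fun n => ‖V θ n - V θ (2 ^ k)‖) (Finset.mem_Icc.2 ⟨h1, h2⟩)

theorem MM_le (θ : ℝ) (k : ℕ) (B : ℝ)
    (h : ∀ n, 2 ^ k ≤ n → n ≤ 2 ^ (k + 1) → ‖V θ n - V θ (2 ^ k)‖ ≤ B) : MM θ k ≤ B := by
  apply Finset.sup'_le
  intro n hn
  rw [Finset.mem_Icc] at hn
  exact h n hn.1 hn.2

theorem MM_nonneg (θ : ℝ) (k : ℕ) : 0 ≤ MM θ k :=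
  le_trans (norm_nonneg _) (le_MM θ k (2 ^ k) le_rfl (Nat.pow_le_pow_right (by norm_num) (by omega)))

theorem unif (hW : WSt) (hTV : TVSt) (hMin : MinSt) (hMaj : MajSt) (hSum : SumSt) (hComb : CombSt) :
    ∃ B : ℝ, 0 < B ∧ ∀ θ : ℝ, ∀ N : ℕ → ℕ, StrictMono N → 1 ≤ N 0 → ∀ J : ℕ,
      ∑ j ∈ Finset.range J, ‖V θ (N (j + 1)) - V θ (N j)‖ ^ 2 ≤ B := by
  obtain ⟨C1, hC1, h1⟩ := hMin
  obtain ⟨C2, hC2, h2⟩ := hMaj
  obtain ⟨C', hC', hS⟩ := hSum (2 + 2 * C1 + 3 * C2) (by positivity)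
  obtain ⟨B, hB, hc⟩ := hComb C' 8 hC' (by norm_num)
  refine ⟨B, hB, fun θ N hN hN0 J => ?_⟩
  refine hc (V θ) (MM θ) (MM_nonneg θ) (fun k n => le_MM θ k n) (hTV θ) ?_ N hN hN0 J
  refine hS θ (MM θ) (MM_nonneg θ) ?_ ?_ ?_
  · intro k
    refine MM_le θ k _ (fun n _ _ => ?_)
    have a1 := hW.2.2.2 θ n
    have a2 := hW.2.2.2 θ (2 ^ k)
    have := norm_sub_le (V θ n) (V θ (2 ^ k))
    linarith
  · intro k q a hq hqk hg hd
    have hpos : (0 : ℝ) < 2 ^ k := by positivity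
    have hq0 : (0 : ℝ) < q := by exact_mod_cast hq
    have hX0 : 0 ≤ 1 / (q : ℝ) + 1 / Real.sqrt (2 ^ k) + q / 2 ^ k := by positivity
    have hcast : ((2 ^ k : ℕ) : ℝ) = 2 ^ k := by push_cast; rfl
    have key : ∀ n : ℕ, 2 ^ k ≤ n → ‖V θ n‖ ≤ C1 * (1 / (q : ℝ) + 1 / Real.sqrt (2 ^ k) + q / 2 ^ k) := by
      intro n hn
      have hn1 : 1 ≤ n := le_trans Nat.one_le_two_pow hn
      have hnr : (2 : ℝ) ^ k ≤ n := by rw [← hcast]; exact_mod_cast hn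
      refine le_trans (h1 θ n q a hn1 hq (le_trans hqk hn) hg hd) ?_
      refine mul_le_mul_of_nonneg_left ?_ hC1.le
      have s1 : 1 / Real.sqrt n ≤ 1 / Real.sqrt (2 ^ k) :=
        one_div_le_one_div_of_le (Real.sqrt_pos.2 hpos) (Real.sqrt_le_sqrt hnr)
      have s2 : (q : ℝ) / n ≤ q / 2 ^ k := div_le_div_of_nonneg_left hq0.le hpos hnr
      linarith
    refine MM_le θ k _ (fun n hn _ => ?_)
    have b1 := key n hn
    have b2 := key (2 ^ k) le_rfl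
    have b3 := norm_sub_le (V θ n) (V θ (2 ^ k))
    have b4 : 2 * C1 * (1 / (q : ℝ) + 1 / Real.sqrt (2 ^ k) + q / 2 ^ k) ≤
        (2 + 2 * C1 + 3 * C2) * (1 / (q : ℝ) + 1 / Real.sqrt (2 ^ k) + q / 2 ^ k) :=
      mul_le_mul_of_nonneg_right (by linarith) hX0
    linarith
  · intro k q a hk hq hg h16 hb
    have hpos : (0 : ℝ) < 2 ^ k := by positivity
    have hq0 : (0 : ℝ) < q := by exact_mod_cast hq
    have hq1 : (1 : ℝ) ≤ q := by exact_mod_cast hq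
    have hk0 : (0 : ℝ) < k := by exact_mod_cast hk
    have hcast : ((2 ^ k : ℕ) : ℝ) = 2 ^ k := by push_cast; rfl
    have hlq : 0 ≤ Real.log q := Real.log_nonneg hq1
    have hab : 0 ≤ |θ - a / q| := abs_nonneg _
    have hl2 : (0.6931471803 : ℝ) < Real.log 2 := Real.log_two_gt_d9
    set X : ℝ := (1 + Real.log q) / (k : ℝ) ^ 2 with hX
    have hX0 : 0 ≤ X := by positivity
    have hY : (1 + Real.log q) / (Real.log ((2 ^ k : ℕ) : ℝ)) ^ 2 ≤ 3 * X := by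
      rw [hcast, Real.log_pow, hX]
      have e1 : ((k : ℝ) * Real.log 2) ^ 2 = (k : ℝ) ^ 2 * (Real.log 2) ^ 2 := by ring
      rw [e1, ← mul_div_assoc, div_le_div_iff₀ (by positivity) (by positivity)]
      have e2 : (1 : ℝ) ≤ 3 * (Real.log 2) ^ 2 := by nlinarith
      have e3 : 0 ≤ (1 + Real.log q) * (k : ℝ) ^ 2 := by positivity
      nlinarith [mul_le_mul_of_nonneg_left e2 e3]
    have hZ0 : 0 ≤ 1 / (q : ℝ) * (X + 2 ^ k * |θ - a / q|) + 1 / Real.sqrt (2 ^ k) := by positivity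
    refine MM_le θ k _ (fun n hn hn' => ?_)
    have c1 := h2 θ (2 ^ k) n q a hq hg h16 (by rw [hcast]; exact hb) hn (by rw [pow_succ] at hn'; omega)
    refine le_trans c1 ?_
    have c2 : C2 * (1 / (q : ℝ) * ((1 + Real.log q) / (Real.log ((2 ^ k : ℕ) : ℝ)) ^ 2
        + ((2 ^ k : ℕ) : ℝ) * |θ - a / q|) + 1 / Real.sqrt ((2 ^ k : ℕ) : ℝ)) ≤
        3 * C2 * (1 / (q : ℝ) * (X + 2 ^ k * |θ - a / q|) + 1 / Real.sqrt (2 ^ k)) := by
      rw [mul_comm 3 C2, mul_assoc]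
      refine mul_le_mul_of_nonneg_left ?_ hC2.le
      rw [hcast] at hY ⊢
      have d1 : 0 ≤ 2 ^ k * |θ - a / q| := by positivity
      have d2 : 0 ≤ 1 / Real.sqrt (2 ^ k) := by positivity
      have d3 : 1 / (q : ℝ) * ((1 + Real.log q) / (Real.log (2 ^ k)) ^ 2 + 2 ^ k * |θ - a / q|)
          ≤ 1 / (q : ℝ) * (3 * X + 3 * (2 ^ k * |θ - a / q|)) :=
        mul_le_mul_of_nonneg_left (by linarith) (by positivity)
      nlinarith
    refine le_trans c2 ?_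
    exact mul_le_mul_of_nonneg_right (by linarith) hZ0

/-- coefficients of one average -/
noncomputable def cf (n k : ℕ) : ℂ := if 1 ≤ k ∧ k ≤ n then (dv k : ℂ) / (W n : ℂ) else 0

theorem cf_sum (n K : ℕ) (h : n < K) (F : ℕ → ℂ) :
    ∑ k ∈ Finset.range K, cf n k * F k = (∑ k ∈ Finset.Icc 1 n, (dv k : ℂ) * F k) / (W n : ℂ) := by
  have h1 : ∀ k ∈ Finset.range K, cf n k * F k =
      if 1 ≤ k ∧ k ≤ n then (dv k : ℂ) / (W n : ℂ) * F k else 0 := by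
    intro k _
    unfold cf
    split_ifs <;> simp
  rw [Finset.sum_congr rfl h1, ← Finset.sum_filter]
  have h2 : (Finset.range K).filter (fun k => 1 ≤ k ∧ k ≤ n) = Finset.Icc 1 n := by
    ext k
    simp only [Finset.mem_filter, Finset.mem_range, Finset.mem_Icc]
    constructor
    · rintro ⟨_, h⟩
      exact h
    · rintro ⟨h3, h4⟩
      exact ⟨by omega, h3, h4⟩
  rw [h2, Finset.sum_div]
  refine Finset.sum_congr rfl (fun k _ => ?_)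
  ring

/-- divisor weighted average -/
noncomputable def Avg {Ω : Type u} (τ : Ω → Ω) (f : Ω → ℂ) (n : ℕ) (x : Ω) : ℂ :=
  (∑ k ∈ Finset.Icc 1 n, (dv k : ℂ) * f (τ^[k] x)) / (W n : ℂ)

theorem finite_bound (B : ℝ) (hT : TR2St.{u})
    (hU : ∀ θ : ℝ, ∀ N : ℕ → ℕ, StrictMono N → 1 ≤ N 0 → ∀ J : ℕ,
      ∑ j ∈ Finset.range J, ‖V θ (N (j + 1)) - V θ (N j)‖ ^ 2 ≤ B)
    (Ω : Type u) [MeasurableSpace Ω] (μ : Measure Ω) [IsProbabilityMeasure μ] (τ : Ω → Ω)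
    (hτ : MeasurePreserving τ μ μ) (N : ℕ → ℕ) (hN : StrictMono N) (hN0 : 1 ≤ N 0)
    (f : Ω → ℂ) (hf : MemLp f 2 μ) (J : ℕ) :
    ∑ j ∈ Finset.range J, ∫⁻ x, ‖Avg τ f (N (j + 1)) x - Avg τ f (N j) x‖ₑ ^ 2 ∂μ
      ≤ ENNReal.ofReal B * ∫⁻ x, ‖f x‖ₑ ^ 2 ∂μ := by
  have hlt : ∀ j ∈ Finset.range J, N j < N J + 1 ∧ N (j + 1) < N J + 1 := by
    intro j hj
    rw [Finset.mem_range] at hj
    have h1 := hN.monotone (show j ≤ J by omega)
    have h2 := hN.monotone (show j + 1 ≤ J by omega)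
    omega
  have hc : ∀ j ∈ Finset.range J, ∀ F : ℕ → ℂ,
      ∑ k ∈ Finset.range (N J + 1), (cf (N (j + 1)) k - cf (N j) k) * F k =
      (∑ k ∈ Finset.Icc 1 (N (j + 1)), (dv k : ℂ) * F k) / (W (N (j + 1)) : ℂ)
      - (∑ k ∈ Finset.Icc 1 (N j), (dv k : ℂ) * F k) / (W (N j) : ℂ) := by
    intro j hj F
    obtain ⟨h1, h2⟩ := hlt j hj
    rw [← cf_sum (N (j + 1)) (N J + 1) h2 F, ← cf_sum (N j) (N J + 1) h1 F, ← Finset.sum_sub_distrib]
    refine Finset.sum_congr rfl (fun k _ => ?_)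
    ring
  have hmain := hT Ω μ τ hτ f hf J (N J + 1) (fun j k => cf (N (j + 1)) k - cf (N j) k) B (by
    intro θ
    refine le_trans (le_of_eq ?_) (hU θ N hN hN0 J)
    refine Finset.sum_congr rfl (fun j hj => ?_)
    have := hc j hj (fun k => e (k * θ))
    rw [this]
    rfl)
  refine le_trans (le_of_eq ?_) hmain
  refine Finset.sum_congr rfl (fun j hj => ?_)
  refine lintegral_congr (fun x => ?_)
  have := hc j hj (fun k => f (τ^[k] x))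
  rw [this]
  rfl

theorem assembled (hW : WSt) (hTV : TVSt) (hMin : MinSt) (hMaj : MajSt) (hSum : SumSt)
    (hComb : CombSt) (hT : TR2St.{u}) :
    ∃ C : ℝ, 0 < C ∧ ∀ (Ω : Type u) [MeasurableSpace Ω] (μ : Measure Ω) [IsProbabilityMeasure μ]
      (τ : Ω → Ω) (_ : MeasurePreserving τ μ μ) (N : ℕ → ℕ) (_ : StrictMono N) (_ : 1 ≤ N 0)
      (f : Ω → ℂ) (_ : MemLp f 2 μ),
      ∫⁻ x, ∑' j : ℕ, ‖Avg τ f (N (j + 1)) x - Avg τ f (N j) x‖ₑ ^ 2 ∂μ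
        ≤ ENNReal.ofReal C * ∫⁻ x, ‖f x‖ₑ ^ 2 ∂μ := by
  obtain ⟨B, hB, hU⟩ := unif hW hTV hMin hMaj hSum hComb
  refine ⟨B, hB, ?_⟩
  intro Ω _ μ _ τ hτ N hN hN0 f hf
  have hmeas : ∀ n : ℕ, AEStronglyMeasurable (fun x => Avg τ f n x) μ := by
    intro n
    have h1 : ∀ k : ℕ, AEStronglyMeasurable (fun x => f (τ^[k] x)) μ := fun k =>
      hf.aestronglyMeasurable.comp_quasiMeasurePreserving (hτ.iterate k).quasiMeasurePreserving
    have h2 : AEStronglyMeasurable (fun x => ∑ k ∈ Finset.Icc 1 n, (dv k : ℂ) * f (τ^[k] x)) μ := by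
      refine Finset.aestronglyMeasurable_fun_sum _ (fun k _ => ?_)
      exact (h1 k).const_mul _
    have h3 : (fun x => Avg τ f n x) =
        fun x => (∑ k ∈ Finset.Icc 1 n, (dv k : ℂ) * f (τ^[k] x)) * (W n : ℂ)⁻¹ := by
      funext x
      unfold Avg
      rw [div_eq_mul_inv]
    rw [h3]
    exact h2.mul_const _
  rw [lintegral_tsum]
  · refine ENNReal.tsum_le_of_sum_range_le (fun J => ?_)
    exact finite_bound B hT hU Ω μ τ hτ N hN hN0 f hf J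
  · intro j
    exact (((hmeas (N (j + 1))).sub (hmeas (N j))).enorm).pow_const 2

end Pool.Agent.R204.DSQ
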