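import Mathlib
import Pool.Agent.R204.DSQ.Stm

/-!
# Piece ASY of project DSQ (MP_d5c55f_an): major arc asymptotics of `S`
-/

set_option autoImplicit false

namespace Pool.Agent.R204.DSQ

open MeasureTheory Finset

namespace AsyAux

theorem e_add_int (x : ℝ) (m : ℤ) : e (x + m) = e x := by
  unfold e
  have h : (2 * Real.pi * ((x + m : ℝ) : ℂ) * Complex.I : ℂ) =
      2 * Real.pi * (x : ℂ) * Complex.I + (m : ℂ) * (2 * Real.pi * Complex.I) := by
    push_cast; ring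
  rw [h, Complex.exp_add, Complex.exp_int_mul_two_pi_mul_I, mul_one]

theorem e_red (θ : ℝ) (q : ℕ) (a : ℤ) (hq : 1 ≤ q) (v w : ℕ) :
    e ((v : ℝ) * (((q * w : ℕ) : ℝ) * θ)) = e ((v : ℝ) * ((q : ℝ) * w * (θ - a / q))) := by
  have hq0 : (q : ℝ) ≠ 0 := by positivity
  have h : (v : ℝ) * (((q * w : ℕ) : ℝ) * θ) =
      (v : ℝ) * ((q : ℝ) * w * (θ - a / q)) + (((v : ℤ) * w * a : ℤ) : ℝ) := by
    push_cast
    field_simp
    ring
  rw [h, e_add_int]

theorem filter_dvd (s q : ℕ) (hq : 1 ≤ q) :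
    (Finset.Icc 1 s).filter (fun u => q ∣ u) = (Finset.Icc 1 (s / q)).image (fun w => q * w) := by
  ext u
  simp only [Finset.mem_filter, Finset.mem_Icc, Finset.mem_image]
  constructor
  · rintro ⟨⟨h1, h2⟩, w, rfl⟩
    refine ⟨w, ⟨?_, ?_⟩, rfl⟩
    · rcases Nat.eq_zero_or_pos w with h | h
      · subst h; simp at h1
      · exact h
    · exact (Nat.le_div_iff_mul_le hq).2 (by rw [mul_comm]; exact h2)
  · rintro ⟨w, ⟨h1, h2⟩, rfl⟩
    refine ⟨⟨Nat.mul_pos hq h1, ?_⟩, dvd_mul_right _ _⟩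
    have := (Nat.le_div_iff_mul_le hq).1 h2
    rw [mul_comm]; exact this

end AsyAux

open AsyAux

theorem asy_st (h1 : GeoSt) (h2 : HypSt) (h3 : NQSt) (h4 : QQSt) : AsySt := by
  obtain ⟨CN, hCN, hN⟩ := h3
  obtain ⟨CQ, hCQ, hQ⟩ := h4
  refine ⟨CQ + 6 * CN, by positivity, ?_⟩
  intro θ n q a hq hgcd hqn hβ
  have hq0 : (0 : ℝ) < q := by exact_mod_cast hq
  have hn1 : 1 ≤ n := by nlinarith [hq, Nat.one_le_pow 2 q hq]
  have hn0 : (0 : ℝ) < n := by exact_mod_cast hn1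
  set s := Nat.sqrt n with hs
  have hss : s * s ≤ n := Nat.sqrt_le n
  have hssR : (s : ℝ) * s ≤ n := by exact_mod_cast hss
  have hqnR : 16 * (q : ℝ) ^ 2 ≤ n := by exact_mod_cast hqn
  have hsqrt : (s : ℝ) ≤ Real.sqrt n := Real.le_sqrt_of_sq_le (by rw [sq]; exact hssR)
  have hqsqrt : 4 * (q : ℝ) ≤ Real.sqrt n := Real.le_sqrt_of_sq_le (by nlinarith)
  have hlogq : 0 ≤ Real.log q := Real.log_nonneg (by exact_mod_cast hq)
  have hlogn : 0 ≤ Real.log n := Real.log_nonneg (by exact_mod_cast hn1)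
  set β := θ - a / q with hβdef
  have hsβ : (s : ℝ) * |θ - a / q| ≤ 1 / (2 * q) := by
    rw [le_div_iff₀ (by positivity)]
    have hA : 0 ≤ |θ - a / q| := abs_nonneg _
    have h4qs : 4 * (q : ℝ) * s ≤ n := by
      have : 4 * (q : ℝ) * s ≤ Real.sqrt n * Real.sqrt n :=
        mul_le_mul hqsqrt hsqrt (by positivity) (by positivity)
      rwa [Real.mul_self_sqrt hn0.le] at this
    have h5 : 4 * (q : ℝ) * s * |θ - a / q| ≤ n * |θ - a / q| := mul_le_mul_of_nonneg_right h4qs hA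
    nlinarith
  obtain ⟨hN1, hN2⟩ := hN θ q s a hq hgcd hsβ
  have hQ' := hQ β n q hq hqn hβ
  let F : ℕ → ℂ := fun u => 2 * ∑ v ∈ Finset.Icc 1 (n / u), e (v * (u * θ)) -
    ∑ v ∈ Finset.Icc 1 s, e (v * (u * θ))
  have hSF : S θ n = ∑ u ∈ Finset.Icc 1 s, F u := by
    rw [h2 θ n]
    simp only [F]
    rw [Finset.sum_sub_distrib, ← Finset.mul_sum]
  have hsplit : ∑ u ∈ Finset.Icc 1 s, F u = ∑ u ∈ (Finset.Icc 1 s).filter (fun u => q ∣ u), F u +
      ∑ u ∈ (Finset.Icc 1 s).filter (fun u => ¬ q ∣ u), F u :=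
    (Finset.sum_filter_add_sum_filter_not _ _ _).symm
  have hdiv : ∑ u ∈ (Finset.Icc 1 s).filter (fun u => q ∣ u), F u =
      2 * ∑ w ∈ Finset.Icc 1 (s / q), ∑ v ∈ Finset.Icc 1 (n / (q * w)), e (v * (q * w * β))
      - ∑ w ∈ Finset.Icc 1 (s / q), ∑ v ∈ Finset.Icc 1 s, e (v * (q * w * β)) := by
    rw [filter_dvd s q hq, Finset.sum_image (fun x _ y _ h => Nat.eq_of_mul_eq_mul_left hq h)]
    simp only [F]
    rw [Finset.sum_sub_distrib, ← Finset.mul_sum]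
    congr 1
    · congr 1
      refine Finset.sum_congr rfl fun w _ => Finset.sum_congr rfl fun v _ => ?_
      exact e_red θ q a hq v w
    · refine Finset.sum_congr rfl fun w _ => Finset.sum_congr rfl fun v _ => ?_
      exact e_red θ q a hq v w
  have hnd : ‖∑ u ∈ (Finset.Icc 1 s).filter (fun u => ¬ q ∣ u), F u‖ ≤
      6 * CN * (Real.sqrt n * (1 + Real.log q)) := by
    have hF : ∀ u ∈ (Finset.Icc 1 s).filter (fun u => ¬ q ∣ u), ‖F u‖ ≤ 3 * (1 / (2 * dist1 (u * θ))) := by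
      intro u hu
      obtain ⟨hu1, hu2⟩ := Finset.mem_filter.1 hu
      have hd := hN1 u hu1 hu2
      have g1 := h1.2 (u * θ) (n / u) hd
      have g2 := h1.2 (u * θ) s hd
      simp only [F]
      calc ‖2 * ∑ v ∈ Finset.Icc 1 (n / u), e (v * (u * θ)) - ∑ v ∈ Finset.Icc 1 s, e (v * (u * θ))‖
          ≤ ‖2 * ∑ v ∈ Finset.Icc 1 (n / u), e (v * (u * θ))‖ + ‖∑ v ∈ Finset.Icc 1 s, e (v * (u * θ))‖ :=
            norm_sub_le _ _
        _ = 2 * ‖∑ v ∈ Finset.Icc 1 (n / u), e (v * (u * θ))‖ + ‖∑ v ∈ Finset.Icc 1 s, e (v * (u * θ))‖ := by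
            rw [norm_mul]; norm_num
        _ ≤ 3 * (1 / (2 * dist1 (u * θ))) := by linarith
    calc ‖∑ u ∈ (Finset.Icc 1 s).filter (fun u => ¬ q ∣ u), F u‖
        ≤ ∑ u ∈ (Finset.Icc 1 s).filter (fun u => ¬ q ∣ u), 3 * (1 / (2 * dist1 (u * θ))) :=
          norm_sum_le_of_le _ hF
      _ = 3 * ∑ u ∈ (Finset.Icc 1 s).filter (fun u => ¬ q ∣ u), 1 / (2 * dist1 (u * θ)) := by
          rw [Finset.mul_sum]
      _ ≤ 3 * (CN * (s + q) * (1 + Real.log q)) := by linarith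
      _ ≤ 6 * CN * (Real.sqrt n * (1 + Real.log q)) := by
          have : (s : ℝ) + q ≤ 2 * Real.sqrt n := by linarith
          have h6 : CN * ((s : ℝ) + q) * (1 + Real.log q) ≤ CN * (2 * Real.sqrt n) * (1 + Real.log q) :=
            mul_le_mul_of_nonneg_right (mul_le_mul_of_nonneg_left this hCN.le) (by linarith)
          linarith
  set M : ℂ := (((n : ℝ) / q * (Real.log n - 2 * Real.log q + 2 * Real.eulerMascheroniConstant - 1) : ℝ) : ℂ) with hM
  have hexp : S θ n - M = (∑ u ∈ (Finset.Icc 1 s).filter (fun u => q ∣ u), F u - M) +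
      ∑ u ∈ (Finset.Icc 1 s).filter (fun u => ¬ q ∣ u), F u := by
    rw [hSF, hsplit]; ring
  rw [hexp]
  refine (norm_add_le _ _).trans ?_
  rw [hdiv]
  have hT : 0 ≤ (n : ℝ) / q * (n * |θ - a / q|) * (1 + Real.log n) := by positivity
  have hsq : Real.sqrt n ≤ Real.sqrt n * (1 + Real.log q) := by
    nlinarith [Real.sqrt_nonneg (n : ℝ)]
  have h7 : CQ * (Real.sqrt n + (n : ℝ) / q * (n * |θ - a / q|) * (1 + Real.log n)) ≤
      CQ * (Real.sqrt n * (1 + Real.log q) + (n : ℝ) / q * (n * |θ - a / q|) * (1 + Real.log n)) :=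
    mul_le_mul_of_nonneg_left (by linarith) hCQ.le
  have h8 : 0 ≤ 6 * CN * ((n : ℝ) / q * (n * |θ - a / q|) * (1 + Real.log n)) := by positivity
  calc _ ≤ CQ * (Real.sqrt n + (n : ℝ) / q * (n * |θ - a / q|) * (1 + Real.log n)) +
        6 * CN * (Real.sqrt n * (1 + Real.log q)) := add_le_add hQ' hnd
    _ ≤ _ := by nlinarith

end Pool.Agent.R204.DSQ
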