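import Mathlib
import Pool.Agent.R204.DSQ.Stm

namespace Pool.Agent.R204.DSQ

namespace Ba1Aux

theorem dist1_le (x : ℝ) (z : ℤ) : dist1 x ≤ |x - z| := round_le x z

/-- the distance for a difference of two denominators -/
theorem dist1_sub {θ : ℝ} {q r : ℕ} (h : r ≤ q) :
    dist1 (((q - r : ℕ) : ℝ) * θ) ≤
      |((q : ℝ) * θ - round ((q : ℝ) * θ)) - ((r : ℝ) * θ - round ((r : ℝ) * θ))| := by
  have h1 := dist1_le (((q - r : ℕ) : ℝ) * θ) (round ((q : ℝ) * θ) - round ((r : ℝ) * θ))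
  have h2 : ((q - r : ℕ) : ℝ) * θ - ((round ((q : ℝ) * θ) - round ((r : ℝ) * θ) : ℤ) : ℝ) =
      ((q : ℝ) * θ - round ((q : ℝ) * θ)) - ((r : ℝ) * θ - round ((r : ℝ) * θ)) := by
    push_cast [Nat.cast_sub h]
    ring
  rwa [h2] at h1

theorem abs_sub_le {x y : ℝ} (h : |y| ≤ |x|) (hs : 0 ≤ x * y) : |y - x| ≤ |x| := by
  rcases le_total 0 x with hx | hx
  · rw [abs_of_nonneg hx] at h ⊢
    rcases hx.eq_or_lt with hx0 | hx0
    · rw [← hx0] at h ⊢
      have : y = 0 := abs_nonpos_iff.mp h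
      rw [this]; simp
    · have hy : 0 ≤ y := nonneg_of_mul_nonneg_right hs hx0
      rw [abs_of_nonneg hy] at h
      rw [abs_le]
      constructor <;> linarith
  · rw [abs_of_nonpos hx] at h ⊢
    rcases hx.eq_or_lt with hx0 | hx0
    · rw [hx0] at h ⊢
      have : y = 0 := abs_nonpos_iff.mp (by simpa using h)
      rw [this]; simp
    · have hy : y ≤ 0 := by
        by_contra hc
        push Not at hc
        nlinarith
      rw [abs_of_nonpos hy] at h
      rw [abs_le]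
      constructor <;> linarith

theorem contra {θ : ℝ} {q r : ℕ} (hq : Best θ q) (h1 : q < r) (h2 : r < 2 * q)
    (hd : dist1 (r * θ) ≤ dist1 (q * θ))
    (hs : 0 ≤ ((q : ℝ) * θ - round ((q : ℝ) * θ)) * ((r : ℝ) * θ - round ((r : ℝ) * θ))) :
    False := by
  have h3 := hq.2 (r - q) (by omega) (by omega)
  have h4 := dist1_sub (θ := θ) h1.le
  have h5 := abs_sub_le (x := (q : ℝ) * θ - round ((q : ℝ) * θ))
    (y := (r : ℝ) * θ - round ((r : ℝ) * θ)) hd hs
  have h6 := h4.trans h5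
  exact absurd h3 (not_lt.mpr h6)

theorem no3 {θ : ℝ} {a b c : ℕ} (ha : Best θ a) (hb : Best θ b) (hc : Best θ c) (hab : a < b)
    (hbc : b < c) : 2 * a ≤ c := by
  by_contra hcon
  push Not at hcon
  have d1 : dist1 (b * θ) ≤ dist1 (a * θ) := (hb.2 a ha.1 hab).le
  have d2 : dist1 (c * θ) ≤ dist1 (b * θ) := (hc.2 b hb.1 hbc).le
  by_cases h1 : 0 ≤ ((a : ℝ) * θ - round ((a : ℝ) * θ)) * ((b : ℝ) * θ - round ((b : ℝ) * θ))
  · exact contra ha hab (by omega) d1 h1
  by_cases h2 : 0 ≤ ((b : ℝ) * θ - round ((b : ℝ) * θ)) * ((c : ℝ) * θ - round ((c : ℝ) * θ))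
  · exact contra hb hbc (by omega) d2 h2
  refine contra ha (hab.trans hbc) hcon (d2.trans d1) ?_
  push Not at h1 h2
  have h3 := mul_pos_of_neg_of_neg h1 h2
  generalize (a : ℝ) * θ - round ((a : ℝ) * θ) = x at h1 h3 ⊢
  generalize (b : ℝ) * θ - round ((b : ℝ) * θ) = y at h1 h2 h3
  generalize (c : ℝ) * θ - round ((c : ℝ) * θ) = z at h2 h3 ⊢
  by_contra hc
  push Not at hc
  nlinarith [mul_nonneg_of_nonpos_of_nonpos hc.le (neg_nonpos.mpr (mul_self_nonneg y))]

end Ba1Aux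

open Ba1Aux in
theorem ba1_st : BA1St := by
  intro θ Q hQ
  obtain ⟨N, hN⟩ : ∃ N : ℕ, ∀ q ∈ Q, Nat.log 2 q < N := by
    refine ⟨Q.sup (fun q => Nat.log 2 q) + 1, fun q hq => ?_⟩
    exact Nat.lt_succ_of_le (Finset.le_sup (f := fun q => Nat.log 2 q) hq)
  have hmaps : ∀ q ∈ Q, Nat.log 2 q ∈ Finset.range N := fun q hq => Finset.mem_range.mpr (hN q hq)
  rw [← Finset.sum_fiberwise_of_maps_to hmaps]
  have hfib : ∀ i ∈ Finset.range N, ∑ q ∈ Q with Nat.log 2 q = i, 1 / (q : ℝ) ≤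
      2 * (1 / 2 : ℝ) ^ i := by
    intro i _
    have hmem : ∀ q ∈ Q.filter (fun q => Nat.log 2 q = i), Best θ q ∧ 2 ^ i ≤ q ∧ q < 2 ^ (i + 1) := by
      intro q hq
      obtain ⟨h1, h2⟩ := Finset.mem_filter.mp hq
      have hb := hQ q h1
      have hq0 : q ≠ 0 := by
        have := hb.1
        omega
      have := (Nat.log_eq_iff (b := 2) (m := i) (n := q) (Or.inr ⟨by norm_num, hq0⟩)).mp h2
      exact ⟨hb, this.1, this.2⟩
    have hcard : (Q.filter (fun q => Nat.log 2 q = i)).card ≤ 2 := by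
      by_contra hcon
      push Not at hcon
      obtain ⟨a, ha, b, hb, c, hc, hab, hac, hbc⟩ := Finset.two_lt_card.mp hcon
      have key : ∀ x y z : ℕ, x ∈ Q.filter (fun q => Nat.log 2 q = i) →
          y ∈ Q.filter (fun q => Nat.log 2 q = i) → z ∈ Q.filter (fun q => Nat.log 2 q = i) →
          x < y → y < z → False := by
        intro x y z hx hy hz hxy hyz
        obtain ⟨bx, hx1, hx2⟩ := hmem x hx
        obtain ⟨bY, hy1, hy2⟩ := hmem y hy
        obtain ⟨bz, hz1, hz2⟩ := hmem z hz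
        have h1 := no3 bx bY bz hxy hyz
        have h2 : 2 ^ (i + 1) = 2 * 2 ^ i := by ring
        omega
      rcases lt_or_gt_of_ne hab with h1 | h1 <;> rcases lt_or_gt_of_ne hac with h2 | h2 <;>
        rcases lt_or_gt_of_ne hbc with h3 | h3
      · exact key a b c ha hb hc h1 h3
      · exact key a c b ha hc hb h2 h3
      · omega
      · exact key c a b hc ha hb h2 h1
      · exact key b a c hb ha hc h1 h2
      · omega
      · exact key b c a hb hc ha h3 h2
      · exact key c b a hc hb ha h3 h1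
    have h1 : ∑ q ∈ Q with Nat.log 2 q = i, 1 / (q : ℝ) ≤
        ∑ q ∈ Q with Nat.log 2 q = i, (1 / 2 : ℝ) ^ i := by
      apply Finset.sum_le_sum
      intro q hq
      obtain ⟨_, h2, _⟩ := hmem q hq
      have h3 : ((2 : ℝ) ^ i) ≤ q := by exact_mod_cast h2
      rw [div_pow, one_pow]
      exact one_div_le_one_div_of_le (by positivity) h3
    refine h1.trans ?_
    rw [Finset.sum_const, nsmul_eq_mul]
    apply mul_le_mul_of_nonneg_right _ (by positivity)
    exact_mod_cast hcard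
  refine (Finset.sum_le_sum hfib).trans ?_
  rw [← Finset.mul_sum]
  have h1 : ∑ i ∈ Finset.range N, (1 / 2 : ℝ) ^ i ≤ 2 := by
    have h2 := Summable.sum_le_tsum (Finset.range N) (fun i _ => by positivity)
      (summable_geometric_of_lt_one (r := (1 / 2 : ℝ)) (by norm_num) (by norm_num))
    rw [tsum_geometric_of_lt_one (by norm_num) (by norm_num)] at h2
    norm_num at h2
    simpa using h2
  linarith

end Pool.Agent.R204.DSQ
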