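import Mathlib
import Pool.Agent.R204.DSQ.Stm

/-!
Piece BA2: Dirichlet's theorem and minimal denominators.
-/

set_option autoImplicit false
set_option linter.all false

namespace Pool.Agent.R204.DSQ

theorem ba2_st : BA2St := by
  intro θ δ hδ hδ1
  have hn : 0 < ⌊1 / δ⌋₊ := by
    rw [Nat.floor_pos]
    rw [le_div_iff₀ hδ]
    linarith
  obtain ⟨k, hk0, hkn, hk⟩ := Real.exists_nat_abs_mul_sub_round_le θ hn
  have hkd : (k : ℝ) * δ ≤ 1 := by
    have h1 : (k : ℝ) ≤ 1 / δ := by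
      have h2 : (k : ℝ) ≤ (⌊1 / δ⌋₊ : ℝ) := by exact_mod_cast hkn
      exact h2.trans (Nat.floor_le (by positivity))
    rwa [le_div_iff₀ hδ] at h1
  have hk' : dist1 (k * θ) ≤ δ := by
    unfold dist1
    refine hk.trans ?_
    have h1 : 1 / δ < (⌊1 / δ⌋₊ : ℝ) + 1 := Nat.lt_floor_add_one _
    rw [div_lt_iff₀ hδ] at h1
    rw [div_le_iff₀ (by positivity)]
    linarith
  have hex : ∃ r : ℕ, 1 ≤ r ∧ dist1 (r * θ) ≤ δ := ⟨k, hk0, hk'⟩
  classical
  obtain ⟨hq1, hqd⟩ := Nat.find_spec hex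
  have hmin : ∀ r : ℕ, 1 ≤ r → r < Nat.find hex → δ < dist1 (r * θ) := by
    intro r hr hrq
    have h1 := Nat.find_min hex hrq
    by_contra h2
    exact h1 ⟨hr, not_lt.1 h2⟩
  have hqk : Nat.find hex ≤ k := Nat.find_min' hex ⟨hk0, hk'⟩
  generalize Nat.find hex = q at hq1 hqd hmin hqk
  have hq0 : (0 : ℝ) < q := by exact_mod_cast hq1
  refine ⟨q, hq1, ?_, hqd, hmin, ?_, ?_⟩
  · have h1 : (q : ℝ) ≤ k := by exact_mod_cast hqk
    exact (mul_le_mul_of_nonneg_right h1 hδ.le).trans hkd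
  · by_contra hg
    set a : ℤ := round ((q : ℝ) * θ) with ha
    set g : ℕ := Int.gcd a q with hgd
    have hg0 : g ≠ 0 := by
      intro h
      rw [hgd, Int.gcd_eq_zero_iff] at h
      have h1 : (q : ℤ) = 0 := h.2
      have h2 : q = 0 := by exact_mod_cast h1
      omega
    have hg2 : 2 ≤ g := by omega
    obtain ⟨a', ha'⟩ : (g : ℤ) ∣ a := Int.gcd_dvd_left ..
    obtain ⟨q', hq'⟩ : g ∣ q := by
      have h1 : (g : ℤ) ∣ (q : ℤ) := Int.gcd_dvd_right ..
      exact_mod_cast h1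
    have hq'1 : 1 ≤ q' := by
      rcases Nat.eq_zero_or_pos q' with h | h
      · rw [h, mul_zero] at hq'
        omega
      · exact h
    have hq'q : q' < q := by
      rw [hq']
      nlinarith
    have h3 := hmin q' hq'1 hq'q
    have h4 : dist1 (q' * θ) ≤ |(q' : ℝ) * θ - (a' : ℤ)| := by
      unfold dist1
      exact round_le _ _
    have hgR : (2 : ℝ) ≤ g := by exact_mod_cast hg2
    have h5 : dist1 (q * θ) = g * |(q' : ℝ) * θ - (a' : ℤ)| := by
      unfold dist1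
      rw [← ha, ha']
      have h6 : (q : ℝ) = g * q' := by
        conv_lhs => rw [hq']
        push_cast
        ring
      rw [h6]
      have h7 : (g : ℝ) * q' * θ - (((g : ℤ) * a' : ℤ) : ℝ) = g * ((q' : ℝ) * θ - (a' : ℤ)) := by
        push_cast
        ring
      rw [h7, abs_mul, abs_of_nonneg (by linarith : (0 : ℝ) ≤ g)]
    have h8 : 0 ≤ |(q' : ℝ) * θ - (a' : ℤ)| := abs_nonneg _
    nlinarith
  · unfold dist1
    have h1 : θ - (round ((q : ℝ) * θ) : ℤ) / (q : ℝ) =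
        ((q : ℝ) * θ - (round ((q : ℝ) * θ) : ℤ)) / q := by
      field_simp
    rw [h1, abs_div, abs_of_pos hq0]

end Pool.Agent.R204.DSQ
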