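import Mathlib
import Pool.Agent.R204.DSQ.Stm

namespace Pool.Agent.R204.DSQ

open Classical in
theorem ba3_st : BA3St := by
  intro θ q hq hδ
  obtain ⟨δ, hδe⟩ : ∃ δ, δ = dist1 ((q : ℝ) * θ) := ⟨_, rfl⟩
  rw [← hδe] at hδ ⊢
  have hdl : ∀ (x : ℝ) (z : ℤ), dist1 x ≤ |x - z| := fun x z => round_le x z
  have hδ2 : δ ≤ 1 / 2 := by
    rw [hδe]
    exact abs_sub_round _
  have h1δ : 1 ≤ 1 / δ := by
    rw [le_div_iff₀ hδ]
    linarith
  -- Dirichlet
  have hn : 0 < ⌊1 / δ⌋₊ := Nat.floor_pos.mpr h1δ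
  obtain ⟨r, hr0, hrn, hr⟩ := Real.exists_nat_abs_mul_sub_round_le θ hn
  have hfl : (⌊1 / δ⌋₊ : ℝ) ≤ 1 / δ := Nat.floor_le (by positivity)
  have hfl2 : 1 / δ < ⌊1 / δ⌋₊ + 1 := Nat.lt_floor_add_one _
  have hr' : dist1 ((r : ℝ) * θ) < δ := by
    refine lt_of_le_of_lt hr ?_
    rw [div_lt_iff₀ (by positivity)]
    rw [div_lt_iff₀ hδ] at hfl2
    linarith
  have hex : ∃ s : ℕ, 1 ≤ s ∧ dist1 ((s : ℝ) * θ) < δ := ⟨r, hr0, hr'⟩
  obtain ⟨p, hp⟩ : ∃ p, p = Nat.find hex := ⟨_, rfl⟩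
  have hp1 : 1 ≤ p := by rw [hp]; exact (Nat.find_spec hex).1
  have hpd : dist1 ((p : ℝ) * θ) < δ := by rw [hp]; exact (Nat.find_spec hex).2
  have hmin : ∀ s : ℕ, 1 ≤ s → s < p → δ ≤ dist1 ((s : ℝ) * θ) := by
    intro s hs hsp
    by_contra hcon
    push Not at hcon
    rw [hp] at hsp
    exact Nat.find_min hex hsp ⟨hs, hcon⟩
  have hpr : p ≤ r := by
    rw [hp]
    exact Nat.find_min' hex ⟨hr0, hr'⟩
  have hpδ : (p : ℝ) * δ ≤ 1 := by
    have h2 : (p : ℝ) ≤ 1 / δ := by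
      have : (p : ℝ) ≤ (⌊1 / δ⌋₊ : ℝ) := by exact_mod_cast hpr.trans hrn
      linarith
    rwa [le_div_iff₀ hδ] at h2
  have hqp : q < p := by
    by_contra hcon
    push Not at hcon
    rcases hcon.eq_or_lt with h2 | h2
    · rw [h2, ← hδe] at hpd
      exact lt_irrefl _ hpd
    · have h3 := hq.2 p hp1 h2
      rw [← hδe] at h3
      linarith
  have hp0 : (0 : ℝ) < p := by exact_mod_cast hp1
  -- coprimality
  have hgcd : Int.gcd (round ((p : ℝ) * θ)) p = 1 := by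
    by_contra hg
    obtain ⟨g, hge⟩ : ∃ g, g = Int.gcd (round ((p : ℝ) * θ)) p := ⟨_, rfl⟩
    rw [← hge] at hg
    have hgp : (g : ℤ) ∣ (p : ℤ) := by rw [hge]; exact Int.gcd_dvd_right _ _
    have hga : (g : ℤ) ∣ round ((p : ℝ) * θ) := by rw [hge]; exact Int.gcd_dvd_left _ _
    have hgp' : g ∣ p := by exact_mod_cast hgp
    obtain ⟨s, hs⟩ := hgp'
    obtain ⟨b, hb⟩ := hga
    have hg0 : g ≠ 0 := by
      rintro rfl
      rw [zero_mul] at hs
      omega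
    have hg2 : 2 ≤ g := by omega
    have hs1 : 1 ≤ s := by
      rcases Nat.eq_zero_or_pos s with h | h
      · rw [h, mul_zero] at hs
        omega
      · exact h
    have hsp : s < p := by
      rw [hs]
      nlinarith
    have h2 := hmin s hs1 hsp
    have h3 := hdl ((s : ℝ) * θ) b
    have h4 : (g : ℝ) * |(s : ℝ) * θ - b| = dist1 ((p : ℝ) * θ) := by
      unfold dist1
      rw [hb]
      have h5 : (g : ℝ) = |(g : ℝ)| := (abs_of_nonneg (Nat.cast_nonneg g)).symm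
      rw [h5, ← abs_mul]
      congr 1
      rw [hs]
      push_cast
      ring
    have h5 : (2 : ℝ) ≤ g := by exact_mod_cast hg2
    nlinarith [abs_nonneg ((s : ℝ) * θ - b)]
  refine ⟨p, round ((p : ℝ) * θ), hp1, hgcd, hpδ, ?_, ?_⟩
  · -- determinant
    have hne : round ((q : ℝ) * θ) * (p : ℤ) - round ((p : ℝ) * θ) * (q : ℤ) ≠ 0 := by
      intro h0
      have h1 : (p : ℤ) ∣ round ((p : ℝ) * θ) * (q : ℤ) :=
        ⟨round ((q : ℝ) * θ), by linarith⟩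
      have hcop : IsCoprime (p : ℤ) (round ((p : ℝ) * θ)) := by
        rw [isCoprime_comm, Int.isCoprime_iff_gcd_eq_one]
        exact hgcd
      have h2 : (p : ℤ) ∣ (q : ℤ) := hcop.dvd_of_dvd_mul_left h1
      have h3 : p ∣ q := by exact_mod_cast h2
      have h4 := Nat.le_of_dvd (by have := hq.1; omega) h3
      omega
    have h1 : (1 : ℝ) ≤ |((round ((q : ℝ) * θ) * (p : ℤ) - round ((p : ℝ) * θ) * (q : ℤ) : ℤ) : ℝ)| := by
      rw [← Int.cast_abs]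
      exact_mod_cast Int.one_le_abs hne
    have h2 : ((round ((q : ℝ) * θ) * (p : ℤ) - round ((p : ℝ) * θ) * (q : ℤ) : ℤ) : ℝ) =
        (q : ℝ) * ((p : ℝ) * θ - round ((p : ℝ) * θ)) - (p : ℝ) * ((q : ℝ) * θ - round ((q : ℝ) * θ)) := by
      push_cast
      ring
    rw [h2] at h1
    have h3 := abs_sub ((q : ℝ) * ((p : ℝ) * θ - round ((p : ℝ) * θ)))
      ((p : ℝ) * ((q : ℝ) * θ - round ((q : ℝ) * θ)))
    rw [abs_mul, abs_mul, abs_of_nonneg (show (0 : ℝ) ≤ (q : ℝ) from Nat.cast_nonneg q),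
      abs_of_nonneg hp0.le] at h3
    have h4 : |(q : ℝ) * θ - round ((q : ℝ) * θ)| = δ := hδe.symm
    have h5 : |(p : ℝ) * θ - round ((p : ℝ) * θ)| < δ := hpd
    rw [h4] at h3
    have h6 : (q : ℝ) ≤ p := by exact_mod_cast hqp.le
    have h7 : (q : ℝ) * |(p : ℝ) * θ - round ((p : ℝ) * θ)| ≤ (p : ℝ) * δ :=
      mul_le_mul h6 h5.le (abs_nonneg _) hp0.le
    linarith
  · have h1 : θ - (round ((p : ℝ) * θ) : ℝ) / p = ((p : ℝ) * θ - round ((p : ℝ) * θ)) / p := by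
      field_simp
    rw [h1, abs_div, abs_of_pos hp0, div_le_div_iff₀ hp0 (by positivity)]
    have h5 : |(p : ℝ) * θ - round ((p : ℝ) * θ)| < δ := hpd
    nlinarith

end Pool.Agent.R204.DSQ
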