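import Mathlib
import Pool.Agent.R204.DSQ.Stm

set_option autoImplicit false

namespace Pool.Agent.R204.DSQ

open Finset

theorem comb_st : CombSt := by
  intro C D hC hD
  refine ⟨2 * C * D + 12 * C ^ 2, by positivity, ?_⟩
  intro g M h0 h1 h2 h3 N hN hN0 J
  have hMC : ∀ k, M k ≤ C := by
    intro k
    have h := h3 (k + 1)
    have h' : M k ≤ ∑ i ∈ Finset.range (k + 1), M i :=
      Finset.single_le_sum (f := M) (fun i _ => h0 i) (Finset.mem_range.2 (Nat.lt_succ_self k))
    linarith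
  set d : ℕ → ℝ := fun i => ‖g (i + 1) - g i‖ with hd
  have hd0 : ∀ i, 0 ≤ d i := fun i => norm_nonneg _
  set A : ℕ → ℝ := fun i => 2 * M (Nat.log 2 i) * d i with hA
  have hA0 : ∀ i, 0 ≤ A i := fun i => mul_nonneg (mul_nonneg (by norm_num) (h0 _)) (hd0 i)
  set E : ℕ → ℝ := fun i => M i + M (i + 1) with hE
  have hE0 : ∀ i, 0 ≤ E i := fun i => add_nonneg (h0 _) (h0 _)
  set Φ : ℕ → ℝ := fun n => ∑ i ∈ Finset.Ico 1 n, A i +
    6 * C * ∑ i ∈ Finset.Ico 0 (Nat.log 2 n), E i with hΦ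
  -- the key inequality
  have key : ∀ m n : ℕ, 1 ≤ m → m ≤ n → ‖g n - g m‖ ^ 2 ≤ Φ n - Φ m := by
    intro m n hm hmn
    set k := Nat.log 2 m with hk
    set l := Nat.log 2 n with hl
    have hkl : k ≤ l := Nat.log_mono_right hmn
    have hdiff : Φ n - Φ m = ∑ i ∈ Finset.Ico m n, A i + 6 * C * ∑ i ∈ Finset.Ico k l, E i := by
      have e1 := Finset.sum_Ico_consecutive A hm hmn
      have e2 := Finset.sum_Ico_consecutive E (Nat.zero_le k) hkl
      simp only [hΦ]
      rw [← e1, ← e2]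
      ring
    rw [hdiff]
    have hm1 : 2 ^ k ≤ m := Nat.pow_log_le_self 2 (by omega)
    have hm2 : m < 2 ^ (k + 1) := Nat.lt_pow_succ_log_self (by norm_num) m
    have hn1 : 2 ^ l ≤ n := Nat.pow_log_le_self 2 (by omega)
    have hn2 : n < 2 ^ (l + 1) := Nat.lt_pow_succ_log_self (by norm_num) n
    have a1 : ‖g m - g (2 ^ k)‖ ≤ M k := h1 k m hm1 hm2.le
    have a2 : ‖g n - g (2 ^ l)‖ ≤ M l := h1 l n hn1 hn2.le
    have hS1 : 0 ≤ ∑ i ∈ Finset.Ico m n, A i := Finset.sum_nonneg fun i _ => hA0 i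
    have hS2 : 0 ≤ ∑ i ∈ Finset.Ico k l, E i := Finset.sum_nonneg fun i _ => hE0 i
    rcases Nat.eq_or_lt_of_le hkl with hkl' | hkl'
    · -- same block
      have b1 : ‖g n - g m‖ ≤ 2 * M k := by
        have e3 : g n - g m = (g n - g (2 ^ l)) - (g m - g (2 ^ k)) := by
          rw [← hkl']; ring
        rw [e3]
        refine (norm_sub_le _ _).trans ?_
        rw [← hkl'] at a2 ⊢
        linarith
      have b2 : ‖g n - g m‖ ≤ ∑ i ∈ Finset.Ico m n, d i := by
        have := dist_le_Ico_sum_dist g hmn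
        rw [dist_eq_norm, norm_sub_rev] at this
        refine this.trans (le_of_eq ?_)
        refine Finset.sum_congr rfl fun i _ => ?_
        rw [dist_eq_norm, norm_sub_rev]
      have b3 : ∑ i ∈ Finset.Ico m n, A i = 2 * M k * ∑ i ∈ Finset.Ico m n, d i := by
        rw [Finset.mul_sum]
        refine Finset.sum_congr rfl fun i hi => ?_
        rw [Finset.mem_Ico] at hi
        have e4 : Nat.log 2 i = k := by
          have f1 : k ≤ Nat.log 2 i := Nat.log_mono_right hi.1
          have f2 : Nat.log 2 i ≤ l := Nat.log_mono_right hi.2.le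
          omega
        simp only [hA, e4]
      have b4 : ‖g n - g m‖ ^ 2 ≤ 2 * M k * ∑ i ∈ Finset.Ico m n, d i := by
        rw [pow_two]
        exact mul_le_mul b1 b2 (norm_nonneg _) (mul_nonneg (by norm_num) (h0 _))
      rw [b3]
      have : 0 ≤ 6 * C * ∑ i ∈ Finset.Ico k l, E i := by positivity
      linarith
    · -- different blocks
      have c1 : ‖g (2 ^ l) - g (2 ^ k)‖ ≤ ∑ i ∈ Finset.Ico k l, M i := by
        have := dist_le_Ico_sum_dist (fun i => g (2 ^ i)) hkl
        simp only [dist_eq_norm] at this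
        rw [norm_sub_rev] at this
        refine this.trans (Finset.sum_le_sum fun i _ => ?_)
        rw [norm_sub_rev]
        exact h1 i (2 ^ (i + 1)) (Nat.pow_le_pow_right (by norm_num) (Nat.le_succ i)) le_rfl
      have c2 : ‖g n - g m‖ ≤ M k + ∑ i ∈ Finset.Ico k l, M i + M l := by
        have e3 : g n - g m = (g n - g (2 ^ l)) + (g (2 ^ l) - g (2 ^ k)) -
          (g m - g (2 ^ k)) := by ring
        rw [e3]
        refine (norm_sub_le _ _).trans ?_
        have := norm_add_le (g n - g (2 ^ l)) (g (2 ^ l) - g (2 ^ k))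
        linarith
      have c3 : M k ≤ ∑ i ∈ Finset.Ico k l, M i :=
        Finset.single_le_sum (f := M) (fun i _ => h0 i) (Finset.mem_Ico.2 ⟨le_rfl, hkl'⟩)
      have c4 : M l ≤ ∑ i ∈ Finset.Ico k l, M (i + 1) := by
        have := Finset.single_le_sum (f := fun i => M (i + 1)) (s := Finset.Ico k l)
          (fun i _ => h0 (i + 1)) (a := l - 1) (Finset.mem_Ico.2 ⟨by omega, by omega⟩)
        have e5 : l - 1 + 1 = l := by omega
        simp only [e5] at this
        exact this
      have c5 : ∑ i ∈ Finset.Ico k l, M i ≤ C := by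
        refine le_trans ?_ (h3 l)
        apply Finset.sum_le_sum_of_subset_of_nonneg
        · intro i hi
          exact Finset.mem_range.2 (Finset.mem_Ico.1 hi).2
        · intro i _ _; exact h0 i
      have c6 : ∑ i ∈ Finset.Ico k l, E i =
          ∑ i ∈ Finset.Ico k l, M i + ∑ i ∈ Finset.Ico k l, M (i + 1) := by
        simp only [hE]
        rw [Finset.sum_add_distrib]
      have c7 : 0 ≤ ∑ i ∈ Finset.Ico k l, M (i + 1) := Finset.sum_nonneg fun i _ => h0 _
      have c8 : ‖g n - g m‖ ≤ 3 * C := by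
        have := hMC k; have := hMC l; linarith
      have c9 : ‖g n - g m‖ ≤ 2 * ∑ i ∈ Finset.Ico k l, E i := by
        rw [c6]; linarith
      have c10 : ‖g n - g m‖ ^ 2 ≤ 3 * C * (2 * ∑ i ∈ Finset.Ico k l, E i) := by
        rw [pow_two]
        exact mul_le_mul c8 c9 (norm_nonneg _) (by positivity)
      linarith
  -- the bound for Φ
  have hΦA : ∀ K : ℕ, ∑ i ∈ Finset.Ico 1 (2 ^ K), A i ≤ 2 * D * ∑ k ∈ Finset.range K, M k := by
    intro K
    induction K with
    | zero => simp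
    | succ K ih =>
      rw [← Finset.sum_Ico_consecutive A (Nat.one_le_two_pow (n := K))
        (Nat.pow_le_pow_right (by norm_num) (Nat.le_succ K)), Finset.sum_range_succ]
      have e6 : ∑ i ∈ Finset.Ico (2 ^ K) (2 ^ (K + 1)), A i ≤ 2 * D * M K := by
        have e7 : ∑ i ∈ Finset.Ico (2 ^ K) (2 ^ (K + 1)), A i =
            2 * M K * ∑ i ∈ Finset.Ico (2 ^ K) (2 ^ (K + 1)), d i := by
          rw [Finset.mul_sum]
          refine Finset.sum_congr rfl fun i hi => ?_
          rw [Finset.mem_Ico] at hi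
          have e8 : Nat.log 2 i = K := Nat.log_eq_of_pow_le_of_lt_pow hi.1 hi.2
          simp only [hA, e8]
        rw [e7]
        have e9 := mul_le_mul_of_nonneg_left (h2 K) (mul_nonneg (by norm_num : (0:ℝ) ≤ 2) (h0 K))
        calc 2 * M K * ∑ i ∈ Finset.Ico (2 ^ K) (2 ^ (K + 1)), d i ≤ 2 * M K * D := e9
          _ = 2 * D * M K := by ring
      linarith
  have hΦB : ∀ n : ℕ, Φ n ≤ 2 * C * D + 12 * C ^ 2 := by
    intro n
    have f1 : ∑ i ∈ Finset.Ico 1 n, A i ≤ ∑ i ∈ Finset.Ico 1 (2 ^ n), A i := by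
      apply Finset.sum_le_sum_of_subset_of_nonneg
      · exact Finset.Ico_subset_Ico_right (Nat.lt_two_pow_self).le
      · intro i _ _; exact hA0 i
    have f2 := hΦA n
    have f3 := mul_le_mul_of_nonneg_left (h3 n) (mul_nonneg (by norm_num : (0:ℝ) ≤ 2) hD.le)
    have f4 : ∑ i ∈ Finset.Ico 0 (Nat.log 2 n), E i ≤ 2 * C := by
      simp only [hE]
      rw [Finset.sum_add_distrib, ← Finset.range_eq_Ico]
      have f5 := h3 (Nat.log 2 n)
      have f6 : ∑ i ∈ Finset.range (Nat.log 2 n), M (i + 1) ≤ C := by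
        have f7 := h3 (Nat.log 2 n + 1)
        rw [Finset.sum_range_succ'] at f7
        have := h0 0
        linarith
      linarith
    have f8 := mul_le_mul_of_nonneg_left f4 (mul_nonneg (by norm_num : (0:ℝ) ≤ 6) hC.le)
    simp only [hΦ]
    nlinarith [f1, f2, f3, f8]
  have hΦ0 : ∀ n : ℕ, 0 ≤ Φ n := by
    intro n
    exact add_nonneg (Finset.sum_nonneg fun i _ => hA0 i)
      (mul_nonneg (by positivity) (Finset.sum_nonneg fun i _ => hE0 i))
  have hN1 : ∀ j, 1 ≤ N j := fun j => hN0.trans (hN.monotone (Nat.zero_le j))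
  calc ∑ j ∈ Finset.range J, ‖g (N (j + 1)) - g (N j)‖ ^ 2
      ≤ ∑ j ∈ Finset.range J, (Φ (N (j + 1)) - Φ (N j)) :=
        Finset.sum_le_sum fun j _ => key _ _ (hN1 j) (hN.monotone (Nat.le_succ j))
    _ = Φ (N J) - Φ (N 0) := Finset.sum_range_sub (fun j => Φ (N j)) J
    _ ≤ 2 * C * D + 12 * C ^ 2 := by
        have := hΦB (N J); have := hΦ0 (N 0); linarith

end Pool.Agent.R204.DSQ
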