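import Mathlib
import Pool.Agent.R204.DSQ.Stm

/-!
Geometric sums.
-/

namespace Pool.Agent.R204.DSQ

open Finset

theorem geo_norm_e (x : ℝ) : ‖e x‖ = 1 := by
  unfold e
  have : (2 * (Real.pi : ℂ) * x * Complex.I) = ((2 * Real.pi * x : ℝ) : ℂ) * Complex.I := by
    push_cast; ring
  rw [this, Complex.norm_exp_ofReal_mul_I]

theorem geo_pow (x : ℝ) (v : ℕ) : e (v * x) = e x ^ v := by
  unfold e
  rw [← Complex.exp_nat_mul]
  congr 1
  push_cast
  ring

theorem geo_sin_lb (y : ℝ) (hy : |y| ≤ 1 / 2) : 2 * |y| ≤ |Real.sin (Real.pi * y)| := by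
  have hpi := Real.pi_pos
  have h1 : |Real.sin (Real.pi * y)| = |Real.sin (Real.pi * |y|)| := by
    rcases abs_cases y with ⟨h, _⟩ | ⟨h, _⟩
    · rw [h]
    · rw [h, mul_neg, Real.sin_neg, abs_neg]
  rw [h1]
  have h2 : 2 / Real.pi * (Real.pi * |y|) ≤ Real.sin (Real.pi * |y|) := by
    apply Real.mul_le_sin
    · positivity
    · nlinarith
  have h3 : 2 / Real.pi * (Real.pi * |y|) = 2 * |y| := by field_simp
  rw [h3] at h2
  exact h2.trans (le_abs_self _)

theorem geo_dist (x : ℝ) : 4 * dist1 x ≤ ‖e x - 1‖ := by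
  have h1 : ‖e x - 1‖ = ‖2 * Real.sin (Real.pi * x)‖ := by
    have := Complex.norm_exp_I_mul_ofReal_sub_one (2 * Real.pi * x)
    have h2 : 2 * Real.pi * x / 2 = Real.pi * x := by ring
    rw [h2] at this
    rw [← this]
    unfold e
    congr 3
    push_cast
    ring
  have h3 : |Real.sin (Real.pi * x)| = |Real.sin (Real.pi * (x - round x))| := by
    have h4 : Real.pi * (x - round x) = Real.pi * x - (round x : ℤ) * Real.pi := by ring
    rw [h4, Real.sin_sub_int_mul_pi, abs_mul]
    simp
  rw [h1, norm_mul, Real.norm_eq_abs, Real.norm_eq_abs, h3, abs_two]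
  have := geo_sin_lb (x - round x) (abs_sub_round x)
  unfold dist1
  linarith

theorem geo_st : GeoSt := by
  constructor
  · intro x m
    refine (norm_sum_le _ _).trans ?_
    simp [geo_norm_e]
  · intro x m hx
    have hd : 0 < dist1 x := lt_of_le_of_ne (abs_nonneg _) (Ne.symm hx)
    have hz : 0 < ‖e x - 1‖ := lt_of_lt_of_le (by positivity) (geo_dist x)
    have hne : e x ≠ 1 := by
      intro h
      rw [h] at hz
      simp at hz
    have hsum : ∑ v ∈ Finset.Icc 1 m, e (v * x) = e x * ((e x ^ m - 1) / (e x - 1)) := by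
      rw [← geom_sum_eq hne, Finset.mul_sum]
      clear hx hd hz
      induction m with
      | zero => simp
      | succ m ih =>
        rw [Finset.sum_Icc_succ_top (by omega), ih, Finset.sum_range_succ, geo_pow, pow_succ]
        ring
    rw [hsum, norm_mul, geo_norm_e, one_mul, norm_div, div_le_div_iff₀ hz (by positivity), one_mul]
    have h5 : ‖e x ^ m - 1‖ ≤ 2 := by
      refine (norm_sub_le _ _).trans ?_
      rw [norm_pow, geo_norm_e, one_pow, norm_one]
      norm_num
    have := geo_dist x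
    nlinarith [norm_nonneg (e x ^ m - 1)]

end Pool.Agent.R204.DSQ
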