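import Mathlib
import Pool.Agent.R204.DSQ.Stm

/-! Piece HYP (helper381): the Dirichlet hyperbola identity. -/

namespace Pool.Agent.R204.DSQ

open MeasureTheory Finset

namespace Hypx

/-- pairs with product at most `n` -/
def PP (n : ℕ) : Finset (ℕ × ℕ) := (Icc 1 n ×ˢ Icc 1 n).filter (fun x => x.1 * x.2 ≤ n)

lemma mem_PP {n : ℕ} {x : ℕ × ℕ} : x ∈ PP n ↔ 1 ≤ x.1 ∧ 1 ≤ x.2 ∧ x.1 * x.2 ≤ n := by
  unfold PP
  rw [mem_filter, mem_product, mem_Icc, mem_Icc]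
  constructor
  · rintro ⟨⟨⟨h1, _⟩, ⟨h2, _⟩⟩, h3⟩
    exact ⟨h1, h2, h3⟩
  · rintro ⟨h1, h2, h3⟩
    have h4 : x.1 ≤ x.1 * x.2 := Nat.le_mul_of_pos_right _ h2
    have h5 : x.2 ≤ x.1 * x.2 := Nat.le_mul_of_pos_left _ h1
    exact ⟨⟨⟨h1, by omega⟩, ⟨h2, by omega⟩⟩, h3⟩

lemma div_sum (F : ℕ → ℂ) (n : ℕ) :
    ∑ k ∈ Icc 1 n, ((Nat.divisors k).card : ℂ) * F k = ∑ x ∈ PP n, F (x.1 * x.2) := by
  have hm : ∀ x ∈ PP n, x.1 * x.2 ∈ Icc 1 n := by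
    intro x hx
    rw [mem_PP] at hx
    rw [mem_Icc]
    exact ⟨Nat.mul_pos hx.1 hx.2.1, hx.2.2⟩
  rw [← sum_fiberwise_of_maps_to hm]
  refine sum_congr rfl fun k hk => ?_
  rw [mem_Icc] at hk
  have h1 : (PP n).filter (fun x => x.1 * x.2 = k) = Nat.divisorsAntidiagonal k := by
    ext x
    rw [mem_filter, mem_PP, Nat.mem_divisorsAntidiagonal]
    constructor
    · rintro ⟨_, h⟩
      exact ⟨h, by omega⟩
    · rintro ⟨h, h0⟩
      refine ⟨⟨?_, ?_, by omega⟩, h⟩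
      · rcases Nat.eq_zero_or_pos x.1 with h2 | h2
        · rw [h2, zero_mul] at h
          omega
        · exact h2
      · rcases Nat.eq_zero_or_pos x.2 with h2 | h2
        · rw [h2, mul_zero] at h
          omega
        · exact h2
  rw [h1]
  have h2 : ∑ x ∈ Nat.divisorsAntidiagonal k, F (x.1 * x.2) =
      ∑ x ∈ Nat.divisorsAntidiagonal k, (fun _ _ => F k : ℕ → ℕ → ℂ) x.1 x.2 := by
    refine sum_congr rfl fun x hx => ?_
    rw [(Nat.mem_divisorsAntidiagonal.1 hx).1]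
  have h3 := Nat.sum_divisorsAntidiagonal (fun _ _ => F k : ℕ → ℕ → ℂ) (n := k)
  rw [h2, h3, sum_const, nsmul_eq_mul]

lemma hyp (F : ℕ → ℂ) (n : ℕ) :
    ∑ x ∈ PP n, F (x.1 * x.2) =
      2 * ∑ u ∈ Icc 1 (Nat.sqrt n), ∑ v ∈ Icc 1 (n / u), F (u * v)
      - ∑ u ∈ Icc 1 (Nat.sqrt n), ∑ v ∈ Icc 1 (Nat.sqrt n), F (u * v) := by
  classical
  set s := Nat.sqrt n with hs
  have hs1 : s * s ≤ n := Nat.sqrt_le n
  have hs2 : n < (s + 1) * (s + 1) := Nat.lt_succ_sqrt n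
  set A := (PP n).filter (fun x => x.1 ≤ s) with hA
  set B := (PP n).filter (fun x => x.2 ≤ s) with hB
  have hAB : A ∪ B = PP n := by
    ext x
    rw [mem_union, hA, hB, mem_filter, mem_filter]
    constructor
    · rintro (h | h)
      · exact h.1
      · exact h.1
    · intro h
      rcases Nat.lt_or_ge s x.1 with h1 | h1
      · rcases Nat.lt_or_ge s x.2 with h2 | h2
        · exfalso
          have h3 := (mem_PP.1 h).2.2
          have h4 : (s + 1) * (s + 1) ≤ x.1 * x.2 := Nat.mul_le_mul h1 h2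
          omega
        · exact Or.inr ⟨h, h2⟩
      · exact Or.inl ⟨h, h1⟩
  have h1 := sum_union_inter (s₁ := A) (s₂ := B) (f := fun x : ℕ × ℕ => F (x.1 * x.2))
  rw [hAB] at h1
  have h2 : ∑ x ∈ A, F (x.1 * x.2) = ∑ u ∈ Icc 1 s, ∑ v ∈ Icc 1 (n / u), F (u * v) := by
    refine sum_finset_product' A (Icc 1 s) (fun u => Icc 1 (n / u)) (fun p => ?_)
      (f := fun u v => F (u * v))
    rw [hA, mem_filter, mem_PP, mem_Icc, mem_Icc]
    constructor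
    · rintro ⟨⟨h3, h4, h5⟩, h6⟩
      exact ⟨⟨h3, h6⟩, h4, (Nat.le_div_iff_mul_le h3).2 (by rw [mul_comm]; exact h5)⟩
    · rintro ⟨⟨h3, h6⟩, h4, h5⟩
      have h7 := (Nat.le_div_iff_mul_le h3).1 h5
      exact ⟨⟨h3, h4, by rw [mul_comm]; exact h7⟩, h6⟩
  have h3 : ∑ x ∈ B, F (x.1 * x.2) = ∑ x ∈ A, F (x.1 * x.2) := by
    refine sum_nbij' (fun x => (x.2, x.1)) (fun x => (x.2, x.1)) ?_ ?_ ?_ ?_ ?_
    · intro x hx
      rw [hB, mem_filter, mem_PP] at hx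
      rw [hA, mem_filter, mem_PP]
      exact ⟨⟨hx.1.2.1, hx.1.1, by rw [mul_comm]; exact hx.1.2.2⟩, hx.2⟩
    · intro x hx
      rw [hA, mem_filter, mem_PP] at hx
      rw [hB, mem_filter, mem_PP]
      exact ⟨⟨hx.1.2.1, hx.1.1, by rw [mul_comm]; exact hx.1.2.2⟩, hx.2⟩
    · intro x _
      rfl
    · intro x _
      rfl
    · intro x _
      simp only
      rw [mul_comm]
  have h4 : ∑ x ∈ A ∩ B, F (x.1 * x.2) = ∑ u ∈ Icc 1 s, ∑ v ∈ Icc 1 s, F (u * v) := by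
    refine sum_finset_product' (A ∩ B) (Icc 1 s) (fun _ => Icc 1 s) (fun p => ?_)
      (f := fun u v => F (u * v))
    rw [mem_inter, hA, hB, mem_filter, mem_filter, mem_PP, mem_Icc, mem_Icc]
    constructor
    · rintro ⟨⟨⟨h3, h4, _⟩, h6⟩, ⟨_, h7⟩⟩
      exact ⟨⟨h3, h6⟩, h4, h7⟩
    · rintro ⟨⟨h3, h6⟩, h4, h7⟩
      have h8 : p.1 * p.2 ≤ s * s := Nat.mul_le_mul h6 h7
      have h9 : 1 ≤ p.1 ∧ 1 ≤ p.2 ∧ p.1 * p.2 ≤ n := ⟨h3, h4, by omega⟩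
      exact ⟨⟨h9, h6⟩, ⟨h9, h7⟩⟩
  rw [h4, h3, h2] at h1
  linear_combination h1

end Hypx

open Hypx in
theorem hyp_st : HypSt := by
  intro θ n
  have h1 := (div_sum (fun m => e ((m : ℝ) * θ)) n).trans (hyp (fun m => e ((m : ℝ) * θ)) n)
  have h2 : ∀ u v : ℕ, e (((u * v : ℕ) : ℝ) * θ) = e ((v : ℝ) * ((u : ℝ) * θ)) := by
    intro u v
    congr 1
    push_cast
    ring
  simp only [h2] at h1
  unfold S dv
  rw [← h1]
  refine sum_congr rfl fun k _ => ?_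
  push_cast
  rfl

end Pool.Agent.R204.DSQ
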