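import Mathlib
import Pool.Agent.R204.DSQ.Stm

namespace Pool.Agent.R204.DSQ

open Finset

theorem hyp_F_symm (θ : ℝ) (u v : ℕ) : e (v * (u * θ)) = e (u * (v * θ)) := by
  congr 1; ring

theorem hyp_dv (n k : ℕ) (hk : k ∈ Finset.Icc 1 n) :
    (dv k : ℂ) = ∑ u ∈ Finset.Icc 1 n, if u ∣ k then (1 : ℂ) else 0 := by
  rw [Finset.mem_Icc] at hk
  rw [← Finset.sum_filter, Finset.sum_const, nsmul_eq_mul, mul_one]
  unfold dv
  have : (Finset.Icc 1 n).filter (fun u => u ∣ k) = Nat.divisors k := by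
    ext u
    simp only [Finset.mem_filter, Finset.mem_Icc, Nat.mem_divisors]
    constructor
    · rintro ⟨_, h⟩
      exact ⟨h, by omega⟩
    · rintro ⟨h, _⟩
      have h1 := Nat.pos_of_dvd_of_pos h (by omega)
      have h2 := Nat.le_of_dvd (by omega) h
      exact ⟨⟨h1, by omega⟩, h⟩
  rw [this]
  push_cast
  rfl

theorem hyp_step1 (θ : ℝ) (n : ℕ) : S θ n =
    ∑ u ∈ Finset.Icc 1 n, ∑ v ∈ Finset.Icc 1 n, if u * v ≤ n then e (v * (u * θ)) else 0 := by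
  unfold S
  have h1 : ∑ k ∈ Finset.Icc 1 n, (dv k : ℂ) * e (k * θ) =
      ∑ k ∈ Finset.Icc 1 n, ∑ u ∈ Finset.Icc 1 n, if u ∣ k then e (k * θ) else 0 := by
    refine Finset.sum_congr rfl (fun k hk => ?_)
    rw [hyp_dv n k hk, Finset.sum_mul]
    refine Finset.sum_congr rfl (fun u _ => ?_)
    split_ifs <;> simp
  rw [h1, Finset.sum_comm]
  refine Finset.sum_congr rfl (fun u hu => ?_)
  rw [Finset.mem_Icc] at hu
  rw [← Finset.sum_filter, ← Finset.sum_filter]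
  symm
  refine Finset.sum_nbij' (fun v => u * v) (fun k => k / u) ?_ ?_ ?_ ?_ ?_
  · intro v hv
    simp only [Finset.mem_filter, Finset.mem_Icc] at hv ⊢
    have : 1 ≤ u * v := Nat.mul_pos (by omega) (by omega)
    exact ⟨⟨this, hv.2⟩, Dvd.intro v rfl⟩
  · intro k hk
    simp only [Finset.mem_filter, Finset.mem_Icc] at hk ⊢
    obtain ⟨⟨hk1, hk2⟩, w, rfl⟩ := hk
    have hu0 : 0 < u := by omega
    rw [Nat.mul_div_cancel_left w hu0]
    have hw : 1 ≤ w := by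
      rcases Nat.eq_zero_or_pos w with h | h
      · subst h; simp at hk1
      · exact h
    refine ⟨⟨hw, ?_⟩, hk2⟩
    nlinarith
  · intro v _
    exact Nat.mul_div_cancel_left v (by omega)
  · intro k hk
    simp only [Finset.mem_filter, Finset.mem_Icc] at hk
    exact Nat.mul_div_cancel' hk.2
  · intro v _
    congr 1
    push_cast
    ring

theorem hyp_A (θ : ℝ) (n : ℕ) :
    (∑ u ∈ Finset.Icc 1 n, ∑ v ∈ Finset.Icc 1 n, if u * v ≤ n ∧ u ≤ Nat.sqrt n then e (v * (u * θ)) else 0)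
    = ∑ u ∈ Finset.Icc 1 (Nat.sqrt n), ∑ v ∈ Finset.Icc 1 (n / u), e (v * (u * θ)) := by
  have hs : Nat.sqrt n ≤ n := Nat.sqrt_le_self n
  have h0 : Finset.Icc 1 (Nat.sqrt n) ⊆ Finset.Icc 1 n := Finset.Icc_subset_Icc_right hs
  symm
  rw [← Finset.sum_subset h0]
  · refine Finset.sum_congr rfl (fun u hu => ?_)
    rw [Finset.mem_Icc] at hu
    rw [← Finset.sum_filter]
    refine Finset.sum_congr ?_ (fun _ _ => rfl)
    ext v
    simp only [Finset.mem_filter, Finset.mem_Icc]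
    have hu0 : 0 < u := by omega
    rw [Nat.le_div_iff_mul_le hu0]
    constructor
    · rintro ⟨h1, h2⟩
      refine ⟨⟨h1, ?_⟩, by rw [mul_comm]; exact h2, hu.2⟩
      nlinarith
    · rintro ⟨⟨h1, _⟩, h2, _⟩
      exact ⟨h1, by rw [mul_comm]; exact h2⟩
  · intro u hu hu'
    rw [Finset.mem_Icc] at hu hu'
    refine Finset.sum_eq_zero (fun v _ => ?_)
    rw [if_neg]
    rintro ⟨_, h⟩
    exact hu' ⟨hu.1, h⟩

theorem hyp_B (θ : ℝ) (n : ℕ) :
    (∑ u ∈ Finset.Icc 1 n, ∑ v ∈ Finset.Icc 1 n,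
      if u ≤ Nat.sqrt n ∧ v ≤ Nat.sqrt n then e (v * (u * θ)) else 0)
    = ∑ u ∈ Finset.Icc 1 (Nat.sqrt n), ∑ v ∈ Finset.Icc 1 (Nat.sqrt n), e (v * (u * θ)) := by
  have hs : Nat.sqrt n ≤ n := Nat.sqrt_le_self n
  have h0 : Finset.Icc 1 (Nat.sqrt n) ⊆ Finset.Icc 1 n := Finset.Icc_subset_Icc_right hs
  symm
  rw [← Finset.sum_subset h0]
  · refine Finset.sum_congr rfl (fun u hu => ?_)
    rw [Finset.mem_Icc] at hu
    rw [← Finset.sum_filter]
    refine Finset.sum_congr ?_ (fun _ _ => rfl)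
    ext v
    simp only [Finset.mem_filter, Finset.mem_Icc]
    constructor
    · rintro ⟨h1, h2⟩
      exact ⟨⟨h1, by omega⟩, hu.2, h2⟩
    · rintro ⟨⟨h1, _⟩, _, h2⟩
      exact ⟨h1, h2⟩
  · intro u hu hu'
    rw [Finset.mem_Icc] at hu hu'
    refine Finset.sum_eq_zero (fun v _ => ?_)
    rw [if_neg]
    rintro ⟨h, _⟩
    exact hu' ⟨hu.1, h⟩

theorem hyp_st : HypSt := by
  intro θ n
  rw [← hyp_A, ← hyp_B, hyp_step1]
  have hsym : (∑ u ∈ Finset.Icc 1 n, ∑ v ∈ Finset.Icc 1 n,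
      if u * v ≤ n ∧ v ≤ Nat.sqrt n then e (v * (u * θ)) else 0) =
      ∑ u ∈ Finset.Icc 1 n, ∑ v ∈ Finset.Icc 1 n,
      if u * v ≤ n ∧ u ≤ Nat.sqrt n then e (v * (u * θ)) else 0 := by
    rw [Finset.sum_comm]
    refine Finset.sum_congr rfl (fun u _ => Finset.sum_congr rfl (fun v _ => ?_))
    rw [mul_comm v u, hyp_F_symm θ v u]
  have hpt : (∑ u ∈ Finset.Icc 1 n, ∑ v ∈ Finset.Icc 1 n, if u * v ≤ n then e (v * (u * θ)) else 0)
      = (∑ u ∈ Finset.Icc 1 n, ∑ v ∈ Finset.Icc 1 n,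
          if u * v ≤ n ∧ u ≤ Nat.sqrt n then e (v * (u * θ)) else 0)
        + (∑ u ∈ Finset.Icc 1 n, ∑ v ∈ Finset.Icc 1 n,
          if u * v ≤ n ∧ v ≤ Nat.sqrt n then e (v * (u * θ)) else 0)
        - ∑ u ∈ Finset.Icc 1 n, ∑ v ∈ Finset.Icc 1 n,
          if u ≤ Nat.sqrt n ∧ v ≤ Nat.sqrt n then e (v * (u * θ)) else 0 := by
    rw [← Finset.sum_add_distrib, ← Finset.sum_sub_distrib]
    refine Finset.sum_congr rfl (fun u _ => ?_)
    rw [← Finset.sum_add_distrib, ← Finset.sum_sub_distrib]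
    refine Finset.sum_congr rfl (fun v _ => ?_)
    have h1 : u * v ≤ n → u ≤ Nat.sqrt n ∨ v ≤ Nat.sqrt n := by
      intro h
      by_contra hc
      push Not at hc
      have h2 : n < (Nat.sqrt n + 1) * (Nat.sqrt n + 1) := Nat.lt_succ_sqrt n
      have h3 : (Nat.sqrt n + 1) * (Nat.sqrt n + 1) ≤ u * v :=
        Nat.mul_le_mul (by omega) (by omega)
      omega
    have h4 : u ≤ Nat.sqrt n → v ≤ Nat.sqrt n → u * v ≤ n := fun h5 h6 =>
      le_trans (Nat.mul_le_mul h5 h6) (Nat.sqrt_le n)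
    by_cases a : u * v ≤ n <;> by_cases b : u ≤ Nat.sqrt n <;> by_cases c : v ≤ Nat.sqrt n
    · simp [a, b, c]
    · simp [a, b, c]
    · simp [a, b, c]
    · exact absurd (h1 a) (by tauto)
    · exact absurd (h4 b c) a
    · simp [a, b, c]
    · simp [a, b, c]
    · simp [a, b, c]
  rw [hpt, hsym]
  ring

end Pool.Agent.R204.DSQ
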