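import Mathlib
import Pool.Agent.R204.DSQ.Stm

/-!
Square function of divisor weighted averages: the piece MAJ (oscillation on the major arcs).
-/

namespace Pool.Agent.R204.DSQ

open MeasureTheory Finset

noncomputable def LLm (n : ℕ) : ℝ := Real.log n + 2 * Real.eulerMascheroniConstant - 1

noncomputable def AAm (q n : ℕ) : ℝ := 1 / (q : ℝ) * (1 - 2 * Real.log q / LLm n)

theorem S_zero_maj (n : ℕ) : S 0 n = (W n : ℂ) := by
  unfold S W
  push_cast
  refine Finset.sum_congr rfl fun k _ => ?_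
  simp [e]

theorem log_le_LLm (n : ℕ) : Real.log n ≤ LLm n := by
  have := Real.one_half_lt_eulerMascheroniConstant
  unfold LLm
  linarith

theorem two_log_le {n q : ℕ} (hq : 1 ≤ q) (h16 : 16 * q ^ 2 ≤ n) :
    2 * Real.log q ≤ Real.log n := by
  have hq0 : (0 : ℝ) < q := by exact_mod_cast hq
  have h1 : (q : ℝ) ^ 2 ≤ n := by
    have : q ^ 2 ≤ n := by nlinarith
    exact_mod_cast this
  have h2 := Real.log_le_log (by positivity) h1
  rw [Real.log_pow] at h2
  push_cast at h2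
  exact h2

theorem AAm_abs {n q : ℕ} (hq : 1 ≤ q) (h16 : 16 * q ^ 2 ≤ n) : |AAm q n| ≤ 1 := by
  have hq1 : (1 : ℝ) ≤ q := by exact_mod_cast hq
  have hlq : 0 ≤ Real.log q := Real.log_nonneg hq1
  have hn16 : 16 ≤ n := by nlinarith
  have hn : (16 : ℝ) ≤ n := by exact_mod_cast hn16
  have hln : 0 < Real.log n := Real.log_pos (by linarith)
  have hL := log_le_LLm n
  have hLpos : 0 < LLm n := by linarith
  have h2 := two_log_le hq h16
  have h3 : 2 * Real.log q / LLm n ≤ 1 := by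
    rw [div_le_one hLpos]; linarith
  have h4 : 0 ≤ 2 * Real.log q / LLm n := by positivity
  have h5 : 1 / (q : ℝ) ≤ 1 := by
    rw [div_le_one (by linarith)]; exact hq1
  have h6 : 0 ≤ 1 / (q : ℝ) := by positivity
  unfold AAm
  rw [abs_of_nonneg (mul_nonneg h6 (by linarith))]
  calc 1 / (q : ℝ) * (1 - 2 * Real.log q / LLm n) ≤ 1 * 1 := by
        apply mul_le_mul h5 (by linarith) (by linarith) (by norm_num)
    _ = 1 := by norm_num

theorem maj_one (h1 : WSt) {C0 : ℝ} (hC0 : 0 < C0)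
    (h2 : ∀ (θ : ℝ) (n q : ℕ) (a : ℤ), 1 ≤ q → Int.gcd a q = 1 → 16 * q ^ 2 ≤ n →
      (n : ℝ) * |θ - a / q| ≤ 2 →
      ‖S θ n - (((n : ℝ) / q * (Real.log n - 2 * Real.log q +
        2 * Real.eulerMascheroniConstant - 1) : ℝ) : ℂ)‖
      ≤ C0 * (Real.sqrt n * (1 + Real.log q) + (n : ℝ) / q * (n * |θ - a / q|) *
        (1 + Real.log n)))
    (θ : ℝ) (n q : ℕ) (a : ℤ) (hq : 1 ≤ q) (hg : Int.gcd a q = 1) (h16 : 16 * q ^ 2 ≤ n)
    (hβ : (n : ℝ) * |θ - a / q| ≤ 2) :
    ‖V θ n - ((AAm q n : ℝ) : ℂ)‖ ≤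
      3 * C0 * (2 / Real.sqrt n + 1 / (q : ℝ) * (n * |θ - a / q|)) := by
  have hq1 : (1 : ℝ) ≤ q := by exact_mod_cast hq
  have hq0 : (0 : ℝ) < q := by linarith
  have hlq : 0 ≤ Real.log q := Real.log_nonneg hq1
  have hn16 : 16 ≤ n := by nlinarith
  have hn : (16 : ℝ) ≤ n := by exact_mod_cast hn16
  have hn0 : (0 : ℝ) < n := by linarith
  have hln : 0 < Real.log n := Real.log_pos (by linarith)
  have hL := log_le_LLm n
  have hLpos : 0 < LLm n := by linarith
  have h2l := two_log_le hq h16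
  have hWpos : 0 < W n := h1.1 n (by omega)
  have hWge : (n : ℝ) / 3 * (1 + Real.log n) ≤ W n := h1.2.2.1 n (by omega)
  -- the two error terms
  set E1 : ℂ := S θ n - (((n : ℝ) / q * (Real.log n - 2 * Real.log q +
        2 * Real.eulerMascheroniConstant - 1) : ℝ) : ℂ) with hE1
  have hE1b := h2 θ n q a hq hg h16 hβ
  have h00 := h2 0 n 1 0 le_rfl (by simp) (by omega) (by simp)
  rw [S_zero_maj] at h00
  set E0 : ℝ := W n - n * LLm n with hE0
  have hE0b : |E0| ≤ C0 * Real.sqrt n := by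
    have e1 : ((W n : ℂ) - (((n : ℝ) / (1 : ℕ) * (Real.log n - 2 * Real.log (1 : ℕ) +
        2 * Real.eulerMascheroniConstant - 1) : ℝ) : ℂ)) = ((E0 : ℝ) : ℂ) := by
      rw [hE0, ← Complex.ofReal_sub]
      congr 1
      unfold LLm
      simp
    rw [e1, Complex.norm_real, Real.norm_eq_abs] at h00
    simpa using h00
  have hkey : V θ n - ((AAm q n : ℝ) : ℂ) = (E1 - ((AAm q n * E0 : ℝ) : ℂ)) / (W n : ℂ) := by
    have hW : (W n : ℂ) ≠ 0 := by exact_mod_cast hWpos.ne'
    unfold V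
    rw [eq_div_iff hW, sub_mul, div_mul_cancel₀ _ hW, hE1]
    have e2 : AAm q n * W n = (n : ℝ) / q * (Real.log n - 2 * Real.log q +
        2 * Real.eulerMascheroniConstant - 1) + AAm q n * E0 := by
      have e3 : AAm q n * (n * LLm n) = (n : ℝ) / q * (Real.log n - 2 * Real.log q +
        2 * Real.eulerMascheroniConstant - 1) := by
        have e4 : Real.log n - 2 * Real.log q + 2 * Real.eulerMascheroniConstant - 1
            = LLm n - 2 * Real.log q := by unfold LLm; ring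
        rw [e4]
        unfold AAm
        field_simp
      rw [← e3, hE0]
      ring
    rw [← Complex.ofReal_mul, e2]
    push_cast
    ring
  have hA := AAm_abs hq h16
  have hnum : ‖E1 - ((AAm q n * E0 : ℝ) : ℂ)‖ ≤
      C0 * (2 * Real.sqrt n + (n : ℝ) / q * (n * |θ - a / q|)) * (1 + Real.log n) := by
    have hlqn : Real.log q ≤ Real.log n := by linarith
    have hs : 0 ≤ Real.sqrt n := Real.sqrt_nonneg _
    have hAE : |AAm q n * E0| ≤ C0 * Real.sqrt n := by
      rw [abs_mul]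
      calc |AAm q n| * |E0| ≤ 1 * (C0 * Real.sqrt n) :=
            mul_le_mul hA hE0b (abs_nonneg _) (by norm_num)
        _ = _ := one_mul _
    calc ‖E1 - ((AAm q n * E0 : ℝ) : ℂ)‖ ≤ ‖E1‖ + ‖((AAm q n * E0 : ℝ) : ℂ)‖ := norm_sub_le _ _
      _ ≤ C0 * (Real.sqrt n * (1 + Real.log q) + (n : ℝ) / q * (n * |θ - a / q|) *
        (1 + Real.log n)) + C0 * Real.sqrt n := by
        rw [Complex.norm_real, Real.norm_eq_abs]
        exact add_le_add hE1b hAE
      _ ≤ C0 * (Real.sqrt n * (1 + Real.log n) + (n : ℝ) / q * (n * |θ - a / q|) *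
        (1 + Real.log n)) + C0 * (Real.sqrt n * (1 + Real.log n)) := by
        have t1 : Real.sqrt n ≤ Real.sqrt n * (1 + Real.log n) := by nlinarith
        gcongr
      _ = _ := by ring
  rw [hkey, norm_div, Complex.norm_real, Real.norm_eq_abs, abs_of_pos hWpos,
    div_le_iff₀ hWpos]
  have hB : 0 ≤ 2 / Real.sqrt n + 1 / (q : ℝ) * (n * |θ - a / q|) := by positivity
  have hsq : Real.sqrt n * Real.sqrt n = n := Real.mul_self_sqrt hn0.le
  have hs0 : 0 < Real.sqrt n := Real.sqrt_pos.2 hn0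
  calc ‖E1 - ((AAm q n * E0 : ℝ) : ℂ)‖
      ≤ C0 * (2 * Real.sqrt n + (n : ℝ) / q * (n * |θ - a / q|)) * (1 + Real.log n) := hnum
    _ = 3 * C0 * (2 / Real.sqrt n + 1 / (q : ℝ) * (n * |θ - a / q|)) *
        ((n : ℝ) / 3 * (1 + Real.log n)) := by
        have : 2 * Real.sqrt n = 2 / Real.sqrt n * n := by
          rw [div_mul_eq_mul_div, eq_div_iff hs0.ne']
          rw [mul_assoc, hsq]
        rw [this]
        field_simp
    _ ≤ _ := by gcongr

theorem maj_st (h1 : WSt) (h2 : AsySt) : MajSt := by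
  obtain ⟨C0, hC0, h2⟩ := h2
  refine ⟨12 * C0 + 2, by positivity, fun θ N n q a hq hg h16 hβ hNn hn2 => ?_⟩
  have hq1 : (1 : ℝ) ≤ q := by exact_mod_cast hq
  have hq0 : (0 : ℝ) < q := by linarith
  have hlq : 0 ≤ Real.log q := Real.log_nonneg hq1
  have hN16 : 16 ≤ N := by nlinarith
  have hN : (16 : ℝ) ≤ N := by exact_mod_cast hN16
  have hN0 : (0 : ℝ) < N := by linarith
  have hNn' : (N : ℝ) ≤ n := by exact_mod_cast hNn
  have hn2' : (n : ℝ) ≤ 2 * N := by exact_mod_cast hn2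
  have hn0 : (0 : ℝ) < n := by linarith
  have hlN : 0 < Real.log N := Real.log_pos (by linarith)
  set β := |θ - a / q| with hβd
  have hβ0 : 0 ≤ β := abs_nonneg _
  have hnβ : (n : ℝ) * β ≤ 2 * (N * β) := by nlinarith
  have hVn := maj_one h1 hC0 h2 θ n q a hq hg (h16.trans hNn) (by rw [← hβd]; linarith)
  have hVN := maj_one h1 hC0 h2 θ N q a hq hg h16 (by rw [← hβd]; linarith)
  rw [← hβd] at hVn hVN
  have hsN : 0 < Real.sqrt N := Real.sqrt_pos.2 hN0
  have hsn : Real.sqrt N ≤ Real.sqrt n := Real.sqrt_le_sqrt hNn'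
  have hVn' : ‖V θ n - ((AAm q n : ℝ) : ℂ)‖ ≤
      3 * C0 * (2 / Real.sqrt N + 1 / (q : ℝ) * (2 * (N * β))) := by
    refine hVn.trans ?_
    gcongr
  -- the main terms
  have hLn : LLm n - LLm N ≤ 1 := by
    have e : LLm n - LLm N = Real.log n - Real.log N := by unfold LLm; ring
    rw [e]
    have : Real.log n ≤ Real.log (2 * N) := Real.log_le_log hn0 hn2'
    rw [Real.log_mul (by norm_num) hN0.ne'] at this
    have h3 := Real.log_two_lt_d9
    linarith
  have hLn0 : 0 ≤ LLm n - LLm N := by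
    have e : LLm n - LLm N = Real.log n - Real.log N := by unfold LLm; ring
    rw [e]
    have := Real.log_le_log hN0 hNn'
    linarith
  have hLN : Real.log N ≤ LLm N := log_le_LLm N
  have hLNpos : 0 < LLm N := by linarith
  have hLnpos : 0 < LLm n := by linarith
  have hAd : |AAm q n - AAm q N| ≤ 2 * (1 / (q : ℝ) * ((1 + Real.log q) / (Real.log N) ^ 2)) := by
    have e : AAm q n - AAm q N =
        1 / (q : ℝ) * (2 * Real.log q * ((LLm n - LLm N) / (LLm N * LLm n))) := by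
      unfold AAm
      field_simp
      ring
    rw [e, abs_of_nonneg (by positivity)]
    have h5 : (LLm n - LLm N) / (LLm N * LLm n) ≤ 1 / (Real.log N) ^ 2 := by
      apply div_le_div₀ (by norm_num) hLn (by positivity)
      rw [sq]
      exact mul_le_mul hLN (by linarith) hlN.le hLNpos.le
    calc 1 / (q : ℝ) * (2 * Real.log q * ((LLm n - LLm N) / (LLm N * LLm n)))
        ≤ 1 / (q : ℝ) * (2 * (1 + Real.log q) * (1 / (Real.log N) ^ 2)) := by
          gcongr
          linarith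
      _ = _ := by ring
  have htri : ‖V θ n - V θ N‖ ≤ ‖V θ n - ((AAm q n : ℝ) : ℂ)‖ + |AAm q n - AAm q N| +
      ‖V θ N - ((AAm q N : ℝ) : ℂ)‖ := by
    have e : V θ n - V θ N = (V θ n - ((AAm q n : ℝ) : ℂ)) +
        (((AAm q n - AAm q N : ℝ)) : ℂ) - (V θ N - ((AAm q N : ℝ) : ℂ)) := by
      push_cast; ring
    rw [e]
    refine (norm_sub_le _ _).trans ?_
    gcongr
    refine (norm_add_le _ _).trans ?_
    rw [Complex.norm_real, Real.norm_eq_abs]
  refine htri.trans ((add_le_add (add_le_add hVn' hAd) hVN).trans ?_)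
  have p1 : 0 ≤ 1 / (q : ℝ) * (N * β) := by positivity
  have p2 : 0 ≤ 1 / (q : ℝ) * ((1 + Real.log q) / (Real.log N) ^ 2) := by positivity
  have p3 : 0 ≤ 1 / Real.sqrt N := by positivity
  have e1 : 2 / Real.sqrt N = 2 * (1 / Real.sqrt N) := by ring
  have e2 : 1 / (q : ℝ) * (2 * (N * β)) = 2 * (1 / (q : ℝ) * (N * β)) := by ring
  have e3 : 1 / (q : ℝ) * ((1 + Real.log q) / (Real.log N) ^ 2 + N * β) =
      1 / (q : ℝ) * ((1 + Real.log q) / (Real.log N) ^ 2) + 1 / (q : ℝ) * (N * β) := by ring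
  rw [e1, e2, e3]
  generalize 1 / (q : ℝ) * (N * β) = x at p1 ⊢
  generalize 1 / (q : ℝ) * ((1 + Real.log q) / (Real.log N) ^ 2) = y at p2 ⊢
  generalize 1 / Real.sqrt N = z at p3 ⊢
  nlinarith [mul_nonneg hC0.le p1, mul_nonneg hC0.le p2, mul_nonneg hC0.le p3]

end Pool.Agent.R204.DSQ
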