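import Mathlib
import Pool.Agent.R204.DSQ.Stm

/-!
Square function of divisor weighted averages (MP_d5c55f_an), piece MIN: minor arc bound.
-/

namespace Pool.Agent.R204.DSQ

open MeasureTheory Finset

namespace MinX

theorem le_mn1 (h2 : GeoSt) (θ : ℝ) (n u : ℕ) :
    ‖∑ v ∈ Finset.Icc 1 (n / u), e (v * (u * θ))‖ ≤ mn n θ u := by
  have h1 : ‖∑ v ∈ Finset.Icc 1 (n / u), e (v * (u * θ))‖ ≤ (n : ℝ) / u :=
    (h2.1 (u * θ) (n / u)).trans Nat.cast_div_le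
  unfold mn
  split_ifs with h
  · exact h1
  · exact le_min h1 (h2.2 (u * θ) (n / u) h)

theorem le_mn2 (h2 : GeoSt) (θ : ℝ) (n u : ℕ) (hu : 1 ≤ u) (hus : u ≤ Nat.sqrt n) :
    ‖∑ v ∈ Finset.Icc 1 (Nat.sqrt n), e (v * (u * θ))‖ ≤ mn n θ u := by
  have h1 : ‖∑ v ∈ Finset.Icc 1 (Nat.sqrt n), e (v * (u * θ))‖ ≤ (n : ℝ) / u := by
    refine (h2.1 (u * θ) (Nat.sqrt n)).trans ?_
    have hu0 : (0 : ℝ) < u := by exact_mod_cast hu
    rw [le_div_iff₀ hu0]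
    have : Nat.sqrt n * u ≤ n := (Nat.mul_le_mul_left _ hus).trans (Nat.sqrt_le n)
    exact_mod_cast this
  unfold mn
  split_ifs with h
  · exact h1
  · exact le_min h1 (h2.2 (u * θ) (Nat.sqrt n) h)

end MinX

open MinX in
theorem min_st (h1 : WSt) (h2 : GeoSt) (h3 : HypSt) (h4 : VinSt) : MinSt := by
  obtain ⟨C, hC, hV⟩ := h4
  refine ⟨9 * C, by positivity, ?_⟩
  intro θ n q a hn hq hqn hgcd hθ
  have hn0 : (0 : ℝ) < n := by exact_mod_cast hn
  have hq0 : (0 : ℝ) < q := by exact_mod_cast hq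
  have hlog : 0 ≤ Real.log n := Real.log_nonneg (by exact_mod_cast hn)
  have hs := hV θ n q (Nat.sqrt n) a hn hq (Nat.sqrt_le_self n) hqn hgcd hθ
  have hS : ‖S θ n‖ ≤ 3 * ∑ u ∈ Finset.Icc 1 (Nat.sqrt n), mn n θ u := by
    rw [h3 θ n]
    have e1 : ‖∑ u ∈ Finset.Icc 1 (Nat.sqrt n), ∑ v ∈ Finset.Icc 1 (n / u), e (v * (u * θ))‖ ≤
        ∑ u ∈ Finset.Icc 1 (Nat.sqrt n), mn n θ u :=
      norm_sum_le_of_le _ fun u _ => le_mn1 h2 θ n u
    have e2 : ‖∑ u ∈ Finset.Icc 1 (Nat.sqrt n), ∑ v ∈ Finset.Icc 1 (Nat.sqrt n),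
        e (v * (u * θ))‖ ≤ ∑ u ∈ Finset.Icc 1 (Nat.sqrt n), mn n θ u :=
      norm_sum_le_of_le _ fun u hu => by
        rw [Finset.mem_Icc] at hu
        exact le_mn2 h2 θ n u hu.1 hu.2
    refine (norm_sub_le _ _).trans ?_
    rw [norm_mul, Complex.norm_ofNat]
    linarith
  have hW := h1.2.2.1 n hn
  have hW0 := h1.1 n hn
  have hVn : ‖V θ n‖ = ‖S θ n‖ / W n := by
    unfold V
    rw [norm_div, Complex.norm_real, Real.norm_of_nonneg hW0.le]
  have hsq : ((Nat.sqrt n : ℕ) : ℝ) ≤ Real.sqrt n := Real.nat_sqrt_le_real_sqrt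
  have hsn : 0 < Real.sqrt n := Real.sqrt_pos.2 hn0
  have hsnn : Real.sqrt n * Real.sqrt n = n := Real.mul_self_sqrt hn0.le
  rw [hVn, div_le_iff₀ hW0]
  have hL : 0 < 1 + Real.log n := by linarith
  have hB : 0 ≤ 9 * C * (1 / (q : ℝ) + 1 / Real.sqrt n + q / n) := by positivity
  calc ‖S θ n‖ ≤ 3 * (C * ((n : ℝ) / q + (Nat.sqrt n : ℕ) + q) * (1 + Real.log n)) := by
        linarith
    _ ≤ 3 * (C * ((n : ℝ) / q + Real.sqrt n + q) * (1 + Real.log n)) := by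
        have : (n : ℝ) / q + (Nat.sqrt n : ℕ) + q ≤ (n : ℝ) / q + Real.sqrt n + q := by linarith
        have h5 := mul_le_mul_of_nonneg_right (mul_le_mul_of_nonneg_left this hC.le) hL.le
        linarith
    _ = 9 * C * (1 / (q : ℝ) + 1 / Real.sqrt n + q / n) * ((n : ℝ) / 3 * (1 + Real.log n)) := by
        have h6 : 1 / Real.sqrt n * n = Real.sqrt n := by
          rw [one_div, inv_mul_eq_div, div_eq_iff hsn.ne', hsnn]
        have h7 : (1 / (q : ℝ) + 1 / Real.sqrt n + q / n) * n = (n : ℝ) / q + Real.sqrt n + q := by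
          rw [add_mul, add_mul, h6]
          field_simp
        linear_combination (-3 * C * (1 + Real.log n)) * h7
    _ ≤ 9 * C * (1 / (q : ℝ) + 1 / Real.sqrt n + q / n) * W n :=
        mul_le_mul_of_nonneg_left hW hB

end Pool.Agent.R204.DSQ
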