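import Mathlib
import Pool.Agent.R204.DSQ.Stm

namespace Pool.Agent.R204.DSQ

open Finset

namespace NQ

/-- residue of `x c` modulo `q`, as a natural number -/
def rs (q : ℕ) (c : ℤ) (x : ℕ) : ℕ := (((x : ℤ) * c) % (q : ℤ)).toNat

theorem rs_cast {q : ℕ} (hq : 1 ≤ q) (c : ℤ) (x : ℕ) :
    ((rs q c x : ℕ) : ℤ) = ((x : ℤ) * c) % (q : ℤ) :=
  Int.toNat_of_nonneg (Int.emod_nonneg _ (by omega))

theorem rs_lt {q : ℕ} (hq : 1 ≤ q) (c : ℤ) (x : ℕ) : rs q c x < q := by
  have h1 := rs_cast hq c x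
  have h2 : ((x : ℤ) * c) % (q : ℤ) < q := Int.emod_lt_of_pos _ (by omega)
  omega

theorem dvd_of {q : ℕ} {c : ℤ} (hc : Int.gcd c q = 1) {z : ℤ} (h : (q : ℤ) ∣ z * c) : (q : ℤ) ∣ z :=
  Int.dvd_of_dvd_mul_left_of_gcd_one h (by rw [Int.gcd_comm]; exact hc)

theorem rs_pos {q : ℕ} (hq : 1 ≤ q) {c : ℤ} (hc : Int.gcd c q = 1) {x : ℕ} (hx : ¬ q ∣ x) :
    1 ≤ rs q c x := by
  by_contra h0
  have h1 := rs_cast hq c x
  have h2 : ((x : ℤ) * c) % (q : ℤ) = 0 := by omega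
  exact hx (Int.natCast_dvd_natCast.1 (dvd_of hc (Int.dvd_of_emod_eq_zero h2)))

theorem rs_add {q : ℕ} (c : ℤ) (m x : ℕ) : rs q c (m * q + x) = rs q c x := by
  unfold rs
  congr 1
  push_cast
  have : ((m : ℤ) * q + x) * c = x * c + q * (m * c) := by ring
  rw [this, Int.add_mul_emod_self_left]

theorem rs_inj {q : ℕ} (hq : 1 ≤ q) {c : ℤ} (hc : Int.gcd c q = 1) {x y : ℕ} (hx : x < q)
    (hy : y < q) (h : rs q c x = rs q c y) : x = y := by
  have h1 := rs_cast hq c x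
  have h2 := rs_cast hq c y
  have h3 : ((y : ℤ) * c) % (q : ℤ) = ((x : ℤ) * c) % (q : ℤ) := by rw [← h1, ← h2, h]
  have h4 : (q : ℤ) ∣ ((x : ℤ) - y) * c := by
    have := Int.ModEq.dvd (show (y : ℤ) * c ≡ (x : ℤ) * c [ZMOD q] from h3)
    rwa [sub_mul]
  have h5 := dvd_of hc h4
  obtain ⟨k, hk⟩ := h5
  have h6 : k = 0 := by
    by_contra hk0
    rcases lt_or_gt_of_ne hk0 with h | h
    · have : (q : ℤ) * k ≤ (q : ℤ) * (-1) := mul_le_mul_of_nonneg_left (by omega) (by omega)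
      omega
    · have : (q : ℤ) * 1 ≤ (q : ℤ) * k := mul_le_mul_of_nonneg_left (by omega) (by omega)
      omega
  rw [h6] at hk
  omega

theorem emod_le_self {z : ℤ} {q : ℕ} (h : 0 ≤ z) : z % (q : ℤ) ≤ z := by
  have h1 := Int.emod_add_mul_ediv z q
  have h2 : 0 ≤ z / (q : ℤ) := Int.ediv_nonneg h (by positivity)
  have h3 : (0 : ℤ) ≤ (q : ℤ) * (z / q) := mul_nonneg (by positivity) h2
  linarith

/-- one summand -/
noncomputable def G (q : ℕ) (c : ℤ) (x : ℕ) : ℝ := if q ∣ x then 0 else (q : ℝ) / rs q c x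

theorem G_nonneg (q : ℕ) (c : ℤ) (x : ℕ) : 0 ≤ G q c x := by
  unfold G
  split_ifs
  · exact le_rfl
  · positivity

theorem G_add {q : ℕ} (c : ℤ) (m x : ℕ) : G q c (m * q + x) = G q c x := by
  unfold G
  have : (q ∣ m * q + x) ↔ q ∣ x := (Nat.dvd_add_right (Dvd.intro_left m rfl))
  simp only [this, rs_add]

theorem sum_G {q : ℕ} (c : ℤ) (m : ℕ) :
    ∑ x ∈ range (m * q), G q c x = m * ∑ x ∈ range q, G q c x := by
  induction m with
  | zero => simp
  | succ m ih =>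
    rw [Nat.succ_mul, sum_range_add, ih]
    simp only [G_add]
    push_cast
    ring

theorem sum_block {q : ℕ} (hq : 1 ≤ q) {c : ℤ} (hc : Int.gcd c q = 1) :
    ∑ x ∈ range q, G q c x ≤ q * (1 + Real.log q) := by
  unfold G
  have h1 : ∑ x ∈ range q, (if q ∣ x then (0 : ℝ) else (q : ℝ) / rs q c x) =
      ∑ x ∈ (range q).filter (fun x => ¬ q ∣ x), (q : ℝ) / rs q c x := by
    rw [sum_filter]
    refine sum_congr rfl fun x _ => ?_
    by_cases h : q ∣ x <;> simp [h]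
  rw [h1]
  have h2 : ∑ x ∈ (range q).filter (fun x => ¬ q ∣ x), (q : ℝ) / rs q c x =
      ∑ r ∈ ((range q).filter (fun x => ¬ q ∣ x)).image (rs q c), (q : ℝ) / r := by
    rw [sum_image]
    intro x hx y hy hxy
    have hx' := (mem_filter.1 (Finset.mem_coe.1 hx)).1
    have hy' := (mem_filter.1 (Finset.mem_coe.1 hy)).1
    exact rs_inj hq hc (mem_range.1 hx') (mem_range.1 hy') hxy
  rw [h2]
  have h3 : ((range q).filter (fun x => ¬ q ∣ x)).image (rs q c) ⊆ Icc 1 q := by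
    intro r hr
    obtain ⟨x, hx, rfl⟩ := mem_image.1 hr
    have hx' := (mem_filter.1 hx).2
    exact mem_Icc.2 ⟨rs_pos hq hc hx', (rs_lt hq c x).le⟩
  refine (sum_le_sum_of_subset_of_nonneg h3 (fun r _ _ => by positivity)).trans ?_
  have h4 : ∑ r ∈ Icc 1 q, (q : ℝ) / r = q * ∑ r ∈ Icc 1 q, ((r : ℝ))⁻¹ := by
    rw [mul_sum]
    refine sum_congr rfl fun r _ => ?_
    rw [div_eq_mul_inv]
  rw [h4]
  refine mul_le_mul_of_nonneg_left ?_ (by positivity)
  have h5 := harmonic_le_one_add_log q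
  rw [harmonic_eq_sum_Icc] at h5
  push_cast at h5
  exact h5

theorem full_sum {q : ℕ} (hq : 1 ≤ q) {c : ℤ} (hc : Int.gcd c q = 1) (U : ℕ) :
    ∑ u ∈ (Icc 1 U).filter (fun u => ¬ q ∣ u), (q : ℝ) / rs q c u ≤
      ((U : ℝ) + q) * (1 + Real.log q) := by
  have h1 : ∑ u ∈ (Icc 1 U).filter (fun u => ¬ q ∣ u), (q : ℝ) / rs q c u =
      ∑ u ∈ (Icc 1 U).filter (fun u => ¬ q ∣ u), G q c u := by
    refine sum_congr rfl fun u hu => ?_
    have := (mem_filter.1 hu).2
    simp [G, this]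
  rw [h1]
  have h2 : (Icc 1 U).filter (fun u => ¬ q ∣ u) ⊆ range ((U / q + 1) * q) := by
    intro u hu
    have hu' := mem_Icc.1 (mem_filter.1 hu).1
    refine mem_range.2 (lt_of_le_of_lt hu'.2 ?_)
    exact (Nat.div_lt_iff_lt_mul (by omega)).1 (Nat.lt_succ_self _)
  refine (sum_le_sum_of_subset_of_nonneg h2 (fun u _ _ => G_nonneg q c u)).trans ?_
  rw [sum_G]
  have hlog : 0 ≤ Real.log q := Real.log_natCast_nonneg q
  have h3 : (((U / q + 1 : ℕ) : ℝ)) * (q * (1 + Real.log q)) ≤ ((U : ℝ) + q) * (1 + Real.log q) := by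
    rw [← mul_assoc]
    refine mul_le_mul_of_nonneg_right ?_ (by linarith)
    have h4 : U / q * q ≤ U := Nat.div_mul_le_self U q
    have h5 : ((U / q : ℕ) : ℝ) * q ≤ U := by exact_mod_cast h4
    push_cast
    linarith
  refine le_trans ?_ h3
  exact mul_le_mul_of_nonneg_left (sum_block hq hc) (by positivity)

/-- the key lower bound -/
theorem dist_lb {θ : ℝ} {q U u : ℕ} {a : ℤ} (hq : 1 ≤ q) (hc : Int.gcd a q = 1)
    (hU : (U : ℝ) * |θ - a / q| ≤ 1 / (2 * q)) (huU : u ≤ U) (hu : ¬ q ∣ u) :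
    ((min (rs q a u) (rs q (-a) u) : ℕ) : ℝ) / (2 * q) ≤ dist1 (u * θ) := by
  unfold dist1
  set z := round ((u : ℝ) * θ) with hz
  have hq0 : (0 : ℝ) < q := by exact_mod_cast hq
  have hc' : Int.gcd (-a) q = 1 := by rw [Int.neg_gcd]; exact hc
  have hr1 := rs_pos hq hc hu
  have hr2 := rs_pos hq hc' hu
  set m := min (rs q a u) (rs q (-a) u) with hm
  have hm1 : 1 ≤ m := le_min hr1 hr2
  -- the integer `u a - z q`
  have hint : (m : ℤ) ≤ |(u : ℤ) * a - z * q| := by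
    have e1 := rs_cast hq a u
    have e2 := rs_cast hq (-a) u
    rcases le_or_gt 0 ((u : ℤ) * a - z * q) with h | h
    · have h1 : ((u : ℤ) * a - z * q) % q = ((u : ℤ) * a) % q := by
        have : (u : ℤ) * a - z * q = (u : ℤ) * a + q * (-z) := by ring
        rw [this, Int.add_mul_emod_self_left]
      have h2 : ((u : ℤ) * a - z * q) % q ≤ (u : ℤ) * a - z * q :=
        emod_le_self h
      have h3 : (m : ℤ) ≤ rs q a u := by exact_mod_cast min_le_left _ _
      rw [abs_of_nonneg h]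
      linarith
    · have h1 : (-((u : ℤ) * a - z * q)) % q = ((u : ℤ) * (-a)) % q := by
        have : -((u : ℤ) * a - z * q) = (u : ℤ) * (-a) + q * z := by ring
        rw [this, Int.add_mul_emod_self_left]
      have h2 : (-((u : ℤ) * a - z * q)) % q ≤ -((u : ℤ) * a - z * q) :=
        emod_le_self (by linarith)
      have h3 : (m : ℤ) ≤ rs q (-a) u := by exact_mod_cast min_le_right _ _
      rw [abs_of_neg h]
      linarith
  have hreal : (m : ℝ) / q ≤ |(u : ℝ) * a / q - z| := by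
    have h1 : |(u : ℝ) * a / q - z| = |(u : ℝ) * a - z * q| / q := by
      rw [← abs_of_pos hq0, ← abs_div, abs_of_pos hq0]
      congr 1
      field_simp
    rw [h1]
    refine div_le_div_of_nonneg_right ?_ hq0.le
    exact_mod_cast hint
  have hdiff : |(u : ℝ) * θ - (u : ℝ) * a / q| ≤ 1 / (2 * q) := by
    have h1 : (u : ℝ) * θ - (u : ℝ) * a / q = u * (θ - a / q) := by ring
    rw [h1, abs_mul, abs_of_nonneg (by positivity : (0 : ℝ) ≤ u)]
    refine le_trans ?_ hU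
    refine mul_le_mul_of_nonneg_right ?_ (abs_nonneg _)
    exact_mod_cast huU
  have htri : |(u : ℝ) * a / q - z| ≤ |(u : ℝ) * θ - z| + |(u : ℝ) * θ - (u : ℝ) * a / q| := by
    have h1 : (u : ℝ) * a / q - z = ((u : ℝ) * θ - z) - ((u : ℝ) * θ - (u : ℝ) * a / q) := by ring
    rw [h1]
    exact abs_sub _ _
  have hm1' : (1 : ℝ) ≤ m := by exact_mod_cast hm1
  have h9 : (m : ℝ) / (2 * q) ≤ (m : ℝ) / q - 1 / (2 * q) := by
    rw [le_sub_iff_add_le, ← add_div, div_le_div_iff₀ (by positivity) hq0]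
    nlinarith
  linarith

end NQ

open NQ in
theorem nq_st : NQSt := by
  refine ⟨2, by norm_num, ?_⟩
  intro θ q U a hq hc hU
  have hq0 : (0 : ℝ) < q := by exact_mod_cast hq
  have hc' : Int.gcd (-a) q = 1 := by rw [Int.neg_gcd]; exact hc
  have hpos : ∀ u : ℕ, u ≤ U → ¬ q ∣ u → 0 < dist1 (u * θ) := by
    intro u huU hu
    refine lt_of_lt_of_le ?_ (dist_lb hq hc hU huU hu)
    have hm1 : 1 ≤ min (rs q a u) (rs q (-a) u) := le_min (rs_pos hq hc hu) (rs_pos hq hc' hu)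
    have : (0 : ℝ) < ((min (rs q a u) (rs q (-a) u) : ℕ) : ℝ) := by exact_mod_cast hm1
    positivity
  refine ⟨fun u hu hqu => (hpos u (mem_Icc.1 hu).2 hqu).ne', ?_⟩
  have hterm : ∀ u ∈ (Icc 1 U).filter (fun u => ¬ q ∣ u),
      1 / (2 * dist1 (u * θ)) ≤ (q : ℝ) / rs q a u + (q : ℝ) / rs q (-a) u := by
    intro u hu
    have huU := (mem_Icc.1 (mem_filter.1 hu).1).2
    have hqu := (mem_filter.1 hu).2
    have h1 := dist_lb hq hc hU huU hqu
    have h2 := hpos u huU hqu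
    have hr1 : (0 : ℝ) < rs q a u := by exact_mod_cast rs_pos hq hc hqu
    have hr2 : (0 : ℝ) < rs q (-a) u := by exact_mod_cast rs_pos hq hc' hqu
    have hm1 : 1 ≤ min (rs q a u) (rs q (-a) u) := le_min (rs_pos hq hc hqu) (rs_pos hq hc' hqu)
    have hm0 : (0 : ℝ) < ((min (rs q a u) (rs q (-a) u) : ℕ) : ℝ) := by exact_mod_cast hm1
    have h3 : 1 / (2 * dist1 (u * θ)) ≤ (q : ℝ) / ((min (rs q a u) (rs q (-a) u) : ℕ) : ℝ) := by
      rw [div_le_div_iff₀ (by positivity) hm0]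
      rw [div_le_iff₀ (by positivity)] at h1
      linarith
    refine h3.trans ?_
    rcases le_total (rs q a u) (rs q (-a) u) with h | h
    · rw [min_eq_left h]
      have : 0 ≤ (q : ℝ) / rs q (-a) u := by positivity
      linarith
    · rw [min_eq_right h]
      have : 0 ≤ (q : ℝ) / rs q a u := by positivity
      linarith
  refine (sum_le_sum hterm).trans ?_
  rw [sum_add_distrib]
  have h1 := full_sum hq hc U
  have h2 := full_sum hq hc' U
  linarith

end Pool.Agent.R204.DSQ
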