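import Mathlib
import Pool.Agent.R204.DSQ.Stm

/-!
DSQ-QQ: major arc main term with the Euler constant.
-/

namespace Pool.Agent.R204.DSQ

open Finset

namespace QuAux

theorem e_sub_one (x : ℝ) : ‖e x - 1‖ ≤ 2 * Real.pi * |x| := by
  have h1 : e x = Complex.exp (Complex.I * ((2 * Real.pi * x : ℝ) : ℂ)) := by
    unfold e
    congr 1
    push_cast
    ring
  rw [h1]
  refine Real.norm_exp_I_mul_ofReal_sub_one_le.trans (le_of_eq ?_)
  rw [Real.norm_eq_abs, abs_mul, abs_of_pos (by positivity : (0 : ℝ) < 2 * Real.pi)]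

theorem esum (x : ℝ) (m : ℕ) :
    ‖∑ v ∈ Icc 1 m, e (v * x) - (m : ℂ)‖ ≤ 2 * Real.pi * (m : ℝ) ^ 2 * |x| := by
  have h1 : (m : ℂ) = ∑ _v ∈ Icc 1 m, (1 : ℂ) := by simp
  rw [h1, ← Finset.sum_sub_distrib]
  refine (norm_sum_le _ _).trans ?_
  have h2 : ∀ v ∈ Icc 1 m, ‖e (v * x) - 1‖ ≤ 2 * Real.pi * ((m : ℝ) * |x|) := by
    intro v hv
    rw [Finset.mem_Icc] at hv
    refine (e_sub_one _).trans ?_
    rw [abs_mul, Nat.abs_cast]
    have : (v : ℝ) ≤ m := by exact_mod_cast hv.2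
    gcongr
  refine (Finset.sum_le_sum h2).trans (le_of_eq ?_)
  rw [Finset.sum_const, Nat.card_Icc, Nat.add_sub_cancel, nsmul_eq_mul]
  ring

/-- harmonic number as a real -/
noncomputable def H (T : ℕ) : ℝ := ∑ w ∈ Icc 1 T, 1 / (w : ℝ)

theorem H_eq (T : ℕ) : H T = ((harmonic T : ℚ) : ℝ) := by
  rw [harmonic_eq_sum_Icc]
  push_cast
  unfold H
  simp

theorem H_le (T : ℕ) : H T ≤ 1 + Real.log T := by
  rw [H_eq]
  exact harmonic_le_one_add_log T

theorem H_lower (T : ℕ) (hT : 1 ≤ T) : 0 ≤ H T - Real.log T - Real.eulerMascheroniConstant := by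
  have h := Real.eulerMascheroniConstant_lt_eulerMascheroniSeq' T
  unfold Real.eulerMascheroniSeq' at h
  rw [if_neg (by omega), ← H_eq] at h
  linarith

theorem H_upper (T : ℕ) (hT : 1 ≤ T) :
    H T - Real.log T - Real.eulerMascheroniConstant ≤ 1 / T := by
  have h := Real.eulerMascheroniSeq_lt_eulerMascheroniConstant T
  unfold Real.eulerMascheroniSeq at h
  rw [← H_eq] at h
  have hT' : (1 : ℝ) ≤ T := by exact_mod_cast hT
  have h2 : Real.log (T + 1) - Real.log T ≤ 1 / T := by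
    rw [← Real.log_div (by linarith) (by linarith)]
    have h3 : ((T : ℝ) + 1) / T = 1 + 1 / T := by
      field_simp
    rw [h3]
    have h4 := Real.log_le_sub_one_of_pos (show (0 : ℝ) < 1 + 1 / T by positivity)
    linarith
  linarith

end QuAux

open QuAux in
theorem qq_st : QQSt := by
  refine ⟨20, by norm_num, ?_⟩
  intro β n q hq hn hβ
  set s := Nat.sqrt n with hs
  set T := s / q with hT
  have hπ := Real.pi_pos
  have hπ2 : Real.pi < 3.15 := Real.pi_lt_d2
  have hqR : (1 : ℝ) ≤ q := by exact_mod_cast hq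
  have hnR : 16 * (q : ℝ) ^ 2 ≤ n := by exact_mod_cast hn
  have hn1 : (1 : ℝ) ≤ n := by nlinarith
  have hn0 : (0 : ℝ) < n := by linarith
  -- s facts
  have hs1 : s ^ 2 ≤ n := Nat.sqrt_le' n
  have hs2 : n < (s + 1) ^ 2 := Nat.lt_succ_sqrt' n
  have hs1R : (s : ℝ) ^ 2 ≤ n := by exact_mod_cast hs1
  have hs2R : (n : ℝ) < ((s : ℝ) + 1) ^ 2 := by exact_mod_cast hs2
  have hs0 : (0 : ℝ) ≤ s := Nat.cast_nonneg _
  set r := Real.sqrt n with hr
  have hr2 : r ^ 2 = n := Real.sq_sqrt hn0.le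
  have hr0 : 0 ≤ r := Real.sqrt_nonneg _
  have hr1 : 1 ≤ r := by
    rw [hr]
    exact Real.one_le_sqrt.2 hn1
  have hsr : (s : ℝ) ≤ r := by
    rw [hr]
    exact Real.le_sqrt_of_sq_le hs1R
  have hrs : r < s + 1 := by
    rw [hr, Real.sqrt_lt' (by linarith)]
    exact hs2R
  have hr4 : 4 * (q : ℝ) ≤ r := by
    rw [hr]
    apply Real.le_sqrt_of_sq_le
    nlinarith
  -- T facts
  have hT1 : T * q ≤ s := Nat.div_mul_le_self s q
  have hT2 : s < (T + 1) * q := by
    rw [hT]
    have := Nat.lt_succ_iff.2 (le_refl (s / q))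
    exact (Nat.div_lt_iff_lt_mul (by omega)).1 (Nat.lt_succ_self _)
  have hT1R : (T : ℝ) * q ≤ s := by exact_mod_cast hT1
  have hT2R : (s : ℝ) < (T + 1) * q := by exact_mod_cast hT2
  have hTpos : 1 ≤ T := by
    rcases Nat.eq_zero_or_pos T with h0 | h0
    · exfalso
      rw [h0] at hT2R
      push_cast at hT2R
      linarith
    · exact h0
  have hTR : (1 : ℝ) ≤ T := by exact_mod_cast hTpos
  have hTs : (T : ℝ) ≤ s := by
    refine le_trans ?_ hT1R
    have := mul_le_mul_of_nonneg_left hqR (show (0 : ℝ) ≤ T by linarith)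
    linarith
  -- reals
  set A := ∑ w ∈ Finset.Icc 1 T, ∑ v ∈ Finset.Icc 1 (n / (q * w)), e (v * (q * w * β)) with hA
  set B := ∑ w ∈ Finset.Icc 1 T, ∑ v ∈ Finset.Icc 1 s, e (v * (q * w * β)) with hB
  set A0 : ℝ := ∑ w ∈ Finset.Icc 1 T, ((n / (q * w) : ℕ) : ℝ) with hA0
  set B0 : ℝ := (T : ℝ) * s with hB0
  have hnβ : 0 ≤ (n : ℝ) * |β| := by positivity
  have hlogn : 0 ≤ Real.log n := Real.log_nonneg hn1
  have hX : 0 ≤ (n : ℝ) / q * (n * |β|) := by positivity
  -- first error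
  have e1 : ‖A - (A0 : ℂ)‖ ≤ 2 * Real.pi * ((n : ℝ) / q * (n * |β|) * (1 + Real.log n)) := by
    have h1 : (A0 : ℂ) = ∑ w ∈ Finset.Icc 1 T, ((n / (q * w) : ℕ) : ℂ) := by
      rw [hA0]
      push_cast
      rfl
    rw [hA, h1, ← Finset.sum_sub_distrib]
    refine (norm_sum_le _ _).trans ?_
    have h2 : ∀ w ∈ Icc 1 T, ‖∑ v ∈ Finset.Icc 1 (n / (q * w)), e (v * (q * w * β)) -
        ((n / (q * w) : ℕ) : ℂ)‖ ≤ 2 * Real.pi * ((n : ℝ) / q * (n * |β|)) * (1 / (w : ℝ)) := by
      intro w hw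
      rw [Finset.mem_Icc] at hw
      have hw1 : (1 : ℝ) ≤ w := by exact_mod_cast hw.1
      refine (esum _ _).trans ?_
      have h3 : ((n / (q * w) : ℕ) : ℝ) ≤ (n : ℝ) / (q * w) := by
        have := Nat.cast_div_le (α := ℝ) (m := n) (n := q * w)
        push_cast at this
        exact this
      have h4 : ((n / (q * w) : ℕ) : ℝ) ^ 2 ≤ ((n : ℝ) / (q * w)) ^ 2 :=
        pow_le_pow_left₀ (Nat.cast_nonneg _) h3 2
      rw [abs_mul, abs_of_pos (by positivity : (0 : ℝ) < q * w)]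
      calc 2 * Real.pi * ((n / (q * w) : ℕ) : ℝ) ^ 2 * (q * w * |β|)
          ≤ 2 * Real.pi * ((n : ℝ) / (q * w)) ^ 2 * (q * w * |β|) := by gcongr
        _ = 2 * Real.pi * ((n : ℝ) / q * (n * |β|)) * (1 / (w : ℝ)) := by
          field_simp
    refine (Finset.sum_le_sum h2).trans ?_
    rw [← Finset.mul_sum]
    have h5 : ∑ w ∈ Icc 1 T, 1 / (w : ℝ) ≤ 1 + Real.log n := by
      refine (H_le T).trans ?_
      have h6 : (T : ℝ) ≤ n := by nlinarith
      linarith [Real.log_le_log (by linarith) h6]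
    calc 2 * Real.pi * ((n : ℝ) / q * (n * |β|)) * ∑ w ∈ Icc 1 T, 1 / (w : ℝ)
        ≤ 2 * Real.pi * ((n : ℝ) / q * (n * |β|)) * (1 + Real.log n) := by gcongr
      _ = _ := by ring
  -- second error
  have e2 : ‖B - (B0 : ℂ)‖ ≤ 2 * Real.pi * ((n : ℝ) / q * (n * |β|) * (1 + Real.log n)) := by
    have h1 : (B0 : ℂ) = ∑ _w ∈ Finset.Icc 1 T, (s : ℂ) := by
      rw [hB0]
      simp
    rw [hB, h1, ← Finset.sum_sub_distrib]
    refine (norm_sum_le _ _).trans ?_
    have h2 : ∀ w ∈ Icc 1 T, ‖∑ v ∈ Finset.Icc 1 s, e (v * (q * w * β)) - (s : ℂ)‖ ≤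
        2 * Real.pi * ((n : ℝ) * (q * T * |β|)) := by
      intro w hw
      rw [Finset.mem_Icc] at hw
      have hw1 : (w : ℝ) ≤ T := by exact_mod_cast hw.2
      refine (esum _ _).trans ?_
      rw [abs_mul, abs_of_nonneg (by positivity : (0 : ℝ) ≤ q * w)]
      calc 2 * Real.pi * (s : ℝ) ^ 2 * (q * w * |β|)
          ≤ 2 * Real.pi * n * (q * T * |β|) := by gcongr
        _ = _ := by ring
    refine (Finset.sum_le_sum h2).trans ?_
    rw [Finset.sum_const, Nat.card_Icc, nsmul_eq_mul, Nat.add_sub_cancel]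
    have h3 : (T : ℝ) * (q * T) ≤ n / q := by
      rw [le_div_iff₀ (by linarith)]
      nlinarith
    calc (T : ℝ) * (2 * Real.pi * ((n : ℝ) * (q * T * |β|)))
        = 2 * Real.pi * ((T * (q * T)) * (n * |β|)) := by ring
      _ ≤ 2 * Real.pi * ((n / q) * (n * |β|)) := by gcongr
      _ ≤ 2 * Real.pi * ((n : ℝ) / q * (n * |β|) * (1 + Real.log n)) := by
        have : (n : ℝ) / q * (n * |β|) ≤ (n : ℝ) / q * (n * |β|) * (1 + Real.log n) := by
          nlinarith
        gcongr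
  -- main terms
  have f1 : |A0 - (n : ℝ) / q * H T| ≤ T := by
    have h1 : A0 - (n : ℝ) / q * H T = ∑ w ∈ Icc 1 T, (((n / (q * w) : ℕ) : ℝ) -
        (n : ℝ) / (q * w)) := by
      rw [Finset.sum_sub_distrib, hA0]
      unfold H
      rw [Finset.mul_sum]
      congr 1
      refine Finset.sum_congr rfl (fun w hw => ?_)
      rw [Finset.mem_Icc] at hw
      have hw1 : (1 : ℝ) ≤ w := by exact_mod_cast hw.1
      field_simp
    rw [h1]
    refine (Finset.abs_sum_le_sum_abs _ _).trans ?_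
    have h2 : ∀ w ∈ Icc 1 T, |((n / (q * w) : ℕ) : ℝ) - (n : ℝ) / (q * w)| ≤ 1 := by
      intro w hw
      rw [Finset.mem_Icc] at hw
      have h3 : ((n / (q * w) : ℕ) : ℝ) ≤ (n : ℝ) / (q * w) := by
        have := Nat.cast_div_le (α := ℝ) (m := n) (n := q * w)
        push_cast at this
        exact this
      have h4 : (n : ℝ) / (q * w) < ((n / (q * w) : ℕ) : ℝ) + 1 := by
        have h5 : n < (n / (q * w) + 1) * (q * w) := by
          have hqw : 0 < q * w := Nat.mul_pos (by omega) (by omega)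
          exact (Nat.div_lt_iff_lt_mul hqw).1 (Nat.lt_succ_self _)
        have h6 : (n : ℝ) < (((n / (q * w) : ℕ) : ℝ) + 1) * (q * w) := by exact_mod_cast h5
        have hw1 : (1 : ℝ) ≤ w := by exact_mod_cast hw.1
        rw [div_lt_iff₀ (by positivity)]
        exact h6
      rw [abs_le]
      constructor <;> linarith
    refine (Finset.sum_le_sum h2).trans (le_of_eq ?_)
    rw [Finset.sum_const, Nat.card_Icc, nsmul_eq_mul, Nat.add_sub_cancel, mul_one]
  have f2 : |B0 - (n : ℝ) / q| ≤ 3 * r := by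
    have h1 : B0 ≤ (n : ℝ) / q := by
      rw [hB0, le_div_iff₀ (by linarith)]
      nlinarith
    have h2 : (n : ℝ) / q - 3 * s ≤ B0 := by
      have h3 : (n : ℝ) / q ≤ ((s : ℝ) ^ 2 + 2 * s) / q := by
        apply div_le_div_of_nonneg_right _ (by linarith)
        have : n < s ^ 2 + 2 * s + 1 := by nlinarith
        have h4 : n ≤ s ^ 2 + 2 * s := by omega
        exact_mod_cast h4
      have h5 : ((s : ℝ) ^ 2 + 2 * s) / q ≤ B0 + 3 * s := by
        rw [div_le_iff₀ (by linarith), hB0]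
        nlinarith
      linarith
    rw [abs_le]
    constructor <;> linarith
  have f3 : |H T - Real.eulerMascheroniConstant - (Real.log n / 2 - Real.log q)| ≤ 6 * q / r := by
    have h1 := H_lower T hTpos
    have h2 := H_upper T hTpos
    have hTq : r - 2 * q ≤ T * q := by nlinarith
    have hTq2 : r / 2 ≤ T * q := by linarith
    have hTq3 : (T : ℝ) * q ≤ r := hT1R.trans hsr
    have hTq0 : 0 < (T : ℝ) * q := by positivity
    have h3 : 1 / (T : ℝ) ≤ 2 * q / r := by
      rw [div_le_div_iff₀ (by linarith) (by linarith)]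
      linarith
    have hlogn2 : Real.log n / 2 = Real.log r := by
      rw [← hr2, Real.log_pow]
      push_cast
      ring
    have h4 : Real.log T - (Real.log r - Real.log q) = Real.log (T * q / r) := by
      rw [Real.log_div (by positivity) (by positivity), Real.log_mul (by positivity)
        (by positivity)]
      ring
    have h5 : Real.log (T * q / r) ≤ 0 := by
      apply Real.log_nonpos (by positivity)
      rw [div_le_one (by linarith)]
      exact hTq3
    have h6 : -(4 * q / r) ≤ Real.log (T * q / r) := by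
      have h7 := Real.log_le_sub_one_of_pos (show 0 < r / (T * q) by positivity)
      have h8 : Real.log (r / (T * q)) = - Real.log (T * q / r) := by
        rw [← Real.log_inv, inv_div]
      have h9 : r / (T * q) - 1 ≤ 4 * q / r := by
        rw [div_sub_one hTq0.ne', div_le_div_iff₀ hTq0 (by linarith)]
        nlinarith
      linarith
    rw [hlogn2]
    have h10 : 2 * (q : ℝ) / r + 4 * q / r = 6 * q / r := by ring
    have h11 : 0 ≤ 2 * (q : ℝ) / r := by positivity
    have h12 : 0 ≤ 4 * (q : ℝ) / r := by positivity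
    rw [abs_le]
    constructor <;> linarith
  have f4 : |2 * A0 - B0 - (n : ℝ) / q * (Real.log n - 2 * Real.log q +
      2 * Real.eulerMascheroniConstant - 1)| ≤ 17 * r := by
    have h1 : 2 * A0 - B0 - (n : ℝ) / q * (Real.log n - 2 * Real.log q +
      2 * Real.eulerMascheroniConstant - 1) = 2 * (A0 - (n : ℝ) / q * H T) - (B0 - (n : ℝ) / q) +
      2 * ((n : ℝ) / q * (H T - Real.eulerMascheroniConstant -
        (Real.log n / 2 - Real.log q))) := by
      ring
    have h2 : |(n : ℝ) / q * (H T - Real.eulerMascheroniConstant -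
        (Real.log n / 2 - Real.log q))| ≤ 6 * r := by
      rw [abs_mul, abs_of_nonneg (by positivity : 0 ≤ (n : ℝ) / q)]
      calc (n : ℝ) / q * |H T - Real.eulerMascheroniConstant -
            (Real.log n / 2 - Real.log q)| ≤ (n : ℝ) / q * (6 * q / r) := by gcongr
        _ = 6 * (n / r) := by field_simp
        _ = 6 * r := by
          rw [← hr2]
          field_simp
    have hT' : (T : ℝ) ≤ r := hTs.trans hsr
    rw [h1]
    rw [abs_le] at f1 f2 h2 ⊢
    constructor <;> linarith [f1.1, f1.2, f2.1, f2.2, h2.1, h2.2]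
  -- conclusion
  set M : ℝ := (n : ℝ) / q * (Real.log n - 2 * Real.log q +
      2 * Real.eulerMascheroniConstant - 1) with hM
  have hsplit : (2 * A - B) - (M : ℂ) = 2 * (A - (A0 : ℂ)) - (B - (B0 : ℂ)) +
      ((2 * A0 - B0 - M : ℝ) : ℂ) := by
    push_cast
    ring
  rw [hsplit]
  have g1 : ‖2 * (A - (A0 : ℂ)) - (B - (B0 : ℂ)) + ((2 * A0 - B0 - M : ℝ) : ℂ)‖ ≤
      2 * ‖A - (A0 : ℂ)‖ + ‖B - (B0 : ℂ)‖ + |2 * A0 - B0 - M| := by
    refine (norm_add_le _ _).trans ?_
    rw [Complex.norm_real, Real.norm_eq_abs]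
    gcongr
    refine (norm_sub_le _ _).trans ?_
    rw [norm_mul]
    simp
  refine g1.trans ?_
  have hY : 0 ≤ (n : ℝ) / q * (n * |β|) * (1 + Real.log n) := by positivity
  have hY2 : (6 * Real.pi) * ((n : ℝ) / q * (n * |β|) * (1 + Real.log n)) ≤
      20 * ((n : ℝ) / q * (n * |β|) * (1 + Real.log n)) :=
    mul_le_mul_of_nonneg_right (by linarith) hY
  linarith [e1, e2, f4]

end Pool.Agent.R204.DSQ
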