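import Mathlib
import Pool.Agent.R204.DSQ.Stm

/-! # DSQ-SUM: sum over scales -/

namespace Pool.Agent.R204.DSQ

open MeasureTheory Finset

namespace SumAux

/-- inverse square root of `2^k` -/
noncomputable def dl (k : ℕ) : ℝ := 1 / Real.sqrt (2 ^ k)

lemma dl_pos (k : ℕ) : 0 < dl k := by
  unfold dl
  positivity

lemma dl_sq (k : ℕ) : dl k * dl k = 1 / 2 ^ k := by
  unfold dl
  rw [div_mul_div_comm, one_mul, Real.mul_self_sqrt (by positivity)]

lemma dl_le (k : ℕ) : dl k ≤ (3 / 4) ^ k := by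
  have h1 : ((4 : ℝ) / 3) ^ k ≤ Real.sqrt (2 ^ k) := by
    apply Real.le_sqrt_of_sq_le
    rw [← pow_mul, mul_comm, pow_mul]
    exact pow_le_pow_left₀ (by norm_num) (by norm_num) k
  have h2 : (0 : ℝ) < (4 / 3) ^ k := by positivity
  unfold dl
  calc 1 / Real.sqrt (2 ^ k) ≤ 1 / (4 / 3) ^ k := one_div_le_one_div_of_le h2 h1
    _ = (3 / 4) ^ k := by
      rw [one_div, ← inv_pow]
      norm_num

lemma dl_le_one (k : ℕ) : dl k ≤ 1 :=
  le_trans (dl_le k) (pow_le_one₀ (by norm_num) (by norm_num))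

lemma geo (K : ℕ) : ∑ k ∈ range K, ((3 : ℝ) / 4) ^ k = 4 - 4 * (3 / 4) ^ K := by
  induction K with
  | zero => simp
  | succ K ih =>
    rw [sum_range_succ, ih, pow_succ]
    ring

lemma sum_dl (K : ℕ) : ∑ k ∈ range K, dl k ≤ 4 := by
  calc ∑ k ∈ range K, dl k ≤ ∑ k ∈ range K, ((3 : ℝ) / 4) ^ k :=
        sum_le_sum fun k _ => dl_le k
    _ = 4 - 4 * (3 / 4) ^ K := geo K
    _ ≤ 4 := by
      have : (0 : ℝ) ≤ (3 / 4) ^ K := by positivity
      linarith

noncomputable def ph (B : ℝ) (k : ℕ) : ℝ := if 2 ^ k * B ≤ 1 then 2 ^ k * B else 1 / (2 ^ k * B)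

lemma ph_nonneg {B : ℝ} (hB : 0 ≤ B) (k : ℕ) : 0 ≤ ph B k := by
  unfold ph
  split_ifs
  · positivity
  · positivity

lemma sum_ph_aux {B : ℝ} (hB : 0 ≤ B) (K : ℕ) :
    (2 ^ K * B ≤ 1 → ∑ k ∈ range K, ph B k ≤ 2 ^ K * B) ∧
    (1 < 2 ^ K * B → ∑ k ∈ range K, ph B k + 2 / (2 ^ K * B) ≤ 4) := by
  induction K with
  | zero =>
    refine ⟨fun h => by simpa using hB, fun h => ?_⟩
    simp only [pow_zero, one_mul, range_zero, sum_empty, zero_add] at h ⊢
    rw [div_le_iff₀ (by linarith)]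
    linarith
  | succ K ih =>
    obtain ⟨ih1, ih2⟩ := ih
    have hp : (2 : ℝ) ^ (K + 1) * B = 2 * (2 ^ K * B) := by rw [pow_succ]; ring
    rw [sum_range_succ, hp]
    set x : ℝ := 2 ^ K * B with hx
    have hx0 : 0 ≤ x := by positivity
    by_cases h : x ≤ 1
    · have hph : ph B K = x := by
        unfold ph
        rw [if_pos h]
      rw [hph]
      have h1 := ih1 h
      refine ⟨fun _ => by linarith, fun h2 => ?_⟩
      have h3 : 2 / (2 * x) ≤ 2 := by
        rw [div_le_iff₀ (by linarith)]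
        linarith
      linarith
    · have hph : ph B K = 1 / x := by
        unfold ph
        rw [if_neg h]
      rw [hph]
      push Not at h
      have h1 := ih2 h
      refine ⟨fun h2 => by linarith, fun _ => ?_⟩
      have h3 : 2 / (2 * x) = 1 / x := by
        field_simp
      have h4 : 2 / x = 1 / x + 1 / x := by ring
      rw [h3]
      linarith

lemma sum_ph {B : ℝ} (hB : 0 ≤ B) (K : ℕ) : ∑ k ∈ range K, ph B k ≤ 4 := by
  obtain ⟨h1, h2⟩ := sum_ph_aux hB K
  by_cases h : 2 ^ K * B ≤ 1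
  · linarith [h1 h]
  · push Not at h
    have h3 : (0 : ℝ) ≤ 2 / (2 ^ K * B) := by positivity
    linarith [h2 h]

noncomputable def lg (q k : ℕ) : ℝ :=
  if 16 * q ^ 2 ≤ 2 ^ k then (1 + Real.log q) / (k : ℝ) ^ 2 else 0

lemma log_nonneg' (q : ℕ) (hq : 1 ≤ q) : 0 ≤ Real.log q :=
  Real.log_nonneg (by exact_mod_cast hq)

lemma lg_nonneg (q k : ℕ) (hq : 1 ≤ q) : 0 ≤ lg q k := by
  have := log_nonneg' q hq
  unfold lg
  split_ifs
  · positivity
  · exact le_refl _

lemma log_bound (q k : ℕ) (hq : 1 ≤ q) (h : 16 * q ^ 2 ≤ 2 ^ k) : 1 + Real.log q ≤ k := by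
  have hl := log_nonneg' q hq
  have h1 : (16 : ℝ) * (q : ℝ) ^ 2 ≤ 2 ^ k := by exact_mod_cast h
  have hq' : (0 : ℝ) < q := by exact_mod_cast hq
  have h2 : Real.log (16 * (q : ℝ) ^ 2) ≤ Real.log (2 ^ k) := Real.log_le_log (by positivity) h1
  rw [Real.log_mul (by norm_num) (by positivity), Real.log_pow, Real.log_pow] at h2
  have h3 : (1 : ℝ) ≤ Real.log 16 := by
    rw [Real.le_log_iff_exp_le (by norm_num)]
    have := Real.exp_one_lt_d9
    linarith
  have h4 : Real.log 2 ≤ 1 := by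
    have := Real.log_two_lt_d9
    linarith
  have hk : (0 : ℝ) ≤ k := Nat.cast_nonneg k
  have h5 : (k : ℝ) * Real.log 2 ≤ k := by nlinarith
  push_cast at h2
  linarith

lemma sum_lg (q : ℕ) (hq : 1 ≤ q) (K : ℕ) : ∑ k ∈ range K, lg q k ≤ 2 := by
  have hex : ∃ k, 16 * q ^ 2 ≤ 2 ^ k := ⟨16 * q ^ 2, Nat.lt_two_pow_self.le⟩
  set k0 := Nat.find hex with hk0
  have hk0s : 16 * q ^ 2 ≤ 2 ^ k0 := Nat.find_spec hex
  have hk0p : 1 ≤ k0 := by
    rcases Nat.eq_zero_or_pos k0 with h | h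
    · rw [h] at hk0s
      have : 1 ≤ q ^ 2 := Nat.one_le_pow _ _ hq
      omega
    · exact h
  have hL := log_bound q k0 hq hk0s
  have hL0 := log_nonneg' q hq
  have h1 : ∑ k ∈ range K, lg q k ≤
      ∑ k ∈ Ioo (k0 - 1) K, (1 + Real.log q) * ((k : ℝ) ^ 2)⁻¹ := by
    have h2 : ∑ k ∈ range K, lg q k = ∑ k ∈ (range K).filter (fun k => 16 * q ^ 2 ≤ 2 ^ k),
        (1 + Real.log q) / (k : ℝ) ^ 2 := by
      rw [sum_filter]
      rfl
    rw [h2]
    have h3 : (range K).filter (fun k => 16 * q ^ 2 ≤ 2 ^ k) ⊆ Ioo (k0 - 1) K := by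
      intro k hk
      rw [mem_filter, mem_range] at hk
      rw [mem_Ioo]
      have : k0 ≤ k := Nat.find_min' hex hk.2
      omega
    refine le_trans (sum_le_sum_of_subset_of_nonneg h3 ?_) ?_
    · intro k _ _
      positivity
    · exact le_of_eq (sum_congr rfl fun k _ => by rw [div_eq_mul_inv])
  refine le_trans h1 ?_
  rw [← mul_sum]
  have h4 := sum_Ioo_inv_sq_le (α := ℝ) (k0 - 1) K
  have h5 : (((k0 - 1 : ℕ) : ℝ) + 1) = k0 := by
    have : k0 - 1 + 1 = k0 := by omega
    exact_mod_cast this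
  rw [h5] at h4
  have hk0R : (0 : ℝ) < k0 := by exact_mod_cast hk0p
  calc (1 + Real.log q) * ∑ k ∈ Ioo (k0 - 1) K, ((k : ℝ) ^ 2)⁻¹
      ≤ (k0 : ℝ) * (2 / k0) := mul_le_mul hL h4 (sum_nonneg fun k _ => by positivity) hk0R.le
    _ = 2 := by field_simp

end SumAux

open SumAux in
theorem sum_st (h1 : BA1St) (h2 : BA2St) (h3 : BA3St) : SumSt := by
  intro C hC
  refine ⟨48 * C, by positivity, ?_⟩
  intro θ M _ _ H1 H2 K
  have hBA := fun k => h2 θ (dl k) (dl_pos k) (dl_le_one k)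
  choose q hq1 hqd hdist hmin hgcd hbeta using hBA
  have hbest : ∀ k, Best θ (q k) := fun k => ⟨hq1 k, fun r hr hrq =>
    lt_of_le_of_lt (hdist k) (hmin k r hr hrq)⟩
  have hqR : ∀ k, (1 : ℝ) ≤ q k := fun k => by exact_mod_cast hq1 k
  have hd0 : ∀ x : ℝ, 0 ≤ dist1 x := fun x => abs_nonneg _
  -- q k ≤ 2 ^ k
  have hq2 : ∀ k, q k ≤ 2 ^ k := by
    intro k
    have a1 : (q k : ℝ) ≤ 2 ^ k := by
      have a2 := dl_sq k
      have a3 := dl_pos k
      have a4 := dl_le_one k
      have a5 : dl k * dl k * 2 ^ k = 1 := by rw [a2]; field_simp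
      have a6 : (q k : ℝ) * (dl k * dl k) ≤ 1 := by
        calc (q k : ℝ) * (dl k * dl k) = (q k : ℝ) * dl k * dl k := by ring
          _ ≤ 1 * 1 := mul_le_mul (hqd k) a4 a3.le (by norm_num)
          _ = 1 := one_mul 1
      calc (q k : ℝ) = (q k : ℝ) * (dl k * dl k * 2 ^ k) := by rw [a5, mul_one]
        _ = (q k : ℝ) * (dl k * dl k) * 2 ^ k := by ring
        _ ≤ 1 * 2 ^ k := mul_le_mul_of_nonneg_right a6 (by positivity)
        _ = 2 ^ k := one_mul _
    exact_mod_cast a1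
  -- |θ - a/q| ≤ 1/q^2
  have hq3 : ∀ k, |θ - ((round (q k * θ) : ℤ) : ℝ) / (q k : ℝ)| ≤ 1 / (q k : ℝ) ^ 2 := by
    intro k
    rw [hbeta k]
    have a1 : (0 : ℝ) < q k := by linarith [hqR k]
    have a2 : dl k ≤ 1 / (q k : ℝ) := by
      rw [le_div_iff₀ a1]
      linarith [hqd k]
    calc dist1 (q k * θ) / (q k : ℝ) ≤ (1 / (q k : ℝ)) / (q k : ℝ) :=
          div_le_div_of_nonneg_right (le_trans (hdist k) a2) a1.le
      _ = 1 / (q k : ℝ) ^ 2 := by
          rw [div_div, sq]
  set Bq : ℕ → ℝ := fun r => dist1 (r * θ) / r with hBq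
  have hBq0 : ∀ r, 0 ≤ Bq r := fun r => div_nonneg (hd0 _) (Nat.cast_nonneg r)
  set g : ℕ → ℕ → ℝ := fun r k => 1 / (r : ℝ) * (lg r k + ph (Bq r) k) with hg
  have hg0 : ∀ r k, 1 ≤ r → 0 ≤ g r k := by
    intro r k hr
    have a1 := lg_nonneg r k hr
    have a2 := ph_nonneg (hBq0 r) k
    simp only [hg]
    positivity
  have hkey : ∀ k, M k ≤ C * (g (q k) k + 6 * dl k) := by
    intro k
    have a1 : (0 : ℝ) < q k := by linarith [hqR k]
    have hdl := dl_pos k
    have hdlsq := dl_sq k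
    have h2k : (0 : ℝ) < 2 ^ k := by positivity
    have hds : 1 / Real.sqrt (2 ^ k) = dl k := rfl
    have hq2k : (q k : ℝ) / 2 ^ k ≤ dl k := by
      have : (q k : ℝ) / 2 ^ k = (q k : ℝ) * dl k * dl k := by
        rw [mul_assoc, hdlsq]
        ring
      rw [this]
      calc (q k : ℝ) * dl k * dl k ≤ 1 * dl k := mul_le_mul_of_nonneg_right (hqd k) hdl.le
        _ = dl k := one_mul _
    by_cases hA : 16 * q k ^ 2 ≤ 2 ^ k
    · have hAR : 16 * (q k : ℝ) ^ 2 ≤ 2 ^ k := by exact_mod_cast hA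
      have hlg : lg (q k) k = (1 + Real.log (q k)) / (k : ℝ) ^ 2 := by
        unfold lg
        rw [if_pos hA]
      by_cases hB : 2 ^ k * Bq (q k) ≤ 1
      · have hph : ph (Bq (q k)) k = 2 ^ k * Bq (q k) := by
          unfold ph
          rw [if_pos hB]
        have hk1 : 1 ≤ k := by
          rcases Nat.eq_zero_or_pos k with h | h
          · rw [h] at hA
            have : 1 ≤ q 0 ^ 2 := Nat.one_le_pow _ _ (hq1 0)
            omega
          · exact h
        have e1 : |θ - ((round (q k * θ) : ℤ) : ℝ) / (q k : ℝ)| = Bq (q k) := hbeta k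
        have a2 := H2 k (q k) (round (q k * θ)) hk1 (hq1 k) (hgcd k) hA (by rw [e1]; exact hB)
        rw [e1, hds] at a2
        refine le_trans a2 ?_
        apply mul_le_mul_of_nonneg_left _ hC.le
        simp only [hg]
        rw [hlg, hph]
        linarith
      · push Not at hB
        have hph : ph (Bq (q k)) k = 1 / (2 ^ k * Bq (q k)) := by
          unfold ph
          rw [if_neg (not_le.mpr hB)]
        set D : ℝ := dist1 (q k * θ) with hD
        have hBD : Bq (q k) = D / q k := rfl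
        have hqD : (q k : ℝ) < 2 ^ k * D := by
          rw [hBD] at hB
          have : 2 ^ k * (D / q k) = (2 ^ k * D) / q k := by ring
          rw [this, lt_div_iff₀ a1] at hB
          linarith
        have hDpos : 0 < D := by
          by_contra hcon
          push Not at hcon
          have : D = 0 := le_antisymm hcon (hd0 _)
          rw [this] at hqD
          linarith
        obtain ⟨q', a', b1, b2, b3, b4, b5⟩ := h3 θ (q k) (hbest k) hDpos
        rw [← hD] at b3 b4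
        have b1R : (0 : ℝ) < q' := by exact_mod_cast b1
        have c1 : q' ≤ 2 ^ k := by
          have : (q' : ℝ) ≤ 2 ^ k := by
            by_contra hcon
            push Not at hcon
            have d1 : (2 : ℝ) ^ k * D < q' * D := mul_lt_mul_of_pos_right hcon hDpos
            linarith [hqR k]
          exact_mod_cast this
        have a2 := H1 k q' a' b1 c1 b2 b5
        rw [hds] at a2
        refine le_trans a2 ?_
        apply mul_le_mul_of_nonneg_left _ hC.le
        have c2 : 1 / (q' : ℝ) ≤ 2 * dl k := by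
          rw [div_le_iff₀ b1R]
          have : D ≤ dl k := hdist k
          nlinarith
        have c3 : (q' : ℝ) / 2 ^ k ≤ 1 / (q k : ℝ) * (1 / (2 ^ k * Bq (q k))) := by
          have e2 : 1 / (q k : ℝ) * (1 / (2 ^ k * Bq (q k))) = 1 / (2 ^ k * D) := by
            rw [hBD]
            field_simp
          rw [e2, div_le_div_iff₀ h2k (by positivity)]
          nlinarith
        have c4 : 0 ≤ 1 / (q k : ℝ) * lg (q k) k :=
          mul_nonneg (by positivity) (lg_nonneg _ _ (hq1 k))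
        simp only [hg]
        rw [hph, mul_add]
        linarith
    · push Not at hA
      have hAR : (2 : ℝ) ^ k ≤ 16 * (q k : ℝ) ^ 2 := by exact_mod_cast hA.le
      have a2 := H1 k (q k) (round (q k * θ)) (hq1 k) (hq2 k) (hgcd k) (hq3 k)
      rw [hds] at a2
      refine le_trans a2 ?_
      apply mul_le_mul_of_nonneg_left _ hC.le
      have c1 : 1 / (q k : ℝ) ≤ 4 * dl k := by
        -- (1/q)^2 ≤ 16 / 2^k = (4 dl)^2
        refine (pow_le_pow_iff_left₀ (by positivity) (by positivity) (two_ne_zero)).mp ?_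
        have e1 : (4 * dl k) ^ 2 = 16 * (1 / 2 ^ k) := by
          rw [← hdlsq]
          ring
        rw [e1, div_pow, one_pow, mul_one_div, div_le_div_iff₀ (by positivity) h2k]
        linarith
      have c2 := hg0 (q k) k (hq1 k)
      linarith
  -- sum over scales
  have hsum1 : ∑ k ∈ range K, g (q k) k ≤ 24 := by
    set Q : Finset ℕ := (range K).image q with hQ
    have hQb : ∀ r ∈ Q, Best θ r := by
      intro r hr
      rw [hQ, mem_image] at hr
      obtain ⟨k, _, rfl⟩ := hr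
      exact hbest k
    have c1 : ∑ k ∈ range K, g (q k) k = ∑ r ∈ Q, ∑ k ∈ (range K).filter (fun k => q k = r), g r k := by
      rw [← sum_fiberwise_of_maps_to (s := range K) (t := Q) (g := q)
        (fun k hk => mem_image_of_mem q hk) (fun k => g (q k) k)]
      refine sum_congr rfl fun r _ => sum_congr rfl fun k hk => ?_
      rw [mem_filter] at hk
      rw [hk.2]
    rw [c1]
    have c2 : ∀ r ∈ Q, ∑ k ∈ (range K).filter (fun k => q k = r), g r k ≤ 6 * (1 / (r : ℝ)) := by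
      intro r hr
      have hr1 : 1 ≤ r := (hQb r hr).1
      have hrR : (0 : ℝ) < r := by exact_mod_cast hr1
      calc ∑ k ∈ (range K).filter (fun k => q k = r), g r k ≤ ∑ k ∈ range K, g r k :=
            sum_le_sum_of_subset_of_nonneg (filter_subset _ _) fun k _ _ => hg0 r k hr1
        _ = 1 / (r : ℝ) * (∑ k ∈ range K, lg r k + ∑ k ∈ range K, ph (Bq r) k) := by
            simp only [hg]
            rw [← mul_sum, sum_add_distrib]
        _ ≤ 1 / (r : ℝ) * (2 + 4) :=
            mul_le_mul_of_nonneg_left (add_le_add (sum_lg r hr1 K) (sum_ph (hBq0 r) K)) (by positivity)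
        _ = 6 * (1 / (r : ℝ)) := by ring
    calc ∑ r ∈ Q, ∑ k ∈ (range K).filter (fun k => q k = r), g r k
        ≤ ∑ r ∈ Q, 6 * (1 / (r : ℝ)) := sum_le_sum c2
      _ = 6 * ∑ r ∈ Q, 1 / (r : ℝ) := by rw [mul_sum]
      _ ≤ 6 * 4 := mul_le_mul_of_nonneg_left (h1 θ Q hQb) (by norm_num)
      _ = 24 := by norm_num
  calc ∑ k ∈ range K, M k ≤ ∑ k ∈ range K, C * (g (q k) k + 6 * dl k) :=
        sum_le_sum fun k _ => hkey k
    _ = C * (∑ k ∈ range K, g (q k) k + 6 * ∑ k ∈ range K, dl k) := by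
        rw [← mul_sum, sum_add_distrib, mul_sum]
    _ ≤ C * (24 + 6 * 4) :=
        mul_le_mul_of_nonneg_left
          (add_le_add hsum1 (mul_le_mul_of_nonneg_left (sum_dl K) (by norm_num))) hC.le
    _ = 48 * C := by ring

end Pool.Agent.R204.DSQ
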