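import Mathlib
import Pool.Agent.R204.DSQ.Stm

/-! DSQ-TR1 (helper886): transference on the integers through the finite Fourier transform. -/

set_option autoImplicit false

namespace Pool.Agent.R204.DSQ

open Finset ComplexConjugate

namespace Tr1Aux

variable {L : ℕ} [NeZero L]

/-- finite Fourier transform -/
noncomputable def ft (F : ZMod L → ℂ) (r : ZMod L) : ℂ :=
  ∑ x, F x * ZMod.stdAddChar (-(x * r))

theorem parseval (F : ZMod L → ℂ) : ∑ r, ‖ft F r‖ ^ 2 = L * ∑ x, ‖F x‖ ^ 2 := by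
  have h : ((∑ r, ‖ft F r‖ ^ 2 : ℝ) : ℂ) = ((L * ∑ x, ‖F x‖ ^ 2 : ℝ) : ℂ) := by
    push_cast
    have h1 : ∀ r : ZMod L, ((‖ft F r‖ : ℝ) : ℂ) ^ 2
        = ∑ x, ∑ y, F x * conj (F y) * ZMod.stdAddChar (r * (y - x)) := by
      intro r
      rw [← Complex.mul_conj']
      unfold ft
      rw [map_sum, Finset.sum_mul_sum]
      apply Finset.sum_congr rfl
      intro x _
      apply Finset.sum_congr rfl
      intro y _
      rw [map_mul, ← AddChar.map_neg_eq_conj, neg_neg]
      have e : r * (y - x) = -(x * r) + y * r := by ring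
      rw [e, AddChar.map_add_eq_mul]
      ring
    simp_rw [h1]
    rw [Finset.sum_comm]
    rw [Finset.mul_sum]
    apply Finset.sum_congr rfl
    intro x _
    rw [Finset.sum_comm]
    rw [Finset.sum_eq_single x]
    · rw [← Finset.mul_sum, AddChar.sum_mulShift _ (ZMod.isPrimitive_stdAddChar L)]
      simp only [sub_self, if_true, ZMod.card]
      rw [Complex.mul_conj']
      ring
    · intro y _ hyx
      rw [← Finset.mul_sum, AddChar.sum_mulShift _ (ZMod.isPrimitive_stdAddChar L),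
        if_neg (sub_ne_zero.2 hyx)]
      simp
    · intro h; exact absurd (Finset.mem_univ x) h
  exact_mod_cast h

/-- the transform of a combination of translates -/
theorem ft_shift (G : ZMod L → ℂ) (K : ℕ) (c : ℕ → ℂ) (r : ZMod L) :
    ft (fun x => ∑ k ∈ Finset.range K, c k * G (x + (k : ZMod L))) r
      = (∑ k ∈ Finset.range K, c k * ZMod.stdAddChar ((k : ZMod L) * r)) * ft G r := by
  unfold ft
  simp_rw [Finset.sum_mul]
  rw [Finset.sum_comm]
  apply Finset.sum_congr rfl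
  intro k _
  rw [Finset.mul_sum]
  rw [← Equiv.sum_comp (Equiv.addRight (k : ZMod L))
    (fun x => c k * ZMod.stdAddChar ((k : ZMod L) * r) * (G x * ZMod.stdAddChar (-(x * r))))]
  apply Finset.sum_congr rfl
  intro x _
  simp only [Equiv.coe_addRight]
  have e : -(x * r) = (k : ZMod L) * r + -((x + (k : ZMod L)) * r) := by ring
  rw [e, AddChar.map_add_eq_mul]
  ring

theorem char_eq (k : ℕ) (r : ZMod L) :
    (ZMod.stdAddChar ((k : ZMod L) * r) : ℂ) = e (k * ((r.val : ℝ) / L)) := by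
  have h1 : (k : ZMod L) * r = (((k * r.val : ℕ) : ℤ) : ZMod L) := by
    push_cast
    rw [ZMod.natCast_zmod_val]
  rw [h1, ZMod.stdAddChar_coe]
  unfold e
  congr 1
  push_cast
  ring

end Tr1Aux

open Tr1Aux in
theorem tr1_st : TR1St := by
  intro J K M c C hC g
  by_cases hL : M + K = 0
  · have hM : M = 0 := by omega
    have hK : K = 0 := by omega
    subst hM; subst hK
    simp
  set L : ℕ := M + K with hLdef
  haveI : NeZero L := ⟨hL⟩
  have hLpos : (0 : ℝ) < L := by
    have : 0 < L := Nat.pos_of_ne_zero hL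
    exact_mod_cast this
  let G : ZMod L → ℂ := fun x => g x.val
  let F : ℕ → ZMod L → ℂ := fun j x => ∑ k ∈ Finset.range K, c j k * G (x + (k : ZMod L))
  -- the values on `range M`
  have h1 : ∀ j, ∑ m ∈ Finset.range M, ‖∑ k ∈ Finset.range K, c j k * g (m + k)‖ ^ 2
      ≤ ∑ x : ZMod L, ‖F j x‖ ^ 2 := by
    intro j
    have hinj : Set.InjOn (fun m : ℕ => (m : ZMod L)) (Finset.range M : Set ℕ) := by
      intro a ha b hb hab
      simp only [Finset.coe_range, Set.mem_Iio] at ha hb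
      have h := congrArg ZMod.val hab
      simp only at h
      rwa [ZMod.val_natCast_of_lt (by omega), ZMod.val_natCast_of_lt (by omega)] at h
    have h2 : ∑ m ∈ Finset.range M, ‖∑ k ∈ Finset.range K, c j k * g (m + k)‖ ^ 2
        = ∑ x ∈ (Finset.range M).image (fun m : ℕ => (m : ZMod L)), ‖F j x‖ ^ 2 := by
      rw [Finset.sum_image hinj]
      apply Finset.sum_congr rfl
      intro m hm
      rw [Finset.mem_range] at hm
      congr 2
      apply Finset.sum_congr rfl
      intro k hk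
      rw [Finset.mem_range] at hk
      congr 1
      simp only [G]
      have h3 : (m : ZMod L) + (k : ZMod L) = ((m + k : ℕ) : ZMod L) := by push_cast; ring
      rw [h3, ZMod.val_natCast_of_lt (by omega)]
    rw [h2]
    exact Finset.sum_le_sum_of_subset_of_nonneg (Finset.subset_univ _)
      (fun _ _ _ => by positivity)
  have h4 : ∑ x : ZMod L, ‖G x‖ ^ 2 = ∑ m ∈ Finset.range L, ‖g m‖ ^ 2 := by
    rw [Finset.sum_bij (fun (x : ZMod L) _ => x.val)]
    · intro x _; rw [Finset.mem_range]; exact ZMod.val_lt x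
    · intro x _ y _ h; exact ZMod.val_injective L h
    · intro m hm
      rw [Finset.mem_range] at hm
      exact ⟨(m : ZMod L), Finset.mem_univ _, ZMod.val_natCast_of_lt hm⟩
    · intro x _; rfl
  have h5 : ∀ r : ZMod L, ∑ j ∈ Finset.range J, ‖ft (F j) r‖ ^ 2 ≤ C * ‖ft G r‖ ^ 2 := by
    intro r
    have h6 : ∀ j, ft (F j) r
        = (∑ k ∈ Finset.range K, c j k * e (k * ((r.val : ℝ) / L))) * ft G r := by
      intro j
      have := ft_shift G K (c j) r
      simp_rw [char_eq] at this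
      exact this
    simp_rw [h6, norm_mul, mul_pow]
    rw [← Finset.sum_mul]
    exact mul_le_mul_of_nonneg_right (hC _) (by positivity)
  have h7 : L * ∑ j ∈ Finset.range J, ∑ x : ZMod L, ‖F j x‖ ^ 2
      ≤ L * (C * ∑ x : ZMod L, ‖G x‖ ^ 2) := by
    calc (L : ℝ) * ∑ j ∈ Finset.range J, ∑ x : ZMod L, ‖F j x‖ ^ 2
        = ∑ j ∈ Finset.range J, ∑ r : ZMod L, ‖ft (F j) r‖ ^ 2 := by
          rw [Finset.mul_sum]
          apply Finset.sum_congr rfl
          intro j _
          rw [parseval]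
      _ = ∑ r : ZMod L, ∑ j ∈ Finset.range J, ‖ft (F j) r‖ ^ 2 := Finset.sum_comm
      _ ≤ ∑ r : ZMod L, C * ‖ft G r‖ ^ 2 := Finset.sum_le_sum fun r _ => h5 r
      _ = C * ∑ r : ZMod L, ‖ft G r‖ ^ 2 := by rw [Finset.mul_sum]
      _ = L * (C * ∑ x : ZMod L, ‖G x‖ ^ 2) := by rw [parseval]; ring
  have h8 : ∑ j ∈ Finset.range J, ∑ x : ZMod L, ‖F j x‖ ^ 2 ≤ C * ∑ x : ZMod L, ‖G x‖ ^ 2 :=
    le_of_mul_le_mul_left h7 hLpos
  calc _ ≤ ∑ j ∈ Finset.range J, ∑ x : ZMod L, ‖F j x‖ ^ 2 := Finset.sum_le_sum fun j _ => h1 j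
    _ ≤ C * ∑ x : ZMod L, ‖G x‖ ^ 2 := h8
    _ = C * ∑ m ∈ Finset.range L, ‖g m‖ ^ 2 := by rw [h4]

end Pool.Agent.R204.DSQ
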