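import Mathlib
import Pool.Agent.R204.DSQ.Stm

set_option autoImplicit false

/-! Transference to measure preserving systems (piece TR2). -/

namespace Pool.Agent.R204.DSQ

open MeasureTheory Finset

universe u

namespace TR2

theorem enorm_sq (z : ℂ) : ‖z‖ₑ ^ 2 = ENNReal.ofReal (‖z‖ ^ 2) := by
  rw [ENNReal.ofReal_pow (norm_nonneg _), ofReal_norm_eq_enorm]

theorem arch {A D : ENNReal} (hD : D ≠ ⊤) (K : ℕ)
    (h : ∀ M : ℕ, (M : ENNReal) * A ≤ ((M + K : ℕ) : ENNReal) * D) : A ≤ D := by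
  have hA : A ≠ ⊤ := by
    intro hA
    have h1 := h 1
    rw [hA, Nat.cast_one, one_mul, top_le_iff] at h1
    exact (ENNReal.mul_ne_top (ENNReal.natCast_ne_top _) hD) h1
  rw [← ENNReal.toReal_le_toReal hA hD]
  by_contra hlt
  rw [not_le] at hlt
  obtain ⟨M, hM⟩ := exists_nat_gt ((K : ℝ) * D.toReal / (A.toReal - D.toReal))
  have h1 := ENNReal.toReal_mono (ENNReal.mul_ne_top (ENNReal.natCast_ne_top _) hD) (h M)
  rw [ENNReal.toReal_mul, ENNReal.toReal_mul, ENNReal.toReal_natCast, ENNReal.toReal_natCast] at h1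
  push_cast at h1
  rw [div_lt_iff₀ (by linarith)] at hM
  nlinarith

end TR2

theorem tr2_st (h : TR1St) : TR2St.{u} := by
  intro Ω _ μ _ τ hτ f hf J K c C hC
  have hC0 : 0 ≤ C := le_trans (Finset.sum_nonneg fun j _ => sq_nonneg _) (hC 0)
  have hm : ∀ k : ℕ, AEStronglyMeasurable (fun x => f (τ^[k] x)) μ := fun k =>
    hf.aestronglyMeasurable.comp_measurePreserving (hτ.iterate k)
  let F : ℕ → Ω → ℂ := fun j x => ∑ k ∈ Finset.range K, c j k * f (τ^[k] x)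
  have hF : ∀ j, AEStronglyMeasurable (F j) μ := by
    intro j
    have h1 : F j = ∑ k ∈ Finset.range K, fun x => c j k * f (τ^[k] x) := by
      funext x
      simp [F]
    rw [h1]
    exact Finset.aestronglyMeasurable_sum _ fun k _ => (hm k).const_mul (c j k)
  have hFe : ∀ j, AEMeasurable (fun x => ‖F j x‖ₑ ^ 2) μ := fun j => (hF j).enorm.pow_const 2
  have hfe : AEMeasurable (fun x => ‖f x‖ₑ ^ 2) μ := hf.aestronglyMeasurable.enorm.pow_const 2
  have hinv : ∀ (G : Ω → ENNReal), AEMeasurable G μ → ∀ m : ℕ,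
      ∫⁻ x, G (τ^[m] x) ∂μ = ∫⁻ x, G x ∂μ := by
    intro G hG m
    have h1 := (hτ.iterate m).map_eq
    have h2 : AEMeasurable G (Measure.map (τ^[m]) μ) := by rwa [h1]
    rw [← lintegral_map' h2 (hτ.iterate m).measurable.aemeasurable, h1]
  have hcompF : ∀ j m, AEMeasurable (fun x => ‖F j (τ^[m] x)‖ₑ ^ 2) μ := fun j m =>
    (((hF j).comp_measurePreserving (hτ.iterate m)).enorm).pow_const 2
  have hcompf : ∀ m, AEMeasurable (fun x => ‖f (τ^[m] x)‖ₑ ^ 2) μ := fun m =>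
    ((hm m).enorm).pow_const 2
  have hB : ∫⁻ x, ‖f x‖ₑ ^ 2 ∂μ ≠ ⊤ := by
    have h1 := lintegral_rpow_enorm_lt_top_of_eLpNorm_lt_top (by norm_num) (by norm_num)
      hf.eLpNorm_lt_top
    have h2 : ∀ x, ‖f x‖ₑ ^ ((2 : ENNReal).toReal) = ‖f x‖ₑ ^ 2 := by
      intro x
      rw [← ENNReal.rpow_natCast]
      norm_num
    simp only [h2] at h1
    exact h1.ne
  have hpt : ∀ (M : ℕ) (x : Ω), ∑ j ∈ Finset.range J, ∑ m ∈ Finset.range M,
      ‖F j (τ^[m] x)‖ₑ ^ 2 ≤ ENNReal.ofReal C *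
        ∑ m ∈ Finset.range (M + K), ‖f (τ^[m] x)‖ₑ ^ 2 := by
    intro M x
    have h1 := h J K M c C hC (fun m => f (τ^[m] x))
    have h2 : ∀ j m, ∑ k ∈ Finset.range K, c j k * f (τ^[m + k] x) = F j (τ^[m] x) := by
      intro j m
      refine Finset.sum_congr rfl fun k _ => ?_
      rw [Nat.add_comm, Function.iterate_add_apply]
    simp only [h2] at h1
    simp only [TR2.enorm_sq]
    have h3 : ∑ j ∈ Finset.range J, ∑ m ∈ Finset.range M,
        ENNReal.ofReal (‖F j (τ^[m] x)‖ ^ 2) =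
        ENNReal.ofReal (∑ j ∈ Finset.range J, ∑ m ∈ Finset.range M, ‖F j (τ^[m] x)‖ ^ 2) := by
      rw [ENNReal.ofReal_sum_of_nonneg fun j _ => Finset.sum_nonneg fun m _ => sq_nonneg _]
      refine Finset.sum_congr rfl fun j _ => ?_
      rw [ENNReal.ofReal_sum_of_nonneg fun m _ => sq_nonneg _]
    have h4 : ∑ m ∈ Finset.range (M + K), ENNReal.ofReal (‖f (τ^[m] x)‖ ^ 2) =
        ENNReal.ofReal (∑ m ∈ Finset.range (M + K), ‖f (τ^[m] x)‖ ^ 2) := by
      rw [ENNReal.ofReal_sum_of_nonneg fun m _ => sq_nonneg _]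
    rw [h3, h4, ← ENNReal.ofReal_mul hC0]
    exact ENNReal.ofReal_le_ofReal h1
  have hD : ENNReal.ofReal C * ∫⁻ x, ‖f x‖ₑ ^ 2 ∂μ ≠ ⊤ := ENNReal.mul_ne_top ENNReal.ofReal_ne_top hB
  refine TR2.arch hD K fun M => ?_
  have hint := lintegral_mono (μ := μ) (hpt M)
  have e1 : ∫⁻ x, ∑ j ∈ Finset.range J, ∑ m ∈ Finset.range M, ‖F j (τ^[m] x)‖ₑ ^ 2 ∂μ =
      (M : ENNReal) * ∑ j ∈ Finset.range J, ∫⁻ x, ‖F j x‖ₑ ^ 2 ∂μ := by
    rw [lintegral_finset_sum' _ fun j _ => Finset.aemeasurable_fun_sum _ fun m _ => hcompF j m,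
      Finset.mul_sum]
    refine Finset.sum_congr rfl fun j _ => ?_
    rw [lintegral_finset_sum' _ fun m _ => hcompF j m,
      Finset.sum_congr rfl fun m _ => hinv (fun x => ‖F j x‖ₑ ^ 2) (hFe j) m,
      Finset.sum_const, Finset.card_range, nsmul_eq_mul]
  have e2 : ∫⁻ x, ENNReal.ofReal C * ∑ m ∈ Finset.range (M + K), ‖f (τ^[m] x)‖ₑ ^ 2 ∂μ =
      ((M + K : ℕ) : ENNReal) * (ENNReal.ofReal C * ∫⁻ x, ‖f x‖ₑ ^ 2 ∂μ) := by
    rw [lintegral_const_mul'' _ (Finset.aemeasurable_fun_sum _ fun m _ => hcompf m),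
      lintegral_finset_sum' _ fun m _ => hcompf m,
      Finset.sum_congr rfl fun m _ => hinv (fun x => ‖f x‖ₑ ^ 2) hfe m,
      Finset.sum_const, Finset.card_range, nsmul_eq_mul]
    ring
  rw [e1, e2] at hint
  exact hint

end Pool.Agent.R204.DSQ
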