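import Mathlib
import Pool.Agent.R204.DSQ.Stm

/-!
MP_d5c55f_an, piece TV: the dyadic total variation of `V`.
-/

namespace Pool.Agent.R204.DSQ

open MeasureTheory Finset

namespace TvP

theorem W_succ (n : ℕ) : W (n + 1) = W n + dv (n + 1) := by
  unfold W
  rw [Finset.sum_Icc_succ_top (by omega)]

theorem S_succ (θ : ℝ) (n : ℕ) :
    S θ (n + 1) = S θ n + (dv (n + 1) : ℂ) * e (((n + 1 : ℕ) : ℝ) * θ) := by
  unfold S
  rw [Finset.sum_Icc_succ_top (by omega)]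

theorem dv_nonneg (n : ℕ) : 0 ≤ dv n := by
  unfold dv
  positivity

theorem norm_e (x : ℝ) : ‖e x‖ = 1 := by
  unfold e
  rw [Complex.norm_exp]
  simp

theorem sum_dv (a b : ℕ) (h : a ≤ b) : ∑ n ∈ Finset.Ico a b, dv (n + 1) = W b - W a := by
  induction b, h using Nat.le_induction with
  | base => simp
  | succ b hb ih =>
    rw [Finset.sum_Ico_succ_top hb, ih, W_succ]
    ring

theorem W_mono {a b : ℕ} (h : a ≤ b) : W a ≤ W b := by
  have h1 := sum_dv a b h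
  have h2 : 0 ≤ ∑ n ∈ Finset.Ico a b, dv (n + 1) := Finset.sum_nonneg fun n _ => dv_nonneg _
  linarith

theorem step (h : WSt) (θ : ℝ) (m n : ℕ) (hm : 1 ≤ m) (hmn : m ≤ n) :
    ‖V θ (n + 1) - V θ n‖ ≤ 2 / W m * dv (n + 1) := by
  have hWn : 0 < W n := h.1 n (by omega)
  have hWn1 : 0 < W (n + 1) := h.1 (n + 1) (by omega)
  have hWm : 0 < W m := h.1 m hm
  have e1 : (W n : ℂ) ≠ 0 := Complex.ofReal_ne_zero.2 hWn.ne'
  have e2 : (W (n + 1) : ℂ) ≠ 0 := Complex.ofReal_ne_zero.2 hWn1.ne'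
  have hS : S θ n = (W n : ℂ) * V θ n := by
    unfold V
    field_simp
  have h1 : V θ (n + 1) - V θ n =
      (dv (n + 1) : ℂ) * (e (((n + 1 : ℕ) : ℝ) * θ) - V θ n) / (W (n + 1) : ℂ) := by
    rw [eq_div_iff e2, sub_mul]
    have h2 : V θ (n + 1) * (W (n + 1) : ℂ) = S θ (n + 1) := by
      unfold V
      rw [div_mul_cancel₀ _ e2]
    rw [h2, S_succ, hS, W_succ]
    push_cast
    ring
  rw [h1, norm_div, norm_mul, Complex.norm_real, Complex.norm_real,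
    Real.norm_of_nonneg (dv_nonneg _), Real.norm_of_nonneg hWn1.le, div_mul_eq_mul_div]
  have h3 : ‖e (((n + 1 : ℕ) : ℝ) * θ) - V θ n‖ ≤ 2 := by
    refine (norm_sub_le _ _).trans ?_
    have h4 := h.2.2.2 θ n
    rw [norm_e]
    linarith
  have h4 : W m ≤ W (n + 1) := W_mono (by omega)
  have h5 : dv (n + 1) * ‖e (((n + 1 : ℕ) : ℝ) * θ) - V θ n‖ ≤ 2 * dv (n + 1) := by
    have h6 := mul_le_mul_of_nonneg_left h3 (dv_nonneg (n + 1))
    linarith
  exact div_le_div₀ (mul_nonneg (by norm_num) (dv_nonneg _)) h5 hWm h4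

end TvP

open TvP in
theorem tv_st (h : WSt) : TVSt := by
  intro θ k
  have hk : 1 ≤ 2 ^ k := Nat.one_le_two_pow
  have hW : 0 < W (2 ^ k) := h.1 _ hk
  have h1 : ∑ n ∈ Finset.Ico (2 ^ k) (2 ^ (k + 1)), ‖V θ (n + 1) - V θ n‖ ≤
      ∑ n ∈ Finset.Ico (2 ^ k) (2 ^ (k + 1)), 2 / W (2 ^ k) * dv (n + 1) := by
    apply Finset.sum_le_sum
    intro n hn
    exact step h θ (2 ^ k) n hk (Finset.mem_Ico.1 hn).1
  rw [← Finset.mul_sum, sum_dv _ _ (Nat.pow_le_pow_right (by norm_num) (Nat.le_succ k))] at h1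
  have h2 : W (2 ^ (k + 1)) ≤ 4 * W (2 ^ k) := by
    rw [pow_succ, mul_comm]
    exact h.2.1 (2 ^ k)
  refine h1.trans ?_
  rw [div_mul_eq_mul_div, div_le_iff₀ hW]
  linarith

end Pool.Agent.R204.DSQ
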