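import Pool.Agent.R204.DSQ.Stm

/-! Piece VIN (helper273): the classical Vinogradov lemma. -/

namespace Pool.Agent.R204.DSQ

open Finset

namespace VinAux

theorem harm (m N : ℕ) (h : m ≤ N) (hN : 1 ≤ N) :
    ∑ j ∈ Finset.range m, 1 / ((j : ℝ) + 1) ≤ 1 + Real.log N := by
  have h1 := harmonic_le_one_add_log m
  have h2 : ((harmonic m : ℚ) : ℝ) = ∑ j ∈ Finset.range m, 1 / ((j : ℝ) + 1) := by
    simp [harmonic]
  rw [← h2]
  refine h1.trans ?_
  have h3 : Real.log m ≤ Real.log N := by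
    rcases Nat.eq_zero_or_pos m with h0 | h0
    · rw [h0]
      simp only [Nat.cast_zero, Real.log_zero]
      exact Real.log_nonneg (by exact_mod_cast hN)
    · exact Real.log_le_log (by exact_mod_cast h0) (by exact_mod_cast h)
  linarith

noncomputable def GG (M : ℝ) (q : ℕ) (k : ℤ) : ℝ :=
  if |k| ≤ 2 then M else (q : ℝ) / (2 * (((|k| : ℤ) : ℝ) - 2))

theorem GG_nonneg (M : ℝ) (hM : 0 ≤ M) (q : ℕ) (k : ℤ) : 0 ≤ GG M q k := by
  unfold GG
  split_ifs with h
  · exact hM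
  · push Not at h
    have h1 : (3 : ℝ) ≤ ((|k| : ℤ) : ℝ) := by exact_mod_cast h
    apply div_nonneg (Nat.cast_nonneg _)
    linarith

theorem GG_sum (M : ℝ) (q m : ℕ) :
    ∑ k ∈ Finset.Icc (-((m : ℤ) + 2)) ((m : ℤ) + 2), GG M q k =
      5 * M + q * ∑ j ∈ Finset.range m, 1 / ((j : ℝ) + 1) := by
  induction m with
  | zero =>
    have h1 : Finset.Icc (-(((0 : ℕ) : ℤ) + 2)) (((0 : ℕ) : ℤ) + 2) = {-2, -1, 0, 1, 2} := by
      decide
    rw [h1]
    simp [GG]
    ring
  | succ m ih =>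
    have h1 : Finset.Icc (-(((m + 1 : ℕ) : ℤ) + 2)) (((m + 1 : ℕ) : ℤ) + 2) =
        insert ((m : ℤ) + 3) (insert (-((m : ℤ) + 3))
          (Finset.Icc (-((m : ℤ) + 2)) ((m : ℤ) + 2))) := by
      ext k
      simp only [Finset.mem_Icc, Finset.mem_insert]
      push_cast
      omega
    rw [h1, Finset.sum_insert, Finset.sum_insert, ih, Finset.sum_range_succ]
    · have h2 : |(m : ℤ) + 3| = (m : ℤ) + 3 := abs_of_nonneg (by positivity)
      have h3 : |-((m : ℤ) + 3)| = (m : ℤ) + 3 := by rw [abs_neg, h2]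
      unfold GG
      rw [h2, h3, if_neg (by omega)]
      push_cast
      have h4 : (m : ℝ) + 1 ≠ 0 := by positivity
      have h5 : (m : ℝ) + 3 - 2 = (m : ℝ) + 1 := by ring
      rw [h5]
      field_simp
      ring
    · simp only [Finset.mem_Icc]
      omega
    · simp only [Finset.mem_Icc, Finset.mem_insert]
      omega

theorem dist1_nonneg (x : ℝ) : 0 ≤ dist1 x := abs_nonneg _

theorem mn_nonneg (n : ℕ) (θ : ℝ) (u : ℕ) : 0 ≤ mn n θ u := by
  unfold mn
  have := dist1_nonneg (u * θ)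
  split_ifs
  · positivity
  · apply le_min <;> positivity

theorem mn_le1 (n : ℕ) (θ : ℝ) (u : ℕ) : mn n θ u ≤ (n : ℝ) / u := by
  unfold mn
  split_ifs
  · exact le_rfl
  · exact min_le_left _ _

theorem mn_le2 (n : ℕ) (θ : ℝ) (u : ℕ) (h : 0 < dist1 (u * θ)) :
    mn n θ u ≤ 1 / (2 * dist1 (u * θ)) := by
  unfold mn
  rw [if_neg h.ne']
  exact min_le_right _ _

theorem block (θ : ℝ) (n q : ℕ) (a : ℤ) (hq : 1 ≤ q) (hg : Int.gcd a q = 1)
    (hθ : |θ - a / q| ≤ 1 / (q : ℝ) ^ 2) (h : ℕ) (M : ℝ) (hM : 0 ≤ M)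
    (hb : ∀ r < q, mn n θ (h * q + r) ≤ M) :
    ∑ r ∈ Finset.range q, mn n θ (h * q + r) ≤ 5 * M + q * (1 + Real.log q) := by
  classical
  have hqr : (0 : ℝ) < q := by exact_mod_cast hq
  set β : ℝ := θ - a / q with hβ
  have hqβ : (q : ℝ) * β = q * θ - a := by
    rw [hβ]
    field_simp
  set Y : ℝ := q * (h * q) * β with hY
  obtain ⟨k, hk⟩ : ∃ k : ℕ → ℤ, ∀ r, k r = ((h * q + r : ℕ) : ℤ) * a -
      q * round (((h * q + r : ℕ) : ℝ) * θ) + ⌊Y⌋ := ⟨_, fun r => rfl⟩
  have key : ∀ r < q, |(k r : ℝ)| - 2 ≤ q * dist1 (((h * q + r : ℕ) : ℝ) * θ) := by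
    intro r hr
    have e1 : (q : ℝ) * (((h * q + r : ℕ) : ℝ) * θ - round (((h * q + r : ℕ) : ℝ) * θ)) =
        (k r : ℝ) + (Y - ⌊Y⌋) + q * r * β := by
      rw [hk, hY]
      push_cast
      have : (q : ℝ) * θ = q * β + a := by linarith
      linear_combination ((h : ℝ) * q + r) * this
    have e2 : (q : ℝ) * dist1 (((h * q + r : ℕ) : ℝ) * θ) =
        |(k r : ℝ) + (Y - ⌊Y⌋) + q * r * β| := by
      rw [← e1, abs_mul, abs_of_pos hqr]
      rfl
    rw [e2]
    have e3 : |Y - ⌊Y⌋| ≤ 1 := by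
      rw [abs_of_nonneg (sub_nonneg.2 (Int.floor_le Y))]
      linarith [Int.lt_floor_add_one Y]
    have e4 : |(q : ℝ) * r * β| ≤ 1 := by
      rw [abs_mul, abs_of_nonneg (by positivity)]
      have hr' : (r : ℝ) ≤ q := by exact_mod_cast hr.le
      calc (q : ℝ) * r * |β| ≤ q * q * (1 / (q : ℝ) ^ 2) := by gcongr
        _ = 1 := by field_simp
    have e5 : |(k r : ℝ)| ≤ |(k r : ℝ) + (Y - ⌊Y⌋) + q * r * β| + |Y - ⌊Y⌋| +
        |(q : ℝ) * r * β| := by
      have : (k r : ℝ) = ((k r : ℝ) + (Y - ⌊Y⌋) + q * r * β) - (Y - ⌊Y⌋) - q * r * β := by ring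
      calc |(k r : ℝ)| = |((k r : ℝ) + (Y - ⌊Y⌋) + q * r * β) - (Y - ⌊Y⌋) - q * r * β| := by
            rw [← this]
        _ ≤ |((k r : ℝ) + (Y - ⌊Y⌋) + q * r * β) - (Y - ⌊Y⌋)| + |(q : ℝ) * r * β| := abs_sub _ _
        _ ≤ _ := by
            have := abs_sub ((k r : ℝ) + (Y - ⌊Y⌋) + q * r * β) (Y - ⌊Y⌋)
            linarith
    linarith
  have hkb : ∀ r < q, |k r| ≤ ((q / 2 : ℕ) : ℤ) + 2 := by
    intro r hr
    have h1 := key r hr
    have h2 : dist1 (((h * q + r : ℕ) : ℝ) * θ) ≤ 1 / 2 := abs_sub_round _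
    have h3 : (q : ℝ) * dist1 (((h * q + r : ℕ) : ℝ) * θ) ≤ q * (1 / 2) :=
      mul_le_mul_of_nonneg_left h2 hqr.le
    have h4 : 2 * |(k r : ℝ)| ≤ q + 4 := by linarith
    have h5 : 2 * |k r| ≤ (q : ℤ) + 4 := by exact_mod_cast h4
    push_cast
    omega
  have hinj : Set.InjOn k (Finset.range q : Set ℕ) := by
    intro r hr s hs hrs
    simp only [Finset.coe_range, Set.mem_Iio] at hr hs
    have h1 : ((r : ℤ) - s) * a = q * (round (((h * q + r : ℕ) : ℝ) * θ) -
        round (((h * q + s : ℕ) : ℝ) * θ)) := by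
      rw [hk, hk] at hrs
      have c1 : ((h * q + r : ℕ) : ℤ) = (h : ℤ) * q + r := by push_cast; ring
      have c2 : ((h * q + s : ℕ) : ℤ) = (h : ℤ) * q + s := by push_cast; ring
      rw [c1, c2] at hrs
      linear_combination hrs
    have h2 : (q : ℤ) ∣ ((r : ℤ) - s) * a := ⟨_, h1⟩
    have h3 : IsCoprime (q : ℤ) a := by
      rw [Int.isCoprime_iff_gcd_eq_one, Int.gcd_comm]
      exact hg
    have h4 : (q : ℤ) ∣ (r : ℤ) - s := h3.dvd_of_dvd_mul_right h2
    have h5 := Int.eq_zero_of_abs_lt_dvd h4 (by rw [abs_lt]; constructor <;> omega)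
    omega
  have hle : ∀ r ∈ Finset.range q, mn n θ (h * q + r) ≤ GG M q (k r) := by
    intro r hr
    rw [Finset.mem_range] at hr
    unfold GG
    split_ifs with hc
    · exact hb r hr
    · push Not at hc
      have h1 := key r hr
      have h2 : (3 : ℝ) ≤ ((|k r| : ℤ) : ℝ) := by exact_mod_cast hc
      have h3 : ((|k r| : ℤ) : ℝ) = |(k r : ℝ)| := by push_cast; rfl
      have h4 : 0 < dist1 (((h * q + r : ℕ) : ℝ) * θ) := by
        by_contra hcon
        push Not at hcon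
        have := mul_nonpos_of_nonneg_of_nonpos hqr.le hcon
        linarith
      refine (mn_le2 n θ _ h4).trans ?_
      rw [div_le_div_iff₀ (by positivity) (by linarith)]
      rw [h3]
      nlinarith
  have hmaps : ∀ r ∈ Finset.range q, k r ∈
      Finset.Icc (-(((q / 2 : ℕ) : ℤ) + 2)) (((q / 2 : ℕ) : ℤ) + 2) := by
    intro r hr
    rw [Finset.mem_range] at hr
    rw [Finset.mem_Icc]
    exact abs_le.1 (hkb r hr)
  calc ∑ r ∈ Finset.range q, mn n θ (h * q + r)
      ≤ ∑ r ∈ Finset.range q, GG M q (k r) := Finset.sum_le_sum hle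
    _ = ∑ x ∈ (Finset.range q).image k, GG M q x := by
        rw [Finset.sum_image hinj]
    _ ≤ ∑ x ∈ Finset.Icc (-(((q / 2 : ℕ) : ℤ) + 2)) (((q / 2 : ℕ) : ℤ) + 2), GG M q x := by
        refine Finset.sum_le_sum_of_subset_of_nonneg ?_ fun x _ _ => GG_nonneg M hM q x
        intro x hx
        obtain ⟨r, hr, rfl⟩ := Finset.mem_image.1 hx
        exact hmaps r hr
    _ = 5 * M + q * ∑ j ∈ Finset.range (q / 2), 1 / ((j : ℝ) + 1) := GG_sum M q (q / 2)
    _ ≤ 5 * M + q * (1 + Real.log q) := by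
        have := harm (q / 2) q (Nat.div_le_self _ _) hq
        have := mul_le_mul_of_nonneg_left this hqr.le
        linarith

theorem first (θ : ℝ) (n q : ℕ) (a : ℤ) (hq : 1 ≤ q) (hg : Int.gcd a q = 1)
    (hθ : |θ - a / q| ≤ 1 / (q : ℝ) ^ 2) (r : ℕ) (hr : r < q) :
    mn n θ r ≤ q + 2 * ((n : ℝ) / q) := by
  have hqr : (0 : ℝ) < q := by exact_mod_cast hq
  have hn0 : (0 : ℝ) ≤ n := Nat.cast_nonneg n
  rcases Nat.eq_zero_or_pos r with h0 | h0
  · rw [h0]
    refine (mn_le1 n θ 0).trans ?_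
    simp only [Nat.cast_zero, div_zero]
    positivity
  have hr0 : (0 : ℝ) < r := by exact_mod_cast h0
  by_cases h2 : q < 2 * r
  · refine (mn_le1 n θ r).trans ?_
    have h3 : (q : ℝ) ≤ 2 * r := by exact_mod_cast h2.le
    have h4 : (n : ℝ) / r ≤ 2 * ((n : ℝ) / q) := by
      rw [← mul_div_assoc, div_le_div_iff₀ hr0 hqr]
      nlinarith
    linarith
  · push Not at h2
    have h3 : 2 * (r : ℝ) ≤ q := by exact_mod_cast h2
    set β : ℝ := θ - a / q with hβ
    have hqβ : (q : ℝ) * β = q * θ - a := by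
      rw [hβ]
      field_simp
    set m : ℤ := round ((r : ℝ) * θ) with hm
    have e1 : (q : ℝ) * ((r : ℝ) * θ - m) = (((r : ℤ) * a - m * q : ℤ) : ℝ) + q * r * β := by
      push_cast
      linear_combination (-(r : ℝ)) * hqβ
    have hne : (r : ℤ) * a - m * q ≠ 0 := by
      intro hz
      have h4 : (q : ℤ) ∣ (r : ℤ) * a := ⟨m, by linarith⟩
      have h5 : IsCoprime (q : ℤ) a := by
        rw [Int.isCoprime_iff_gcd_eq_one, Int.gcd_comm]
        exact hg
      have h6 : (q : ℤ) ∣ (r : ℤ) := h5.dvd_of_dvd_mul_right h4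
      have h7 := Int.eq_zero_of_abs_lt_dvd h6 (by rw [abs_lt]; constructor <;> omega)
      omega
    have h8 : (1 : ℝ) ≤ |(((r : ℤ) * a - m * q : ℤ) : ℝ)| := by
      have := Int.one_le_abs hne
      exact_mod_cast this
    have h9 : |(q : ℝ) * r * β| ≤ 1 / 2 := by
      rw [abs_mul, abs_of_nonneg (by positivity)]
      calc (q : ℝ) * r * |β| ≤ q * (q / 2) * (1 / (q : ℝ) ^ 2) := by
            gcongr
            linarith
        _ = 1 / 2 := by field_simp
    have h10 : 1 / 2 ≤ (q : ℝ) * dist1 (r * θ) := by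
      have e2 : (q : ℝ) * dist1 (r * θ) =
          |(((r : ℤ) * a - m * q : ℤ) : ℝ) + q * r * β| := by
        rw [← e1, abs_mul, abs_of_pos hqr]
        rfl
      rw [e2]
      have e3 := abs_sub_abs_le_abs_sub (((r : ℤ) * a - m * q : ℤ) : ℝ) (-((q : ℝ) * r * β))
      rw [sub_neg_eq_add, abs_neg] at e3
      linarith
    have h11 : 0 < dist1 (r * θ) := by
      by_contra hcon
      push Not at hcon
      have := mul_nonpos_of_nonneg_of_nonpos hqr.le hcon
      linarith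
    refine (mn_le2 n θ r h11).trans ?_
    have h12 : 1 / (2 * dist1 (r * θ)) ≤ q := by
      rw [div_le_iff₀ (by positivity)]
      linarith
    have h13 : 0 ≤ (n : ℝ) / q := by positivity
    linarith

end VinAux

open VinAux in
theorem vin_st : VinSt := by
  refine ⟨15, by norm_num, ?_⟩
  intro θ n q U a hn hq hUn hqn hg hθ
  have hqr : (0 : ℝ) < q := by exact_mod_cast hq
  have hnr : (1 : ℝ) ≤ n := by exact_mod_cast hn
  have hL : 0 ≤ Real.log n := Real.log_nonneg hnr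
  have hlq : Real.log q ≤ Real.log n := Real.log_le_log hqr (by exact_mod_cast hqn)
  have hblocks : ∀ H : ℕ, ∑ u ∈ Finset.range ((H + 1) * q), mn n θ u ≤
      5 * (q + 2 * ((n : ℝ) / q)) + ((H : ℝ) + 1) * q * (1 + Real.log n) +
        5 * ((n : ℝ) / q) * ∑ j ∈ Finset.range H, 1 / ((j : ℝ) + 1) := by
    intro H
    induction H with
    | zero =>
      have h1 := block θ n q a hq hg hθ 0 (q + 2 * ((n : ℝ) / q)) (by positivity) (by
        intro r hr
        simpa using first θ n q a hq hg hθ r hr)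
      simp only [zero_mul, zero_add] at h1
      simp only [zero_add, one_mul, Nat.cast_zero, Finset.range_zero, Finset.sum_empty, mul_zero,
        add_zero]
      have h2 : (q : ℝ) * (1 + Real.log q) ≤ q * (1 + Real.log n) :=
        mul_le_mul_of_nonneg_left (by linarith) hqr.le
      linarith
    | succ H ih =>
      have e1 : (H + 1 + 1) * q = (H + 1) * q + q := by ring
      rw [e1, Finset.sum_range_add, Finset.sum_range_succ]
      have h1 := block θ n q a hq hg hθ (H + 1) ((n : ℝ) / (((H : ℝ) + 1) * q)) (by positivity) (by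
        intro r hr
        refine (mn_le1 n θ _).trans ?_
        apply div_le_div_of_nonneg_left (by positivity) (by positivity)
        push_cast
        have : (0 : ℝ) ≤ r := Nat.cast_nonneg r
        linarith)
      have h2 : (q : ℝ) * (1 + Real.log q) ≤ q * (1 + Real.log n) :=
        mul_le_mul_of_nonneg_left (by linarith) hqr.le
      have h3 : 5 * ((n : ℝ) / (((H : ℝ) + 1) * q)) = 5 * ((n : ℝ) / q) * (1 / ((H : ℝ) + 1)) := by
        have : (H : ℝ) + 1 ≠ 0 := by positivity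
        field_simp
      rw [h3] at h1
      push_cast
      linarith
  have hsub : Finset.Icc 1 U ⊆ Finset.range ((U / q + 1) * q) := by
    intro u hu
    rw [Finset.mem_Icc] at hu
    rw [Finset.mem_range]
    have h1 := Nat.div_add_mod U q
    have h2 := Nat.mod_lt U (show q > 0 by omega)
    have h3 : (U / q + 1) * q = q * (U / q) + q := by ring
    omega
  have h1 : ∑ u ∈ Finset.Icc 1 U, mn n θ u ≤ ∑ u ∈ Finset.range ((U / q + 1) * q), mn n θ u :=
    Finset.sum_le_sum_of_subset_of_nonneg hsub fun u _ _ => mn_nonneg n θ u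
  have h2 := hblocks (U / q)
  have h3 := harm (U / q) n ((Nat.div_le_self _ _).trans hUn) hn
  have h4 : ((U / q : ℕ) : ℝ) * q ≤ U := by
    have := Nat.div_mul_le_self U q
    exact_mod_cast this
  have h5 : (0 : ℝ) ≤ (n : ℝ) / q := by positivity
  have h6 : 5 * ((n : ℝ) / q) * ∑ j ∈ Finset.range (U / q), 1 / ((j : ℝ) + 1) ≤
      5 * ((n : ℝ) / q) * (1 + Real.log n) := mul_le_mul_of_nonneg_left h3 (by positivity)
  have h7 : (((U / q : ℕ) : ℝ) + 1) * q * (1 + Real.log n) ≤ (U + q) * (1 + Real.log n) := by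
    apply mul_le_mul_of_nonneg_right _ (by linarith)
    nlinarith
  have h8 : 5 * (q + 2 * ((n : ℝ) / q)) ≤ 5 * (q + 2 * ((n : ℝ) / q)) * (1 + Real.log n) := by
    apply le_mul_of_one_le_right (by positivity)
    linarith
  have hU0 : (0 : ℝ) ≤ U := Nat.cast_nonneg U
  nlinarith [mul_nonneg hU0 hL, mul_nonneg hqr.le hL, mul_nonneg h5 hL]

end Pool.Agent.R204.DSQ
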