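import Mathlib
import Pool.Agent.R204.DSQ.Stm

/-!
Bounds for the sums of the divisor function (piece W).
-/

namespace Pool.Agent.R204.DSQ

open MeasureTheory Finset

namespace WAux

theorem W_eq (n : ℕ) : W n = ∑ u ∈ Finset.Icc 1 n, ((n / u : ℕ) : ℝ) := by
  unfold W dv
  have h1 : ∀ k ∈ Finset.Icc 1 n, ((Nat.divisors k).card : ℝ) =
      ∑ u ∈ Finset.Icc 1 n, if u ∣ k then (1:ℝ) else 0 := by
    intro k hk
    rw [Finset.mem_Icc] at hk
    rw [← Finset.sum_filter, Finset.sum_const, nsmul_eq_mul, mul_one]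
    congr 2
    ext d
    simp only [Nat.mem_divisors, Finset.mem_filter, Finset.mem_Icc]
    constructor
    · rintro ⟨hd, h0⟩
      exact ⟨⟨Nat.pos_of_dvd_of_pos hd (by omega), (Nat.le_of_dvd (by omega) hd).trans hk.2⟩, hd⟩
    · rintro ⟨_, hd⟩
      exact ⟨hd, by omega⟩
  rw [Finset.sum_congr rfl h1, Finset.sum_comm]
  apply Finset.sum_congr rfl
  intro u hu
  rw [← Finset.sum_filter, Finset.sum_const, nsmul_eq_mul, mul_one]
  have h2 := Nat.Ioc_filter_dvd_card_eq_div n u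
  have h3 : Finset.Icc 1 n = Finset.Ioc 0 n := by
    ext x; simp only [Finset.mem_Icc, Finset.mem_Ioc]; omega
  rw [h3, h2]

theorem W_ge (n : ℕ) : (n : ℝ) ≤ W n := by
  unfold W
  calc (n : ℝ) = ∑ _k ∈ Finset.Icc 1 n, (1 : ℝ) := by
        rw [Finset.sum_const, Nat.card_Icc, nsmul_eq_mul]; simp
    _ ≤ ∑ k ∈ Finset.Icc 1 n, dv k := by
        apply Finset.sum_le_sum
        intro k hk
        rw [Finset.mem_Icc] at hk
        unfold dv
        have : 0 < (Nat.divisors k).card := by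
          rw [Finset.card_pos]
          exact ⟨1, Nat.mem_divisors.2 ⟨one_dvd _, by omega⟩⟩
        exact_mod_cast this

theorem W_nonneg (n : ℕ) : 0 ≤ W n := (Nat.cast_nonneg n).trans (W_ge n)

theorem div_two (n u : ℕ) (hu : 1 ≤ u) : 2 * n / u ≤ 2 * (n / u) + 1 := by
  have h1 : n < u * (n / u + 1) := Nat.lt_mul_div_succ n (by omega)
  have h2 : 2 * n / u < 2 * (n / u) + 2 := by
    rw [Nat.div_lt_iff_lt_mul (by omega)]
    calc 2 * n < 2 * (u * (n / u + 1)) := by omega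
      _ = (2 * (n / u) + 2) * u := by ring
  omega

theorem W_two (n : ℕ) : W (2 * n) ≤ 4 * W n := by
  have h1 : W (2 * n) ≤ ∑ u ∈ Finset.Icc 1 (2 * n), (2 * ((n / u : ℕ) : ℝ) + 1) := by
    rw [W_eq]
    apply Finset.sum_le_sum
    intro u hu
    rw [Finset.mem_Icc] at hu
    have := div_two n u hu.1
    exact_mod_cast this
  have h2 : ∑ u ∈ Finset.Icc 1 (2 * n), ((n / u : ℕ) : ℝ) = W n := by
    rw [W_eq]
    symm
    apply Finset.sum_subset
    · intro x hx
      rw [Finset.mem_Icc] at hx ⊢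
      omega
    · intro x hx hx'
      rw [Finset.mem_Icc] at hx hx'
      rw [Nat.div_eq_of_lt (by omega)]
      simp
  rw [Finset.sum_add_distrib, ← Finset.mul_sum, h2, Finset.sum_const, Nat.card_Icc,
    nsmul_eq_mul] at h1
  have h3 : ((2 * n + 1 - 1 : ℕ) : ℝ) = 2 * n := by
    rw [Nat.add_sub_cancel]; push_cast; ring
  rw [h3] at h1
  have h4 := W_ge n
  linarith

theorem W_log (n : ℕ) (hn : 1 ≤ n) : (n : ℝ) / 3 * (1 + Real.log n) ≤ W n := by
  have hn' : (1 : ℝ) ≤ n := by exact_mod_cast hn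
  have h1 : ∑ u ∈ Finset.Icc 1 n, ((n : ℝ) * (u : ℝ)⁻¹ - 1) ≤ W n := by
    rw [W_eq]
    apply Finset.sum_le_sum
    intro u hu
    rw [Finset.mem_Icc] at hu
    have h2 : n < u * (n / u + 1) := Nat.lt_mul_div_succ n (by omega)
    have h3 : (n : ℝ) < u * (((n / u : ℕ) : ℝ) + 1) := by exact_mod_cast h2
    have hu' : (0 : ℝ) < u := by exact_mod_cast (show 0 < u by omega)
    have h4 : (n : ℝ) * (u : ℝ)⁻¹ ≤ ((n / u : ℕ) : ℝ) + 1 := by
      rw [← div_eq_mul_inv, div_le_iff₀ hu']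
      linarith
    linarith
  rw [Finset.sum_sub_distrib, ← Finset.mul_sum, Finset.sum_const, Nat.card_Icc, nsmul_eq_mul,
    mul_one, Nat.add_sub_cancel] at h1
  have h5 : Real.log n ≤ ∑ u ∈ Finset.Icc 1 n, (u : ℝ)⁻¹ := by
    have h6 := log_add_one_le_harmonic n
    rw [harmonic_eq_sum_Icc] at h6
    push_cast at h6
    have h7 : Real.log n ≤ Real.log (n + 1) :=
      Real.log_le_log (by linarith) (by linarith)
    linarith
  have h8 := W_ge n
  have h9 : (n : ℝ) * Real.log n ≤ n * ∑ u ∈ Finset.Icc 1 n, (u : ℝ)⁻¹ :=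
    mul_le_mul_of_nonneg_left h5 (by linarith)
  nlinarith

theorem norm_e_aux (x : ℝ) : ‖e x‖ = 1 := by
  unfold e
  rw [show (2 * Real.pi * x * Complex.I : ℂ) = ((2 * Real.pi * x : ℝ) : ℂ) * Complex.I by
    push_cast; ring]
  exact Complex.norm_exp_ofReal_mul_I _

theorem V_le (θ : ℝ) (n : ℕ) : ‖V θ n‖ ≤ 1 := by
  unfold V
  rw [norm_div, Complex.norm_real, Real.norm_of_nonneg (W_nonneg n)]
  apply div_le_one_of_le₀ _ (W_nonneg n)
  unfold S W
  calc ‖∑ k ∈ Finset.Icc 1 n, (dv k : ℂ) * e (k * θ)‖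
      ≤ ∑ k ∈ Finset.Icc 1 n, ‖(dv k : ℂ) * e (k * θ)‖ := norm_sum_le _ _
    _ = ∑ k ∈ Finset.Icc 1 n, dv k := by
        apply Finset.sum_congr rfl
        intro k _
        rw [norm_mul, norm_e_aux, mul_one, Complex.norm_real, Real.norm_of_nonneg]
        unfold dv
        positivity

end WAux

theorem w_st : WSt := by
  refine ⟨?_, WAux.W_two, WAux.W_log, WAux.V_le⟩
  intro n hn
  have h1 := WAux.W_ge n
  have h2 : (1 : ℝ) ≤ n := by exact_mod_cast hn
  linarith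

end Pool.Agent.R204.DSQ
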